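import Mathlib
set_option autoImplicit false
open Filter Topology

namespace Pool.Agent.Helper477.RR

theorem AI_approx {f : ℝ → ℝ} {L : ℝ}
    (H : ∀ ε : ℝ, 0 < ε → ∃ (g : ℝ → ℝ) (L' : ℝ), Tendsto g atTop (𝓝 L') ∧ |L' - L| ≤ ε ∧
      ∀ᶠ x in atTop, |f x - g x| ≤ ε) : Tendsto f atTop (𝓝 L) := by
  rw [Metric.tendsto_nhds]
  intro ε hε
  obtain ⟨g, L', hg, hL, hfg⟩ := H (ε / 4) (by positivity)
  have hg' := (Metric.tendsto_nhds.1 hg) (ε / 4) (by positivity)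
  filter_upwards [hg', hfg] with x h1 h2
  rw [Real.dist_eq] at h1 ⊢
  have e : f x - L = (f x - g x) + (g x - L') + (L' - L) := by ring
  rw [e]
  have h3 := abs_add_le ((f x - g x) + (g x - L')) (L' - L)
  have h4 := abs_add_le (f x - g x) (g x - L')
  linarith

theorem AI_sd {ρ b : ℝ} (f : ℝ → ℝ) (hf : Tendsto (fun x : ℝ => f x / x ^ ρ) atTop (𝓝 b)) (h : ℝ) :
    Tendsto (fun x : ℝ => (f (x * Real.exp h) + f (x * Real.exp (-h)) - 2 * f x) / h ^ 2 / x ^ ρ)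
      atTop (𝓝 (b * ((Real.exp (ρ * h) + Real.exp (-(ρ * h)) - 2) / h ^ 2))) := by
  have key : ∀ t : ℝ, Tendsto (fun x : ℝ => f (x * Real.exp t) / x ^ ρ) atTop
      (𝓝 (b * Real.exp (ρ * t))) := by
    intro t
    have h1 : Tendsto (fun x : ℝ => x * Real.exp t) atTop atTop :=
      tendsto_id.atTop_mul_const (Real.exp_pos t)
    have h2 := (hf.comp h1).mul_const (Real.exp (ρ * t))
    refine h2.congr' ?_
    filter_upwards [eventually_gt_atTop (0:ℝ)] with x hx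
    have e1 : (x * Real.exp t) ^ ρ = x ^ ρ * Real.exp (ρ * t) := by
      rw [Real.mul_rpow hx.le (Real.exp_pos t).le, ← Real.exp_mul, mul_comm t ρ]
    have e2 : (0:ℝ) < Real.exp (ρ * t) := Real.exp_pos _
    have e3 : (0:ℝ) < x ^ ρ := Real.rpow_pos_of_pos hx ρ
    simp only [Function.comp]
    rw [e1]
    field_simp
  have k1 := key h
  have k2 := key (-h)
  have k3 := hf.const_mul 2
  have k4 := ((k1.add k2).sub k3).div_const (h ^ 2)
  have e : (b * Real.exp (ρ * h) + b * Real.exp (ρ * -h) - 2 * b) / h ^ 2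
      = b * ((Real.exp (ρ * h) + Real.exp (-(ρ * h)) - 2) / h ^ 2) := by
    have : ρ * -h = -(ρ * h) := by ring
    rw [this]; ring
  rw [e] at k4
  refine k4.congr' ?_
  filter_upwards [eventually_gt_atTop (0:ℝ)] with x hx
  ring

theorem AI_s {ρ : ℝ} (hρ : 0 < ρ) {h : ℝ} (hh : 0 < h) (h1 : ρ * h ≤ 1) :
    |(Real.exp (ρ * h) + Real.exp (-(ρ * h)) - 2) / h ^ 2 - ρ ^ 2| ≤ ρ ^ 3 * h := by
  set y := ρ * h with hy
  have hy0 : 0 < y := mul_pos hρ hh
  have b1 := Real.exp_bound (x := y) (n := 3) (by rw [abs_of_pos hy0]; exact h1) (by norm_num)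
  have b2 := Real.exp_bound (x := -y) (n := 3) (by rw [abs_neg, abs_of_pos hy0]; exact h1) (by norm_num)
  simp only [Finset.sum_range_succ, Finset.sum_range_zero, abs_neg, abs_of_pos hy0] at b1 b2
  norm_num [Nat.factorial] at b1 b2
  have e : (Real.exp y + Real.exp (-y) - 2) / h ^ 2 - ρ ^ 2
      = ((Real.exp y - (1 + y + y ^ 2 / 2)) + (Real.exp (-y) - (1 + -y + y ^ 2 / 2))) / h ^ 2 := by
    have : ρ ^ 2 = y ^ 2 / h ^ 2 := by rw [hy]; field_simp
    rw [this]; ring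
  rw [e, abs_div, abs_of_pos (by positivity : (0:ℝ) < h ^ 2), div_le_iff₀ (by positivity)]
  have h3 := abs_add_le (Real.exp y - (1 + y + y ^ 2 / 2)) (Real.exp (-y) - (1 + -y + y ^ 2 / 2))
  have e2 : ρ ^ 3 * h * h ^ 2 = y ^ 3 := by rw [hy]; ring
  rw [e2]
  have hy3 : 0 < y ^ 3 := by positivity
  linarith

theorem asymptotic_induction {ρ a : ℝ} (hρ : 0 < ρ) (ha : 0 ≤ a) (Λ : ℝ → ℝ) (U : ℕ → ℝ → ℝ)
    (hU0 : ∀ m, 1 ≤ m → ∀ x, 0 < x → 0 ≤ U m x)
    (hU1 : ∀ m, 1 ≤ m → ∀ x, 0 < x → U m x ≤ U 1 x)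
    (hΛ : Tendsto (fun x : ℝ => Λ x / x ^ ρ) atTop (𝓝 a))
    (C : ℕ → ℝ)
    (h0 : ∀ x, 0 < x → ∀ h : ℝ, 0 < h → h ≤ 1 →
      |(Λ (x * Real.exp h) + Λ (x * Real.exp (-h)) - 2 * Λ x) / h^2 - U 1 x| ≤ C 0 * h * U 1 x)
    (hs : ∀ m : ℕ, 1 ≤ m → ∀ x, 0 < x → ∀ h : ℝ, 0 < h → h ≤ 1 →
      |(U m (x * Real.exp h) + U m (x * Real.exp (-h)) - 2 * U m x) / h^2
        - ((m:ℝ)^2 * U m x - 2*m*(2*m+1) * U (m+1) x)| ≤ C m * h * U 1 x)
    (Q : ℕ → ℝ) (hQ1 : Q 1 = ρ^2)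
    (hQ : ∀ m : ℕ, 1 ≤ m → Q (m+1) = ((m:ℝ)^2 - ρ^2) * Q m / (2*m*(2*m+1))) :
    ∀ m, 1 ≤ m → Tendsto (fun x : ℝ => U m x / x ^ ρ) atTop (𝓝 (a * Q m)) := by
  -- boundedness of U 1
  obtain ⟨B, hB0, hB⟩ : ∃ B : ℝ, 0 ≤ B ∧ ∀ᶠ x : ℝ in atTop, U 1 x / x ^ ρ ≤ B := by
    set h : ℝ := min 1 (1 / (2 * (|C 0| + 1))) with hh
    have hC : 0 ≤ |C 0| := abs_nonneg _
    have hpos : 0 < h := lt_min one_pos (by positivity)
    have hle1 : h ≤ 1 := min_le_left _ _
    have hle2 : |C 0| * h ≤ 1 / 2 := by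
      have : h ≤ 1 / (2 * (|C 0| + 1)) := min_le_right _ _
      calc |C 0| * h ≤ |C 0| * (1 / (2 * (|C 0| + 1))) := mul_le_mul_of_nonneg_left this hC
        _ ≤ 1 / 2 := by
          rw [mul_one_div, div_le_div_iff₀ (by positivity) (by norm_num)]
          linarith
    have hl := AI_sd Λ hΛ h
    set s := (Real.exp (ρ * h) + Real.exp (-(ρ * h)) - 2) / h ^ 2
    have hev := hl.eventually (gt_mem_nhds (lt_add_one (a * s)))
    refine ⟨max 0 (2 * (a * s + 1)), le_max_left _ _, ?_⟩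
    filter_upwards [hev, eventually_gt_atTop (0:ℝ)] with x hx hx0
    have h1 := h0 x hx0 h hpos hle1
    have hU := hU0 1 le_rfl x hx0
    have h2 : C 0 * h * U 1 x ≤ 1 / 2 * U 1 x := by
      refine mul_le_mul_of_nonneg_right ?_ hU
      calc C 0 * h ≤ |C 0| * h := mul_le_mul_of_nonneg_right (le_abs_self _) hpos.le
        _ ≤ 1 / 2 := hle2
    have h3 := (abs_le.1 h1).1
    have h4 : U 1 x ≤ 2 * ((Λ (x * Real.exp h) + Λ (x * Real.exp (-h)) - 2 * Λ x) / h^2) := by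
      linarith
    have hxr : 0 < x ^ ρ := Real.rpow_pos_of_pos hx0 ρ
    calc U 1 x / x ^ ρ ≤ (2 * ((Λ (x * Real.exp h) + Λ (x * Real.exp (-h)) - 2 * Λ x) / h^2)) / x ^ ρ :=
          div_le_div_of_nonneg_right h4 hxr.le
      _ = 2 * ((Λ (x * Real.exp h) + Λ (x * Real.exp (-h)) - 2 * Λ x) / h^2 / x ^ ρ) := by ring
      _ ≤ 2 * (a * s + 1) := by linarith
      _ ≤ _ := le_max_right _ _
  -- choice of h
  have choose_h : ∀ K ε : ℝ, 0 ≤ K → 0 < ε → ∃ h : ℝ, 0 < h ∧ h ≤ 1 ∧ ρ * h ≤ 1 ∧ K * h ≤ ε := by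
    intro K ε hK hε
    refine ⟨min 1 (min (1 / ρ) (ε / (K + 1))), lt_min one_pos (lt_min (by positivity) (by positivity)),
      min_le_left _ _, ?_, ?_⟩
    · have : min 1 (min (1 / ρ) (ε / (K + 1))) ≤ 1 / ρ := (min_le_right _ _).trans (min_le_left _ _)
      calc ρ * min 1 (min (1 / ρ) (ε / (K + 1))) ≤ ρ * (1 / ρ) := mul_le_mul_of_nonneg_left this hρ.le
        _ = 1 := by field_simp
    · have : min 1 (min (1 / ρ) (ε / (K + 1))) ≤ ε / (K + 1) :=
        (min_le_right _ _).trans (min_le_right _ _)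
      calc K * min 1 (min (1 / ρ) (ε / (K + 1))) ≤ K * (ε / (K + 1)) :=
            mul_le_mul_of_nonneg_left this hK
        _ ≤ ε := by
          rw [mul_div_assoc', div_le_iff₀ (by positivity)]
          nlinarith
  intro m hm
  induction m, hm using Nat.le_induction with
  | base =>
    rw [hQ1]
    refine AI_approx (fun ε hε => ?_)
    obtain ⟨h, hpos, hle1, hρh, hK⟩ := choose_h (a * ρ ^ 3 + |C 0| * B) ε (by positivity) hε
    have hCB : 0 ≤ |C 0| * B * h := by positivity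
    have haρ : 0 ≤ a * ρ ^ 3 * h := by positivity
    refine ⟨_, _, AI_sd Λ hΛ h, ?_, ?_⟩
    · have hs1 := AI_s hρ hpos hρh
      rw [← mul_sub, abs_mul, abs_of_nonneg ha]
      have := mul_le_mul_of_nonneg_left hs1 ha
      nlinarith
    · filter_upwards [hB, eventually_gt_atTop (0:ℝ)] with x hx hx0
      have hxr : 0 < x ^ ρ := Real.rpow_pos_of_pos hx0 ρ
      have h1 := h0 x hx0 h hpos hle1
      have hU := hU0 1 le_rfl x hx0
      rw [← sub_div, abs_div, abs_of_pos hxr, abs_sub_comm]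
      calc |(Λ (x * Real.exp h) + Λ (x * Real.exp (-h)) - 2 * Λ x) / h^2 - U 1 x| / x ^ ρ
          ≤ (|C 0| * h * U 1 x) / x ^ ρ := by
            refine div_le_div_of_nonneg_right (h1.trans ?_) hxr.le
            exact mul_le_mul_of_nonneg_right (mul_le_mul_of_nonneg_right (le_abs_self _) hpos.le) hU
        _ = |C 0| * h * (U 1 x / x ^ ρ) := by ring
        _ ≤ |C 0| * h * B := mul_le_mul_of_nonneg_left hx (by positivity)
        _ ≤ ε := by nlinarith
  | succ m hm ih =>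
    have hm0 : (0:ℝ) < m := by exact_mod_cast hm
    set k : ℝ := 2 * m * (2 * m + 1) with hk
    have hk0 : 0 < k := by positivity
    rw [hQ m hm]
    refine AI_approx (fun ε hε => ?_)
    obtain ⟨h, hpos, hle1, hρh, hK⟩ := choose_h (|a * Q m| * ρ ^ 3 + |C m| * B) (ε * k) (by positivity)
      (by positivity)
    have hCB : 0 ≤ |C m| * B * h := by positivity
    have haρ : 0 ≤ |a * Q m| * ρ ^ 3 * h := by positivity
    have hd := AI_sd (U m) ih h
    set s := (Real.exp (ρ * h) + Real.exp (-(ρ * h)) - 2) / h ^ 2 with hs'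
    have hg : Tendsto (fun x : ℝ => ((m:ℝ)^2 * (U m x / x ^ ρ)
        - (U m (x * Real.exp h) + U m (x * Real.exp (-h)) - 2 * U m x) / h ^ 2 / x ^ ρ) / k) atTop
        (𝓝 (((m:ℝ)^2 * (a * Q m) - a * Q m * s) / k)) :=
      ((ih.const_mul ((m:ℝ)^2)).sub hd).div_const k
    refine ⟨_, _, hg, ?_, ?_⟩
    · have hs1 := AI_s hρ hpos hρh
      rw [← hs'] at hs1
      have e : ((m:ℝ)^2 * (a * Q m) - a * Q m * s) / k - a * (((m:ℝ)^2 - ρ^2) * Q m / k)
          = -(a * Q m * (s - ρ ^ 2) / k) := by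
        field_simp; ring
      rw [e, abs_neg, abs_div, abs_of_pos hk0, div_le_iff₀ hk0, abs_mul]
      have := mul_le_mul_of_nonneg_left hs1 (abs_nonneg (a * Q m))
      nlinarith
    · filter_upwards [hB, eventually_gt_atTop (0:ℝ)] with x hx hx0
      have hxr : 0 < x ^ ρ := Real.rpow_pos_of_pos hx0 ρ
      have h1 := hs m hm x hx0 h hpos hle1
      have hU := hU0 1 le_rfl x hx0
      have e : U (m+1) x / x ^ ρ - ((m:ℝ)^2 * (U m x / x ^ ρ)
        - (U m (x * Real.exp h) + U m (x * Real.exp (-h)) - 2 * U m x) / h ^ 2 / x ^ ρ) / k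
        = ((U m (x * Real.exp h) + U m (x * Real.exp (-h)) - 2 * U m x) / h^2
        - ((m:ℝ)^2 * U m x - k * U (m+1) x)) / (k * x ^ ρ) := by
        have hk1 := hk0.ne'
        have hx1 := hxr.ne'
        field_simp
        ring
      rw [e, abs_div, abs_of_pos (by positivity : 0 < k * x ^ ρ), div_le_iff₀ (by positivity)]
      calc |(U m (x * Real.exp h) + U m (x * Real.exp (-h)) - 2 * U m x) / h^2
        - ((m:ℝ)^2 * U m x - k * U (m+1) x)| ≤ C m * h * U 1 x := h1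
        _ ≤ |C m| * h * U 1 x :=
            mul_le_mul_of_nonneg_right (mul_le_mul_of_nonneg_right (le_abs_self _) hpos.le) hU
        _ ≤ |C m| * h * (B * x ^ ρ) := by
            refine mul_le_mul_of_nonneg_left ?_ (by positivity)
            rw [div_le_iff₀ hxr] at hx
            exact hx
        _ = (|C m| * B * h) * x ^ ρ := by ring
        _ ≤ (ε * k) * x ^ ρ := by
            refine mul_le_mul_of_nonneg_right ?_ hxr.le
            nlinarith
        _ = ε * (k * x ^ ρ) := by ring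



end Pool.Agent.Helper477.RR
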