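import Mathlib

set_option autoImplicit false

open Polynomial Finset

namespace Pool.Agent.Helper477.RR

/-- The polynomial with the coefficients `b 0, …, b d`. -/
noncomputable def poly (d : ℕ) (b : ℕ → ℝ) : ℝ[X] := ∑ j ∈ range (d+1), C (b j) * X ^ j

theorem poly_coeff (d : ℕ) (b : ℕ → ℝ) (k : ℕ) :
    (poly d b).coeff k = if k ≤ d then b k else 0 := by
  unfold poly
  rw [finsetSum_coeff]
  simp only [coeff_C_mul, coeff_X_pow, mul_ite, mul_one, mul_zero]
  rw [Finset.sum_ite_eq]
  simp [Nat.lt_succ_iff]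

theorem poly_eval (d : ℕ) (b : ℕ → ℝ) (x : ℝ) :
    (poly d b).eval x = ∑ j ∈ range (d+1), b j * x ^ j := by
  unfold poly
  simp [eval_finsetSum]

theorem poly_map_eval (d : ℕ) (b : ℕ → ℝ) (z : ℂ) :
    ((poly d b).map (algebraMap ℝ ℂ)).eval z = ∑ j ∈ range (d+1), (b j : ℂ) * z ^ j := by
  unfold poly
  simp [eval_finsetSum, Polynomial.map_sum]

theorem poly_natDegree (d : ℕ) (b : ℕ → ℝ) (hb : b d ≠ 0) : (poly d b).natDegree = d := by
  apply le_antisymm
  · rw [natDegree_le_iff_coeff_eq_zero]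
    intro k hk
    rw [poly_coeff, if_neg (by omega)]
  · apply le_natDegree_of_ne_zero
    rw [poly_coeff, if_pos le_rfl]
    exact hb

/-- A real-rooted polynomial with positive coefficients factors as `b_d ∏ (X + t)`, `t > 0`. -/
theorem exists_roots {d : ℕ} {b : ℕ → ℝ} (hb : ∀ j ≤ d, 0 < b j)
    (h : ∀ z : ℂ, ∑ j ∈ range (d+1), (b j : ℂ) * z ^ j = 0 → z.im = 0) :
    ∃ s : Multiset ℝ, (∀ t ∈ s, 0 < t) ∧
      poly d b = C (b d) * (s.map (fun t => X + C t)).prod := by
  have hbd : b d ≠ 0 := (hb d le_rfl).ne'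
  set q : ℂ[X] := (poly d b).map (algebraMap ℝ ℂ) with hq
  have hq0 : q ≠ 0 := by
    intro h0
    have : (poly d b) = 0 := by
      apply (Polynomial.map_eq_zero (algebraMap ℝ ℂ)).1 h0
    have h1 := poly_coeff d b d
    rw [this] at h1
    simp at h1
    exact hbd h1.symm
  have hroot : ∀ r ∈ q.roots, r.im = 0 := by
    intro r hr
    rw [mem_roots hq0, IsRoot.def, hq, poly_map_eval] at hr
    exact h r hr
  have hre : ∀ r ∈ q.roots, ((r.re : ℝ) : ℂ) = r := by
    intro r hr
    apply Complex.ext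
    · simp
    · simp [hroot r hr]
  refine ⟨q.roots.map (fun r => -r.re), ?_, ?_⟩
  · intro t ht
    rw [Multiset.mem_map] at ht
    obtain ⟨r, hr, rfl⟩ := ht
    by_contra hneg
    push Not at hneg
    have hr0 : 0 ≤ r.re := by linarith
    have hr2 := hr
    rw [mem_roots hq0, IsRoot.def, hq, poly_map_eval] at hr2
    rw [← hre r hr] at hr2
    have h3 : (∑ j ∈ range (d+1), b j * r.re ^ j) = 0 := by
      have : ((∑ j ∈ range (d+1), b j * r.re ^ j : ℝ) : ℂ) = 0 := by
        push_cast
        exact hr2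
      exact_mod_cast this
    have h4 : 0 < ∑ j ∈ range (d+1), b j * r.re ^ j := by
      apply Finset.sum_pos'
      · intro j hj
        have := hb j (by have := Finset.mem_range.1 hj; omega)
        positivity
      · refine ⟨0, by simp, ?_⟩
        simpa using hb 0 (Nat.zero_le _)
    linarith
  · apply Polynomial.map_injective (algebraMap ℝ ℂ) (algebraMap ℝ ℂ).injective
    have hs := (IsAlgClosed.splits q).eq_prod_roots
    have hlc : q.leadingCoeff = ((b d : ℝ) : ℂ) := by
      rw [hq, leadingCoeff_map, leadingCoeff, poly_natDegree d b hbd, poly_coeff, if_pos le_rfl]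
      rfl
    refine hs.trans ?_
    rw [hlc, Polynomial.map_mul, Polynomial.map_C, Polynomial.map_multiset_prod,
      Multiset.map_map, Multiset.map_map]
    congr 2
    apply Multiset.map_congr rfl
    intro r hr
    simp only [Function.comp, Polynomial.map_add, Polynomial.map_X, Polynomial.map_C]
    have : (algebraMap ℝ ℂ) (-r.re) = -r := by
      rw [map_neg]
      simp [hre r hr]
    rw [this, C_neg, sub_eq_add_neg]

/-- Strong log-concavity. -/
def LC (c : ℕ → ℝ) : Prop := ∀ i j, i ≤ j → c i * c (j+1) ≤ c (i+1) * c j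

theorem coeff_nonneg (s : Multiset ℝ) (hs : ∀ t ∈ s, 0 < t) :
    ∀ k, 0 ≤ ((s.map (fun t => X + C t)).prod : ℝ[X]).coeff k := by
  induction s using Multiset.induction with
  | empty => intro k; simp [coeff_one]; split_ifs <;> norm_num
  | cons a s ih =>
    intro k
    have ih' := ih (fun t ht => hs t (Multiset.mem_cons_of_mem ht))
    have ha : 0 < a := hs a (Multiset.mem_cons_self a s)
    rw [Multiset.map_cons, Multiset.prod_cons, add_mul]
    rcases k with _ | k
    · simp only [coeff_add, mul_coeff_zero, coeff_X_zero, zero_mul, coeff_C_zero, zero_add]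
      exact mul_nonneg ha.le (ih' 0)
    · simp only [coeff_add, coeff_X_mul, coeff_C_mul]
      have := ih' k
      have := ih' (k+1)
      positivity

theorem lc_prod (s : Multiset ℝ) (hs : ∀ t ∈ s, 0 < t) :
    LC (fun k => ((s.map (fun t => X + C t)).prod : ℝ[X]).coeff k) := by
  induction s using Multiset.induction with
  | empty =>
    intro i j hij
    simp only [Multiset.map_zero, Multiset.prod_zero, coeff_one]
    simp
  | cons a s ih =>
    have hs' : ∀ t ∈ s, 0 < t := fun t ht => hs t (Multiset.mem_cons_of_mem ht)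
    have ih' := ih hs'
    have hc := coeff_nonneg s hs'
    have ha : 0 < a := hs a (Multiset.mem_cons_self a s)
    set p := ((s.map (fun t => X + C t)).prod : ℝ[X]) with hp
    have h0 : ((((a ::ₘ s).map (fun t => X + C t)).prod : ℝ[X])).coeff 0 = a * p.coeff 0 := by
      rw [Multiset.map_cons, Multiset.prod_cons, add_mul]
      simp [← hp]
    have h1 : ∀ k, ((((a ::ₘ s).map (fun t => X + C t)).prod : ℝ[X])).coeff (k+1)
        = p.coeff k + a * p.coeff (k+1) := by
      intro k
      rw [Multiset.map_cons, Multiset.prod_cons, add_mul]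
      simp only [coeff_add, coeff_X_mul, coeff_C_mul, ← hp]
    intro i j hij
    beta_reduce
    rcases i with _ | i
    · rcases j with _ | j
      · exact le_of_eq (mul_comm _ _)
      · rw [h0, h1, h1, h1]
        have e1 := ih' 0 (j+1) (Nat.zero_le _)
        have e2 := hc 0
        have e3 := hc j
        have e4 := hc (j+1)
        have e5 := hc (j+2)
        have e6 := hc 1
        have e7 := ih' 0 j (Nat.zero_le _)
        simp only [zero_add] at *
        have k1 : 0 ≤ p.coeff 0 * p.coeff j := mul_nonneg e2 e3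
        have k2 : 0 ≤ a * (p.coeff 1 * p.coeff j) := mul_nonneg ha.le (mul_nonneg e6 e3)
        have k3 : a * a * (p.coeff 0 * p.coeff (j+1+1)) ≤ a * a * (p.coeff 1 * p.coeff (j+1)) :=
          mul_le_mul_of_nonneg_left e1 (by positivity)
        nlinarith [k1, k2, k3]
    · rcases j with _ | j
      · omega
      · rw [h1, h1, h1, h1]
        have hij' : i ≤ j := by omega
        have e1 := ih' i j hij'
        have e3 := ih' (i+1) (j+1) hij
        simp only at e1 e3
        have e2 : p.coeff i * p.coeff (j+1+1) ≤ p.coeff (i+1+1) * p.coeff j := by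
          rcases Nat.lt_or_ge i j with hlt | hge
          · have f1 := ih' i (j+1) (by omega)
            have f2 := ih' (i+1) j (by omega)
            simp only at f1 f2
            linarith
          · have : i = j := by omega
            subst this
            exact le_of_eq (mul_comm _ _)
        have k2 : a * (p.coeff i * p.coeff (j+1+1)) ≤ a * (p.coeff (i+1+1) * p.coeff j) :=
          mul_le_mul_of_nonneg_left e2 ha.le
        have k3 : a * a * (p.coeff (i+1) * p.coeff (j+1+1))
            ≤ a * a * (p.coeff (i+1+1) * p.coeff (j+1)) :=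
          mul_le_mul_of_nonneg_left e3 (by positivity)
        nlinarith [e1, k2, k3]

/-- Coefficients of a real-rooted polynomial with positive coefficients are log-concave. -/
theorem lc_of_realRooted {d : ℕ} {b : ℕ → ℝ} (hb : ∀ j ≤ d, 0 < b j)
    (h : ∀ z : ℂ, ∑ j ∈ range (d+1), (b j : ℂ) * z ^ j = 0 → z.im = 0)
    {i j : ℕ} (hij : i ≤ j) (hj : j + 1 ≤ d) :
    b i * b (j+1) ≤ b (i+1) * b j := by
  obtain ⟨s, hs, he⟩ := exists_roots hb h
  have hl := lc_prod s hs i j hij
  have hc : ∀ k ≤ d, b k = b d * ((s.map (fun t => X + C t)).prod : ℝ[X]).coeff k := by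
    intro k hk
    have := poly_coeff d b k
    rw [if_pos hk, he, coeff_C_mul] at this
    exact this.symm
  rw [hc i (by omega), hc (j+1) hj, hc (i+1) (by omega), hc j (by omega)]
  have hd := hb d le_rfl
  have := mul_le_mul_of_nonneg_left hl (by positivity : 0 ≤ b d * b d)
  nlinarith [this]

/-- The key inequality, for one linear factor. -/
theorem key_factor {τ w w₀ t : ℝ} (hτ : 0 < τ) (hw : 0 < w) (hw0 : 0 < w₀) (ht : 0 < t) (M : ℕ)
    (hM : w + 1/w - 2 ≤ M * (w₀ + 1/w₀ - 2)) :
    (τ*w + t) * (τ/w + t) * ((τ + t)^2)^M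
      ≤ (τ + t)^2 * ((τ*w₀ + t) * (τ/w₀ + t))^M := by
  have hδ : 0 ≤ w₀ + 1/w₀ - 2 := by
    have : w₀ + 1/w₀ - 2 = (w₀-1)^2/w₀ := by field_simp; ring
    rw [this]; positivity
  have e1 : (τ*w + t) * (τ/w + t) = (τ+t)^2 * (1 + (τ*t/(τ+t)^2) * (w + 1/w - 2)) := by
    have : (τ + t) ≠ 0 := by positivity
    field_simp
    ring
  have e2 : (τ*w₀ + t) * (τ/w₀ + t) = (τ+t)^2 * (1 + (τ*t/(τ+t)^2) * (w₀ + 1/w₀ - 2)) := by
    have : (τ + t) ≠ 0 := by positivity
    field_simp
    ring
  rw [e1, e2, mul_pow ((τ+t)^2)]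
  set y := τ*t/(τ+t)^2 with hy
  have hy0 : 0 ≤ y := by positivity
  have hb : 1 + (M:ℝ) * (y * (w₀ + 1/w₀ - 2)) ≤ (1 + y * (w₀ + 1/w₀ - 2))^M := by
    apply one_add_mul_le_pow
    have : 0 ≤ y * (w₀ + 1/w₀ - 2) := mul_nonneg hy0 hδ
    linarith
  have hb2 : 1 + y * (w + 1/w - 2) ≤ (1 + y * (w₀ + 1/w₀ - 2))^M := by
    refine le_trans ?_ hb
    have := mul_le_mul_of_nonneg_left hM hy0
    nlinarith [this]
  have hpos : 0 ≤ (τ+t)^2 * ((τ+t)^2)^M := by positivity
  calc (τ+t)^2 * (1 + y * (w + 1/w - 2)) * ((τ+t)^2)^M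
      = ((τ+t)^2 * ((τ+t)^2)^M) * (1 + y * (w + 1/w - 2)) := by ring
    _ ≤ ((τ+t)^2 * ((τ+t)^2)^M) * (1 + y * (w₀ + 1/w₀ - 2))^M :=
        mul_le_mul_of_nonneg_left hb2 hpos
    _ = _ := by ring

theorem key_prod {τ w w₀ : ℝ} (hτ : 0 < τ) (hw : 0 < w) (hw0 : 0 < w₀) (M : ℕ)
    (hM : w + 1/w - 2 ≤ M * (w₀ + 1/w₀ - 2)) (s : Multiset ℝ) (hs : ∀ t ∈ s, 0 < t) :
    (s.map (fun t => τ*w + t)).prod * (s.map (fun t => τ/w + t)).prod
        * (((s.map (fun t => τ + t)).prod)^2)^M
      ≤ ((s.map (fun t => τ + t)).prod)^2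
        * ((s.map (fun t => τ*w₀ + t)).prod * (s.map (fun t => τ/w₀ + t)).prod)^M := by
  induction s using Multiset.induction with
  | empty => simp
  | cons a s ih =>
    have hs' : ∀ t ∈ s, 0 < t := fun t ht => hs t (Multiset.mem_cons_of_mem ht)
    have ha : 0 < a := hs a (Multiset.mem_cons_self a s)
    have ih' := ih hs'
    have hf := key_factor hτ hw hw0 ha M hM
    simp only [Multiset.map_cons, Multiset.prod_cons]
    have hp : ∀ x : ℝ, 0 < x → 0 ≤ (s.map (fun t => x + t)).prod := by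
      intro x hx
      apply Multiset.prod_nonneg
      intro y hy
      rw [Multiset.mem_map] at hy
      obtain ⟨t, ht, rfl⟩ := hy
      have := hs' t ht
      positivity
    have p1 := hp (τ*w) (by positivity)
    have p2 := hp (τ/w) (by positivity)
    have p3 := hp τ hτ
    set A := (s.map (fun t => τ*w + t)).prod
    set B := (s.map (fun t => τ/w + t)).prod
    set D := (s.map (fun t => τ + t)).prod
    set E := (s.map (fun t => τ*w₀ + t)).prod
    set G := (s.map (fun t => τ/w₀ + t)).prod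
    have hmul := mul_le_mul hf ih' (by positivity) (by positivity)
    calc (τ*w + a) * A * ((τ/w + a) * B) * (((τ + a) * D)^2)^M
        = ((τ*w + a) * (τ/w + a) * ((τ + a)^2)^M) * (A * B * (D^2)^M) := by
          rw [mul_pow (τ+a) D, mul_pow ((τ+a)^2) (D^2)]; ring
      _ ≤ ((τ + a)^2 * ((τ*w₀ + a) * (τ/w₀ + a))^M) * (D^2 * (E * G)^M) := hmul
      _ = _ := by
          rw [show (τ*w₀ + a) * E * ((τ/w₀ + a) * G)
            = ((τ*w₀ + a) * (τ/w₀ + a)) * (E * G) by ring, mul_pow ((τ*w₀ + a) * (τ/w₀ + a))]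
          ring

theorem eval_prod (s : Multiset ℝ) (c x : ℝ) :
    (C c * ((s.map (fun t => X + C t)).prod : ℝ[X])).eval x
      = c * (s.map (fun t => x + t)).prod := by
  rw [eval_mul, eval_C, eval_multiset_prod, Multiset.map_map]
  congr 2
  apply Multiset.map_congr rfl
  intro t _
  simp

/-- The key inequality for real-rooted polynomials with positive coefficients. -/
theorem key {d : ℕ} {b : ℕ → ℝ} (hb : ∀ j ≤ d, 0 < b j)
    (h : ∀ z : ℂ, ∑ j ∈ range (d+1), (b j : ℂ) * z ^ j = 0 → z.im = 0)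
    {τ w w₀ : ℝ} (hτ : 0 < τ) (hw : 0 < w) (hw0 : 0 < w₀) (M : ℕ)
    (hM : w + 1/w - 2 ≤ M * (w₀ + 1/w₀ - 2)) :
    (poly d b).eval (τ*w) * (poly d b).eval (τ/w) * (((poly d b).eval τ)^2)^M
      ≤ ((poly d b).eval τ)^2 * ((poly d b).eval (τ*w₀) * (poly d b).eval (τ/w₀))^M := by
  obtain ⟨s, hs, he⟩ := exists_roots hb h
  have hk := key_prod hτ hw hw0 M hM s hs
  rw [he]
  simp only [eval_prod]
  have hd := hb d le_rfl
  set A := (s.map (fun t => τ*w + t)).prod
  set B := (s.map (fun t => τ/w + t)).prod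
  set D := (s.map (fun t => τ + t)).prod
  set E := (s.map (fun t => τ*w₀ + t)).prod
  set G := (s.map (fun t => τ/w₀ + t)).prod
  have := mul_le_mul_of_nonneg_left hk (by positivity : 0 ≤ (b d)^2 * ((b d)^2)^M)
  calc b d * A * (b d * B) * ((b d * D)^2)^M
      = ((b d)^2 * ((b d)^2)^M) * (A * B * (D^2)^M) := by
        rw [mul_pow (b d) D, mul_pow ((b d)^2) (D^2)]; ring
    _ ≤ ((b d)^2 * ((b d)^2)^M) * (D^2 * (E * G)^M) := this
    _ = _ := by
        rw [show b d * E * (b d * G) = (b d)^2 * (E * G) by ring, mul_pow ((b d)^2)]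
        ring

end Pool.Agent.Helper477.RR
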