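import Mathlib
import Pool.Agent.Helper477.RR.Core

set_option autoImplicit false
set_option linter.unusedSectionVars false

open Polynomial Finset

namespace Pool.Agent.Helper477.RR

theorem geom_bound {κ : ℝ} (h0 : 0 < κ) (h1 : κ < 1) (N : ℕ) :
    ∑ i ∈ range N, κ ^ i ≤ 1 / (1 - κ) := by
  rw [geom_sum_eq h1.ne]
  have : 0 < 1 - κ := by linarith
  rw [show (κ ^ N - 1) / (κ - 1) = (1 - κ ^ N) / (1 - κ) by
    rw [← neg_div_neg_eq]; ring_nf]
  apply div_le_div_of_nonneg_right _ this.le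
  have : 0 < κ ^ N := by positivity
  linarith

section
variable {d : ℕ} {b : ℕ → ℝ} (hb : ∀ j ≤ d, 0 < b j)
    (h : ∀ z : ℂ, ∑ j ∈ range (d+1), (b j : ℂ) * z ^ j = 0 → z.im = 0)
    {m : ℕ} (hm1 : 1 ≤ m) (hmd : m + 1 ≤ d) {τ κ : ℝ} (hτ : 0 < τ) (h0 : 0 < κ) (h1 : κ < 1)
    (hl : b (m-1) ≤ κ^2*τ*b m) (hr : τ*b (m+1) ≤ κ^2 * b m)

include hb h hm1 hmd hτ h0 h1 hl hr

theorem decay_right {v : ℝ} (hv0 : 0 < v) (hv : κ * v ≤ 1) (i : ℕ) (hi : m + i ≤ d) :
    b (m+i) * (τ*v)^i ≤ κ^i * b m := by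
  induction i with
  | zero => simp
  | succ i ih =>
    have ih' := ih (by omega)
    have hlc := lc_of_realRooted hb h (i := m) (j := m+i) (by omega) (by omega)
    have hbm := hb m (by omega)
    have hbi := hb (m+i) (by omega)
    have hb1 := hb (m+1) (by omega)
    have e1 : b (m+1) * (τ*v) ≤ κ * b m := by
      have := mul_le_mul_of_nonneg_right hr hv0.le
      have h3 : κ^2 * b m * v ≤ κ * b m := by
        have := mul_le_mul_of_nonneg_left hv (by positivity : 0 ≤ κ * b m)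
        nlinarith [this]
      linarith [this, h3, mul_comm τ (b (m+1))]
    have e2 : b m * (b (m+(i+1)) * (τ*v)^(i+1)) ≤ b m * (κ^(i+1) * b m) := by
      calc b m * (b (m+(i+1)) * (τ*v)^(i+1)) = (b m * b (m+i+1)) * (τ*v)^(i+1) := by
            rw [← add_assoc]; ring
        _ ≤ (b (m+1) * b (m+i)) * (τ*v)^(i+1) := mul_le_mul_of_nonneg_right hlc (by positivity)
        _ = (b (m+1) * (τ*v)) * (b (m+i) * (τ*v)^i) := by ring
        _ ≤ (κ * b m) * (κ^i * b m) := mul_le_mul e1 ih' (by positivity) (by positivity)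
        _ = b m * (κ^(i+1) * b m) := by ring
    exact le_of_mul_le_mul_left e2 hbm

theorem decay_left {v : ℝ} (hv0 : 0 < v) (hv : κ ≤ v) (i : ℕ) (hi : i ≤ m) :
    b (m-i) ≤ κ^i * b m * (τ*v)^i := by
  induction i with
  | zero => simp
  | succ i ih =>
    have ih' := ih (by omega)
    have hlc := lc_of_realRooted hb h (i := m-(i+1)) (j := m-1) (by omega) (by omega)
    have x1 : m - 1 + 1 = m := by omega
    have x2 : m - (i+1) + 1 = m - i := by omega
    rw [x1, x2] at hlc
    have hbm := hb m (by omega)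
    have hbi := hb (m-i) (by omega)
    have hb1 := hb (m-1) (by omega)
    have e1 : b (m-1) ≤ κ * b m * (τ*v) := by
      refine le_trans hl ?_
      have := mul_le_mul_of_nonneg_left hv (by positivity : 0 ≤ κ * b m * τ)
      nlinarith [this]
    have e2 : b m * b (m-(i+1)) ≤ b m * (κ^(i+1) * b m * (τ*v)^(i+1)) := by
      calc b m * b (m-(i+1)) = b (m-(i+1)) * b m := mul_comm _ _
        _ ≤ b (m-i) * b (m-1) := hlc
        _ ≤ (κ^i * b m * (τ*v)^i) * (κ * b m * (τ*v)) :=
            mul_le_mul ih' e1 (by positivity) (by positivity)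
        _ = _ := by ring
    exact le_of_mul_le_mul_left e2 hbm

theorem eval_le {v : ℝ} (hv0 : 0 < v) (hv : κ * v ≤ 1) (hv' : κ ≤ v) :
    (poly d b).eval (τ*v) ≤ 2/(1-κ) * (b m * (τ*v)^m) := by
  rw [poly_eval]
  have hd : d + 1 = m + (d + 1 - m) := by omega
  rw [hd, Finset.sum_range_add, ← Finset.sum_range_reflect]
  have hbm := hb m (by omega)
  have hx : 0 < b m * (τ*v)^m := by positivity
  have hone : 0 < 1 - κ := by linarith
  have s1 : ∑ j ∈ range m, b (m - 1 - j) * (τ*v) ^ (m - 1 - j)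
      ≤ 1/(1-κ) * (b m * (τ*v)^m) := by
    refine le_trans ?_ (mul_le_mul_of_nonneg_right (geom_bound h0 h1 m) hx.le)
    rw [Finset.sum_mul]
    apply Finset.sum_le_sum
    intro j hj
    have hj' := Finset.mem_range.1 hj
    have := decay_left hb h hm1 hmd hτ h0 h1 hl hr hv0 hv' (j+1) (by omega)
    have x1 : m - (j+1) = m - 1 - j := by omega
    rw [x1] at this
    calc b (m - 1 - j) * (τ*v) ^ (m - 1 - j)
        ≤ (κ^(j+1) * b m * (τ*v)^(j+1)) * (τ*v) ^ (m - 1 - j) :=
          mul_le_mul_of_nonneg_right this (by positivity)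
      _ = κ^(j+1) * (b m * (τ*v)^m) := by
          have : (τ*v)^m = (τ*v)^(j+1) * (τ*v) ^ (m - 1 - j) := by
            rw [← pow_add]; congr 1; omega
          rw [this]; ring
      _ ≤ κ^j * (b m * (τ*v)^m) := by
          apply mul_le_mul_of_nonneg_right _ hx.le
          exact pow_le_pow_of_le_one h0.le h1.le (by omega)
  have s2 : ∑ i ∈ range (d + 1 - m), b (m + i) * (τ*v) ^ (m + i)
      ≤ 1/(1-κ) * (b m * (τ*v)^m) := by
    refine le_trans ?_ (mul_le_mul_of_nonneg_right (geom_bound h0 h1 (d+1-m)) hx.le)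
    rw [Finset.sum_mul]
    apply Finset.sum_le_sum
    intro i hi
    have hi' := Finset.mem_range.1 hi
    have := decay_right hb h hm1 hmd hτ h0 h1 hl hr hv0 hv i (by omega)
    calc b (m + i) * (τ*v) ^ (m + i) = (b (m+i) * (τ*v)^i) * (τ*v)^m := by
          rw [pow_add]; ring
      _ ≤ (κ^i * b m) * (τ*v)^m := mul_le_mul_of_nonneg_right this (by positivity)
      _ = _ := by ring
  calc _ ≤ 1/(1-κ) * (b m * (τ*v)^m) + 1/(1-κ) * (b m * (τ*v)^m) := add_le_add s1 s2
    _ = _ := by ring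

theorem term_le {x : ℝ} (hx : 0 < x) {j : ℕ} (hj : j ≤ d) :
    b j * x ^ j ≤ (poly d b).eval x := by
  rw [poly_eval]
  apply Finset.single_le_sum (f := fun j => b j * x ^ j)
  · intro i hi
    have := hb i (by have := Finset.mem_range.1 hi; omega)
    positivity
  · simp; omega

/-- The window estimate: strict log-concavity at `m` forces fast decay to the right. -/
theorem window_bound {w : ℝ} (hw : 0 < w) (M : ℕ)
    (hM : w + 1/w - 2 ≤ M * (1/κ + 1/(1/κ) - 2)) {k : ℕ} (hk : m + k ≤ d)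
    (hge : b m ≤ b (m+k)) :
    (τ*w)^k ≤ (2/(1-κ))^(2*M+2) := by
  have hK := key hb h hτ hw (by positivity : 0 < 1/κ) M hM
  have hbm := hb m (by omega)
  have hbk := hb (m+k) hk
  have hone : 0 < 1 - κ := by linarith
  set Cc := 2/(1-κ) with hC
  have hCpos : 0 < Cc := by positivity
  have t1 := term_le hb h hm1 hmd hτ h0 h1 hl hr (by positivity : 0 < τ*w) hk
  have t2 := term_le hb h hm1 hmd hτ h0 h1 hl hr (by positivity : 0 < τ/w) (j := m) (by omega)
  have t3 := term_le hb h hm1 hmd hτ h0 h1 hl hr hτ (j := m) (by omega)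
  have u1 := eval_le hb h hm1 hmd hτ h0 h1 hl hr (v := 1) one_pos (by linarith) h1.le
  have u2 := eval_le hb h hm1 hmd hτ h0 h1 hl hr (v := 1/κ) (by positivity)
    (by rw [mul_one_div_cancel h0.ne']) (by rw [le_div_iff₀ h0]; nlinarith)
  have u3 := eval_le hb h hm1 hmd hτ h0 h1 hl hr (v := κ) h0 (by nlinarith) le_rfl
  rw [mul_one] at u1
  rw [show τ/(1/κ) = τ*κ by field_simp] at hK
  set B := b m * τ^m with hB
  have hBpos : 0 < B := by positivity
  have l1 : B^2 * (τ*w)^k ≤ (poly d b).eval (τ*w) * (poly d b).eval (τ/w) := by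
    have : B^2 * (τ*w)^k = (b m * (τ*w)^(m+k)) * (b m * (τ/w)^m) := by
      rw [hB, mul_pow, mul_pow, div_pow, mul_pow, pow_add, pow_add]
      field_simp
    rw [this]
    apply mul_le_mul _ t2 (by positivity)
    · exact le_trans (by positivity) t1
    · exact le_trans (mul_le_mul_of_nonneg_right hge (by positivity)) t1
  have l2 : B^2 ≤ ((poly d b).eval τ)^2 := pow_le_pow_left₀ hBpos.le t3 2
  have l3 : ((poly d b).eval τ)^2 ≤ (Cc * B)^2 :=
    pow_le_pow_left₀ (le_trans hBpos.le t3) u1 2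
  have l4 : (poly d b).eval (τ*(1/κ)) * (poly d b).eval (τ*κ) ≤ (Cc*B)^2 := by
    have : (Cc*B)^2 = (Cc * (b m * (τ*(1/κ))^m)) * (Cc * (b m * (τ*κ)^m)) := by
      rw [hB, mul_pow τ, mul_pow τ, div_pow, one_pow]
      field_simp
    rw [this]
    apply mul_le_mul u2 u3 _ (by positivity)
    exact le_trans (by positivity) (term_le hb h hm1 hmd hτ h0 h1 hl hr (by positivity : 0 < τ*κ)
      (j := m) (by omega))
  have p1 : 0 ≤ (poly d b).eval (τ*(1/κ)) * (poly d b).eval (τ*κ) := by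
    apply mul_nonneg
    · exact le_trans (by positivity) (term_le hb h hm1 hmd hτ h0 h1 hl hr
        (by positivity : 0 < τ*(1/κ)) (j := m) (by omega))
    · exact le_trans (by positivity) (term_le hb h hm1 hmd hτ h0 h1 hl hr
        (by positivity : 0 < τ*κ) (j := m) (by omega))
  have f1 : (B^2 * (τ*w)^k) * (B^2)^M ≤ (Cc*B)^2 * ((Cc*B)^2)^M := by
    calc (B^2 * (τ*w)^k) * (B^2)^M
        ≤ ((poly d b).eval (τ*w) * (poly d b).eval (τ/w)) * (((poly d b).eval τ)^2)^M := by
          apply mul_le_mul l1 (pow_le_pow_left₀ (by positivity) l2 M) (by positivity)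
          exact le_trans (by positivity) l1
      _ ≤ _ := hK
      _ ≤ (Cc*B)^2 * ((Cc*B)^2)^M := by
          apply mul_le_mul l3 (pow_le_pow_left₀ p1 l4 M) (by positivity) (by positivity)
  have f2 : (B^2)^(M+1) * (τ*w)^k ≤ (B^2)^(M+1) * Cc^(2*M+2) := by
    calc (B^2)^(M+1) * (τ*w)^k = (B^2 * (τ*w)^k) * (B^2)^M := by ring
      _ ≤ (Cc*B)^2 * ((Cc*B)^2)^M := f1
      _ = _ := by
        rw [← pow_succ', mul_pow Cc B, mul_pow]
        rw [show 2*M+2 = 2*(M+1) by ring, pow_mul Cc]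
        ring
  exact le_of_mul_le_mul_left f2 (by positivity)

end

end Pool.Agent.Helper477.RR
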