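import Mathlib
import Pool.Agent.Helper477.RR.Est

set_option autoImplicit false

open Polynomial Finset

namespace Pool.Agent.Helper477.RR

/-- `(a_0,…,a_d)` is the coefficient vector of a polynomial with nonnegative coefficients and only
real zeros. -/
def InP (d : ℕ) (a : ℕ → ℝ) : Prop :=
  (∀ j ≤ d, 0 ≤ a j) ∧ ∀ z : ℂ, ∑ j ∈ range (d+1), (a j : ℂ) * z ^ j = 0 → z.im = 0

structure Pres (F : ℝ → ℝ) : Prop where
  nonneg : ∀ x, 0 ≤ x → 0 ≤ F x
  pres : ∀ d a, InP d a → InP d (fun j => F (a j))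

theorem Pres.pos {F : ℝ → ℝ} (hF : Pres F) {x : ℝ} (hx : 0 < x) : 0 < F x := by
  have h1 : InP 0 (fun _ => x) := by
    refine ⟨fun _ _ => hx.le, ?_⟩
    intro z hz
    simp at hz
    exact absurd hz hx.ne'
  have h2 := (hF.pres 0 _ h1).2 Complex.I
  rcases (hF.nonneg x hx.le).lt_or_eq with h | h
  · exact h
  · exfalso
    have := h2 (by simp [← h])
    simp at this

theorem Pres.rr {F : ℝ → ℝ} (hF : Pres F) {d : ℕ} {a : ℕ → ℝ} (ha : ∀ j ≤ d, 0 < a j)
    (h : ∀ z : ℂ, ∑ j ∈ range (d+1), (a j : ℂ) * z ^ j = 0 → z.im = 0) :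
    (∀ j ≤ d, 0 < F (a j)) ∧
      ∀ z : ℂ, ∑ j ∈ range (d+1), (F (a j) : ℂ) * z ^ j = 0 → z.im = 0 :=
  ⟨fun j hj => hF.pos (ha j hj), (hF.pres d a ⟨fun j hj => (ha j hj).le, h⟩).2⟩

/-- the palindromic test polynomial -/
noncomputable def tp (n : ℕ) (p : ℝ) : ℝ[X] := (1+X)^(2*n) * (X^2 + C p * X + 1)

theorem tp_coeff (n : ℕ) (p : ℝ) (k : ℕ) :
    (tp n p).coeff k = (if 2 ≤ k then (((2*n).choose (k-2) : ℕ) : ℝ) else 0)
      + p * (if 1 ≤ k then (((2*n).choose (k-1) : ℕ) : ℝ) else 0) + ((2*n).choose k : ℕ) := by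
  have : tp n p = (1+X)^(2*n) * X^2 + C p * ((1+X)^(2*n) * X^1) + (1+X)^(2*n) := by
    unfold tp; ring
  rw [this, coeff_add, coeff_add, coeff_C_mul, coeff_mul_X_pow', coeff_mul_X_pow',
    coeff_one_add_X_pow, coeff_one_add_X_pow, coeff_one_add_X_pow]

theorem tp_coeff_top (n : ℕ) (p : ℝ) (k : ℕ) (hk : 2*n+2 < k) : (tp n p).coeff k = 0 := by
  rw [tp_coeff, if_pos (by omega), if_pos (by omega), Nat.choose_eq_zero_of_lt (by omega),
    Nat.choose_eq_zero_of_lt (by omega), Nat.choose_eq_zero_of_lt (by omega)]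
  simp

theorem tp_coeff_pos (n : ℕ) (p : ℝ) (hp : 0 < p) (k : ℕ) (hk : k ≤ 2*n+2) :
    0 < (tp n p).coeff k := by
  rw [tp_coeff]
  rcases Nat.lt_or_ge (2*n) k with h | h
  · rcases Nat.lt_or_ge (2*n+1) k with h' | h'
    · have : k = 2*n+2 := by omega
      subst this
      have e : 2 * n + 2 - 2 = 2*n := by omega
      rw [if_pos (by omega), if_pos (by omega), e, Nat.choose_self]
      positivity
    · have : k = 2*n+1 := by omega
      subst this
      have e : 2 * n + 1 - 1 = 2*n := by omega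
      rw [if_pos (by omega : 1 ≤ 2*n+1), e, Nat.choose_self]
      have : (0:ℝ) ≤ (if 2 ≤ 2*n+1 then (((2*n).choose (2*n+1-2) : ℕ) : ℝ) else 0) := by
        split_ifs <;> positivity
      have h2 : (0:ℝ) ≤ (((2*n).choose (2*n+1) : ℕ) : ℝ) := by positivity
      simp only [Nat.cast_one, mul_one]
      linarith
  · have h1 : (0:ℝ) < (((2*n).choose k : ℕ) : ℝ) := by
      exact_mod_cast Nat.choose_pos h
    have h2 : (0:ℝ) ≤ (if 2 ≤ k then (((2*n).choose (k-2) : ℕ) : ℝ) else 0) := by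
      split_ifs <;> positivity
    have h3 : (0:ℝ) ≤ p * (if 1 ≤ k then (((2*n).choose (k-1) : ℕ) : ℝ) else 0) := by
      apply mul_nonneg hp.le
      split_ifs <;> positivity
    linarith

theorem tp_sum (n : ℕ) (p A : ℝ) (z : ℂ) :
    ∑ j ∈ range (2*n+2+1), ((A * (tp n p).coeff j : ℝ) : ℂ) * z ^ j
      = A * ((1+z)^(2*n) * (z^2 + p * z + 1)) := by
  have hd : (tp n p).natDegree < 2*n+2+1 := by
    rw [Nat.lt_succ_iff, natDegree_le_iff_coeff_eq_zero]
    intro k hk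
    exact tp_coeff_top n p k (by exact_mod_cast hk)
  have h1 : ((tp n p).map (algebraMap ℝ ℂ)).eval z
      = ∑ j ∈ range (2*n+2+1), ((tp n p).coeff j : ℂ) * z ^ j := by
    rw [eval_map, eval₂_eq_sum_range' _ hd]
    rfl
  have h2 : ((tp n p).map (algebraMap ℝ ℂ)).eval z = (1+z)^(2*n) * (z^2 + p * z + 1) := by
    unfold tp
    simp
  rw [← h2, h1, Finset.mul_sum]
  apply Finset.sum_congr rfl
  intro j _
  push_cast
  ring

theorem tp_real (n : ℕ) (p A : ℝ) (hA : A ≠ 0) (hp : 2 ≤ p) (z : ℂ)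
    (hz : ∑ j ∈ range (2*n+2+1), ((A * (tp n p).coeff j : ℝ) : ℂ) * z ^ j = 0) : z.im = 0 := by
  rw [tp_sum] at hz
  have hA' : (A:ℂ) ≠ 0 := by exact_mod_cast hA
  rcases mul_eq_zero.1 hz with h | h
  · exact absurd h hA'
  rcases mul_eq_zero.1 h with h | h
  · have : 1 + z = 0 := by
      by_contra hne
      exact pow_ne_zero _ hne h
    have : z = -1 := by linear_combination this
    rw [this]; simp
  · have hre := congrArg Complex.re h
    have him := congrArg Complex.im h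
    simp [pow_two] at hre him
    by_contra hne
    have h1 : 2 * z.re + p = 0 := by
      have : z.im * (2 * z.re + p) = 0 := by linarith
      rcases mul_eq_zero.1 this with h | h
      · exact absurd h hne
      · exact h
    have h2 : z.re = -p/2 := by linarith
    rw [h2] at hre
    have h3 : 0 < z.im * z.im := mul_self_pos.2 hne
    nlinarith

theorem ch1 (n : ℕ) : (if 1 ≤ n then (((2*n).choose (n-1) : ℕ) : ℝ) else 0)
    = (((2*n).choose (n+1) : ℕ) : ℝ) := by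
  rcases n with _ | k
  · simp
  · rw [if_pos (by omega)]
    congr 1
    apply Nat.choose_symm_of_eq_add
    omega

theorem ch2 (n : ℕ) : (if 2 ≤ n then (((2*n).choose (n-2) : ℕ) : ℝ) else 0)
    = (((2*n).choose (n+2) : ℕ) : ℝ) := by
  rcases n with _ | _ | k
  · simp
  · simp [Nat.choose]
  · rw [if_pos (by omega)]
    congr 1
    apply Nat.choose_symm_of_eq_add
    omega

theorem Pres.mono {F : ℝ → ℝ} (hF : Pres F) {x y : ℝ} (hx : 0 < x) (hxy : x < y) :
    F x ≤ F y := by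
  set ρ := y/x with hρ
  have hρ1 : 1 < ρ := by rw [hρ, lt_div_iff₀ hx]; linarith
  have hρ0 : 0 < ρ - 1 := by linarith
  obtain ⟨n, hn1, hn2⟩ : ∃ n : ℕ, ((n:ℝ)+2) ≤ ρ * (n+1) ∧ ρ * n < n + 1 := by
    have hpos : 0 < 1/(ρ-1) := by positivity
    have hc1 := Nat.le_ceil (1/(ρ-1))
    have hc2 := Nat.ceil_lt_add_one hpos.le
    have hc0 : 0 < ⌈1/(ρ-1)⌉₊ := Nat.ceil_pos.2 hpos
    obtain ⟨n, hn⟩ : ∃ n, ⌈1/(ρ-1)⌉₊ = n + 1 := ⟨⌈1/(ρ-1)⌉₊ - 1, by omega⟩
    rw [hn] at hc1 hc2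
    push_cast at hc1 hc2
    refine ⟨n, ?_, ?_⟩
    · rw [div_le_iff₀ hρ0] at hc1
      linarith
    · have : (n:ℝ) < 1/(ρ-1) := by linarith
      rw [lt_div_iff₀ hρ0] at this
      linarith
  set B0 : ℝ := (((2*n).choose n : ℕ) : ℝ) with hB0
  set B1 : ℝ := (((2*n).choose (n+1) : ℕ) : ℝ) with hB1
  set B2 : ℝ := (((2*n).choose (n+2) : ℕ) : ℝ) with hB2
  have hB0p : 0 < B0 := by
    rw [hB0]; exact_mod_cast Nat.choose_pos (by omega)
  have hB1p : 0 ≤ B1 := by rw [hB1]; positivity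
  have hB2p : 0 ≤ B2 := by rw [hB2]; positivity
  have r1 : B1 * (n+1) = B0 * n := by
    have := Nat.choose_succ_right_eq (2*n) n
    have e : 2*n - n = n := by omega
    rw [e] at this
    rw [hB1, hB0]
    exact_mod_cast this
  have r2 : B2 * (n+2) = B1 * (n-1) := by
    rcases n with _ | k
    · simp [hB1, hB2]
    · have := Nat.choose_succ_right_eq (2*(k+1)) (k+1+1)
      have e : 2*(k+1) - (k+1+1) = k := by omega
      rw [e] at this
      have h2 : (((2*(k+1)).choose (k+1+1+1) : ℕ) : ℝ) * ((k:ℝ)+1+1+1)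
          = (((2*(k+1)).choose (k+1+1) : ℕ) : ℝ) * (k:ℝ) := by exact_mod_cast this
      rw [hB1, hB2]
      push_cast
      have e3 : k + 1 + 2 = k+1+1+1 := by omega
      rw [e3]
      linarith
  have hn0 : (0:ℝ) ≤ n := by positivity
  have hden : 0 < B0 - ρ * B1 := by
    have : (B0 - ρ * B1) * (n+1) = B0 * ((n+1) - ρ * n) := by linear_combination (-ρ) * r1
    have h2 : 0 < (B0 - ρ * B1) * (n+1) := by
      rw [this]; apply mul_pos hB0p; linarith
    exact (mul_pos_iff_of_pos_right (by positivity)).1 h2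
  set p := (ρ*(B0+B2) - 2*B1)/(B0 - ρ*B1) with hp
  have hp2 : 2 ≤ p := by
    rw [hp, le_div_iff₀ hden]
    have k1 : (B0 + 2*B1 + B2) * ((n+1)*(n+2)) = B0 * (2*(2*n+1)*(n+1)) := by
      have : B2 * (n+2) * (n+1) = B0 * n * (n-1) := by
        rw [r2]; linear_combination ((n:ℝ)-1) * r1
      linear_combination this + 2*((n:ℝ)+2) * r1
    have k2 : (B0 + B1) * (n+1) = B0 * (2*n+1) := by linear_combination r1
    have k3 : 2*(B0+B1) ≤ ρ * (B0 + 2*B1 + B2) := by
      have hS : 0 < B0 + 2*B1 + B2 := by positivity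
      have h5 : (B0 + 2*B1 + B2) * (n+2) = 2 * (B0+B1) * (n+1) := by
        have hn1' : ((n:ℝ)+1) ≠ 0 := by positivity
        have : ((B0 + 2*B1 + B2) * (n+2)) * (n+1) = (2 * (B0+B1) * (n+1)) * (n+1) := by
          linear_combination k1 - 2*((n:ℝ)+1) * k2
        exact mul_right_cancel₀ hn1' this
      have h6 : (B0 + 2*B1 + B2) * (n+2) ≤ (B0 + 2*B1 + B2) * (ρ * (n+1)) :=
        mul_le_mul_of_nonneg_left hn1 hS.le
      have h7 : (2*(B0+B1)) * (n+1) ≤ (ρ * (B0 + 2*B1 + B2)) * (n+1) := by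
        calc (2*(B0+B1)) * (n+1) = (B0 + 2*B1 + B2) * (n+2) := by rw [h5]
          _ ≤ (B0 + 2*B1 + B2) * (ρ * (n+1)) := h6
          _ = _ := by ring
      exact le_of_mul_le_mul_right h7 (by positivity)
    linarith
  have hpe : p * B0 + 2*B1 = ρ * (B0 + p*B1 + B2) := by
    have : p * (B0 - ρ*B1) = ρ*(B0+B2) - 2*B1 := by
      rw [hp]; field_simp
    linarith
  have hp0 : 0 < p := by linarith
  have c0 : (tp n p).coeff n = B0 + p*B1 + B2 := by
    rw [tp_coeff, ch1, ch2]; ring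
  have c1 : (tp n p).coeff (n+1) = p*B0 + 2*B1 := by
    rw [tp_coeff, if_pos (by omega : 1 ≤ n+1)]
    have e1 : n + 1 - 1 = n := by omega
    have e2 : (if 2 ≤ n+1 then (((2*n).choose (n+1-2) : ℕ) : ℝ) else 0)
        = (if 1 ≤ n then (((2*n).choose (n-1) : ℕ) : ℝ) else 0) := by
      have : n + 1 - 2 = n - 1 := by omega
      rw [this]
      congr 1
      simp
    rw [e1, e2, ch1]; ring
  have c2 : (tp n p).coeff (n+2) = B0 + p*B1 + B2 := by
    rw [tp_coeff, if_pos (by omega : 1 ≤ n+2), if_pos (by omega : 2 ≤ n+2)]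
    have e1 : n + 2 - 1 = n + 1 := by omega
    have e2 : n + 2 - 2 = n := by omega
    rw [e1, e2]
  set S := B0 + p*B1 + B2 with hS
  have hSp : 0 < S := by positivity
  set A := x / S with hA
  have hAp : 0 < A := by positivity
  obtain ⟨g1, g2⟩ := hF.rr (d := 2*n+2) (a := fun j => A * (tp n p).coeff j)
    (fun j hj => mul_pos hAp (tp_coeff_pos n p hp0 j hj))
    (fun z hz => tp_real n p A hAp.ne' hp2 z hz)
  have hlc := lc_of_realRooted g1 g2 (i := n) (j := n+1) (by omega) (by omega)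
  have v0 : A * S = x := by rw [hA]; field_simp
  rw [c0, c1, show n + 1 + 1 = n + 2 by omega, c2, v0, hpe] at hlc
  have v1 : A * (ρ * S) = y := by
    rw [hA, hρ]; field_simp
  rw [v1] at hlc
  have hFx := hF.pos hx
  have hFy := hF.pos (lt_trans hx hxy)
  nlinarith

end Pool.Agent.Helper477.RR
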