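import Mathlib
import Pool.Agent.Helper477.RR.Mono

set_option autoImplicit false

open Polynomial Finset

namespace Pool.Agent.Helper477.RR

/-- the binomial test sequence `x * C(2n,j)/C(2n,n) * λ^(j-n)` -/
noncomputable def bt (n : ℕ) (x l : ℝ) (j : ℕ) : ℝ :=
  x / ((((2*n).choose n : ℕ) : ℝ) * l^n) * ((((2*n).choose j : ℕ) : ℝ) * l^j)

theorem bt_pos (n : ℕ) {x l : ℝ} (hx : 0 < x) (hl : 0 < l) {j : ℕ} (hj : j ≤ 2*n) :
    0 < bt n x l j := by
  unfold bt
  have h1 : (0:ℝ) < (((2*n).choose n : ℕ) : ℝ) := by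
    exact_mod_cast Nat.choose_pos (by omega)
  have h2 : (0:ℝ) < (((2*n).choose j : ℕ) : ℝ) := by
    exact_mod_cast Nat.choose_pos hj
  positivity

theorem bt_real (n : ℕ) {x l : ℝ} (hx : 0 < x) (hl : 0 < l) (z : ℂ)
    (hz : ∑ j ∈ range (2*n+1), ((bt n x l j : ℝ) : ℂ) * z ^ j = 0) : z.im = 0 := by
  have h1 : (0:ℝ) < (((2*n).choose n : ℕ) : ℝ) := by
    exact_mod_cast Nat.choose_pos (by omega)
  have hs : ∑ j ∈ range (2*n+1), ((bt n x l j : ℝ) : ℂ) * z ^ j
      = ((x / ((((2*n).choose n : ℕ) : ℝ) * l^n) : ℝ) : ℂ) * ((l:ℂ) * z + 1)^(2*n) := by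
    rw [add_pow, Finset.mul_sum]
    apply Finset.sum_congr rfl
    intro j _
    unfold bt
    push_cast
    rw [mul_pow, one_pow]
    ring
  rw [hs] at hz
  rcases mul_eq_zero.1 hz with h | h
  · exfalso
    have : x / ((((2*n).choose n : ℕ) : ℝ) * l^n) = 0 := by exact_mod_cast h
    have h2 : 0 < x / ((((2*n).choose n : ℕ) : ℝ) * l^n) := by positivity
    linarith
  · have h3 : (l:ℂ) * z + 1 = 0 := by
      by_contra hne
      exact pow_ne_zero _ hne h
    have := congrArg Complex.im h3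
    simp at this
    rcases this with h | h
    · exact absurd h hl.ne'
    · exact h

theorem bt_mid (n : ℕ) {x l : ℝ} (hl : 0 < l) : bt n x l n = x := by
  unfold bt
  have h1 : (0:ℝ) < (((2*n).choose n : ℕ) : ℝ) := by
    exact_mod_cast Nat.choose_pos (by omega)
  field_simp

theorem bt_succ (n : ℕ) {x l : ℝ} (hl : 0 < l) :
    bt n x l (n+1) = x * l * ((n:ℝ)/(n+1)) := by
  unfold bt
  have h1 : (0:ℝ) < (((2*n).choose n : ℕ) : ℝ) := by
    exact_mod_cast Nat.choose_pos (by omega)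
  have h2 := Nat.choose_succ_right_eq (2*n) n
  have e : 2*n - n = n := by omega
  rw [e] at h2
  have h3 : (((2*n).choose (n+1) : ℕ) : ℝ) * (n+1) = (((2*n).choose n : ℕ) : ℝ) * n := by
    exact_mod_cast h2
  have h4 : (((2*n).choose (n+1) : ℕ) : ℝ) = (((2*n).choose n : ℕ) : ℝ) * n / (n+1) := by
    rw [eq_div_iff (by positivity), h3]
  rw [h4, pow_succ]
  field_simp

theorem bt_pred (n : ℕ) {x l : ℝ} (hl : 0 < l) :
    bt (n+1) x l n = x / l * (((n+1 : ℕ):ℝ)/((n+1 : ℕ)+1)) := by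
  unfold bt
  have h1 : (0:ℝ) < (((2*(n+1)).choose (n+1) : ℕ) : ℝ) := by
    exact_mod_cast Nat.choose_pos (by omega)
  have h0 : (2*(n+1)).choose n = (2*(n+1)).choose (n+1+1) := by
    apply Nat.choose_symm_of_eq_add
    omega
  have h2 := Nat.choose_succ_right_eq (2*(n+1)) (n+1)
  have e : 2*(n+1) - (n+1) = n+1 := by omega
  rw [e, ← h0] at h2
  have h3 : (((2*(n+1)).choose n : ℕ) : ℝ) * (((n+1:ℕ):ℝ)+1)
      = (((2*(n+1)).choose (n+1) : ℕ) : ℝ) * ((n+1:ℕ):ℝ) := by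
    exact_mod_cast h2
  have h4 : (((2*(n+1)).choose n : ℕ) : ℝ)
      = (((2*(n+1)).choose (n+1) : ℕ) : ℝ) * ((n+1:ℕ):ℝ) / (((n+1:ℕ):ℝ)+1) := by
    rw [eq_div_iff (by positivity), h3]
  rw [h4, pow_succ]
  field_simp

theorem bt_far (n k : ℕ) {x l : ℝ} (hx : 0 < x) (hl : 1 < l)
    (hn : (n:ℝ) + k ≤ l * (n - k)) (hkn : k ≤ n) : x ≤ bt n x l (n+k) := by
  have hl0 : 0 < l := by linarith
  have h1 : (0:ℝ) < (((2*n).choose n : ℕ) : ℝ) := by
    exact_mod_cast Nat.choose_pos (by omega)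
  have key : ∀ i ≤ k, (((2*n).choose n : ℕ) : ℝ) ≤ (((2*n).choose (n+i) : ℕ) : ℝ) * l^i := by
    intro i
    induction i with
    | zero => intro _; simp
    | succ i ih =>
      intro hi
      have ih' := ih (by omega)
      have h2 := Nat.choose_succ_right_eq (2*n) (n+i)
      have e : 2*n - (n+i) = n - i := by omega
      rw [e] at h2
      have h3 : (((2*n).choose (n+i+1) : ℕ) : ℝ) * ((n:ℝ)+i+1)
          = (((2*n).choose (n+i) : ℕ) : ℝ) * ((n:ℝ) - i) := by
        have : ((n - i : ℕ) : ℝ) = (n:ℝ) - i := by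
          rw [Nat.cast_sub (by omega)]
        rw [← this]
        exact_mod_cast h2
      have hik : (i:ℝ) + 1 ≤ k := by exact_mod_cast hi
      have h4 : (n:ℝ) + i + 1 ≤ l * (n - i) := by
        have : l * ((n:ℝ) - k) ≤ l * (n - i) := by
          apply mul_le_mul_of_nonneg_left _ hl0.le
          linarith
        linarith
      have h5 : (((2*n).choose (n+i) : ℕ) : ℝ) * ((n:ℝ)+i+1)
          ≤ ((((2*n).choose (n+i+1) : ℕ) : ℝ) * l) * ((n:ℝ)+i+1) := by
        calc (((2*n).choose (n+i) : ℕ) : ℝ) * ((n:ℝ)+i+1)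
            ≤ (((2*n).choose (n+i) : ℕ) : ℝ) * (l * (n - i)) :=
              mul_le_mul_of_nonneg_left h4 (by positivity)
          _ = _ := by linear_combination (-l) * h3
      have h6 := le_of_mul_le_mul_right h5 (by positivity)
      calc (((2*n).choose n : ℕ) : ℝ) ≤ (((2*n).choose (n+i) : ℕ) : ℝ) * l^i := ih'
        _ ≤ ((((2*n).choose (n+i+1) : ℕ) : ℝ) * l) * l^i :=
            mul_le_mul_of_nonneg_right h6 (by positivity)
        _ = _ := by rw [← add_assoc]; ring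
  have hk := key k le_rfl
  unfold bt
  rw [pow_add, div_mul_eq_mul_div, le_div_iff₀ (by positivity)]
  have := mul_le_mul_of_nonneg_left hk (by positivity : 0 ≤ x * l^n)
  nlinarith [this]

/-- log-concavity along the test sequence -/
theorem Pres.ccv {F : ℝ → ℝ} (hF : Pres F) {x l : ℝ} (hx : 0 < x) (hl : 0 < l) (n : ℕ) :
    F (x * l * (((n+1:ℕ):ℝ)/((n+1:ℕ)+1))) * F (x / l * (((n+1:ℕ):ℝ)/((n+1:ℕ)+1))) ≤ F x ^ 2 := by
  obtain ⟨g1, g2⟩ := hF.rr (d := 2*(n+1)) (a := bt (n+1) x l)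
    (fun j hj => bt_pos (n+1) hx hl hj) (bt_real (n+1) hx hl)
  have h := lc_of_realRooted g1 g2 (i := n) (j := n+1) (by omega) (by omega)
  rw [bt_mid (n+1) hl, bt_succ (n+1) hl, bt_pred n hl] at h
  nlinarith [h]

/-- The window argument: midpoint log-convexity. -/
theorem Pres.cvx {F : ℝ → ℝ} (hF : Pres F) {x l : ℝ} (hx : 0 < x) (hl : 1 < l) :
    F x ^ 2 ≤ F (x * l) * F (x / l) := by
  by_contra hlt
  push Not at hlt
  have hl0 : 0 < l := by linarith
  have hu : 0 < F (x/l) := hF.pos (by positivity)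
  have hy : 0 < F (x*l) := hF.pos (by positivity)
  have hv : 0 < F x := hF.pos hx
  set u := F (x/l) with hu'
  set y := F (x*l) with hy'
  set v := F x with hv'
  set q := (y*u)/v^2 with hq
  have hq0 : 0 < q := by positivity
  have hq1 : q < 1 := by rw [hq, div_lt_one (by positivity)]; exact hlt
  set κ := Real.sqrt (Real.sqrt q) with hκ
  have hκ0 : 0 < κ := Real.sqrt_pos.2 (Real.sqrt_pos.2 hq0)
  have hκ1 : κ < 1 := by
    rw [hκ, Real.sqrt_lt' one_pos, Real.sqrt_lt' (by norm_num)]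
    simpa using hq1
  have hκ4 : κ^4 = q := by
    have e : κ^2 = Real.sqrt q := Real.sq_sqrt (Real.sqrt_nonneg _)
    calc κ^4 = (κ^2)^2 := by ring
      _ = (Real.sqrt q)^2 := by rw [e]
      _ = q := Real.sq_sqrt hq0.le
  set τ := κ^2 * v / y with hτ
  have hτ0 : 0 < τ := by positivity
  set w := 2/τ with hw
  have hw0 : 0 < w := by positivity
  have hδ : 0 < 1/κ + 1/(1/κ) - 2 := by
    have : 1/κ + 1/(1/κ) - 2 = (1-κ)^2/κ := by field_simp; ring
    rw [this]
    have : 0 < 1 - κ := by linarith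
    positivity
  obtain ⟨M, hM⟩ := exists_nat_ge ((w + 1/w - 2)/(1/κ + 1/(1/κ) - 2))
  rw [div_le_iff₀ hδ] at hM
  obtain ⟨k, hk⟩ := pow_unbounded_of_one_lt ((2/(1-κ))^(2*M+2)) (by norm_num : (1:ℝ) < 2)
  -- choose n
  obtain ⟨n, hn⟩ := exists_nat_ge (max ((k:ℝ)*(l+1)/(l-1)) (max (k:ℝ) 1))
  have hn1 : (k:ℝ)*(l+1)/(l-1) ≤ n := le_trans (le_max_left _ _) hn
  have hn2 : (k:ℝ) ≤ n := le_trans (le_trans (le_max_left _ _) (le_max_right _ _)) hn
  have hn3 : (1:ℝ) ≤ n := le_trans (le_trans (le_max_right _ _) (le_max_right _ _)) hn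
  have hn2' : k ≤ n := by exact_mod_cast hn2
  have hn3' : 1 ≤ n := by exact_mod_cast hn3
  have hl1 : 0 < l - 1 := by linarith
  rw [div_le_iff₀ hl1] at hn1
  have hfar := bt_far n k hx hl (by nlinarith) hn2'
  obtain ⟨g1, g2⟩ := hF.rr (d := 2*n) (a := bt n x l)
    (fun j hj => bt_pos n hx hl0 hj) (bt_real n hx hl0)
  have hmono : ∀ {a b : ℝ}, 0 < a → a ≤ b → F a ≤ F b := by
    intro a b ha hab
    rcases hab.lt_or_eq with h | h
    · exact hF.mono ha h
    · rw [h]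
  have hmid := bt_mid (x := x) n hl0
  obtain ⟨n', rfl⟩ : ∃ n', n = n' + 1 := ⟨n - 1, by omega⟩
  have hpred : F (bt (n'+1) x l n') ≤ u := by
    apply hmono (bt_pos (n'+1) hx hl0 (by omega))
    rw [bt_pred n' hl0]
    have : (((n'+1 : ℕ):ℝ)/((n'+1 : ℕ)+1)) ≤ 1 := by
      rw [div_le_one (by positivity)]; linarith
    have h2 : 0 < x / l := by positivity
    nlinarith
  have hsucc : F (bt (n'+1) x l (n'+1+1)) ≤ y := by
    apply hmono (bt_pos (n'+1) hx hl0 (by omega))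
    rw [bt_succ (n'+1) hl0]
    have : (((n'+1 : ℕ):ℝ)/((n'+1 : ℕ)+1)) ≤ 1 := by
      rw [div_le_one (by positivity)]; linarith
    have h2 : 0 < x * l := by positivity
    nlinarith
  have hres := window_bound g1 g2 (m := n'+1) (by omega) (by omega) hτ0 hκ0 hκ1
    (by
      rw [show n' + 1 - 1 = n' by omega, hmid]
      refine le_trans hpred ?_
      have : κ^2 * τ * v = u := by
        rw [hτ]
        have : κ^2 * (κ^2 * v / y) * v = κ^4 * v^2 / y := by ring
        rw [this, hκ4, hq]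
        field_simp
      rw [this])
    (by
      rw [hmid]
      have h1 : τ * F (bt (n'+1) x l (n'+1+1)) ≤ τ * y := mul_le_mul_of_nonneg_left hsucc hτ0.le
      refine le_trans h1 ?_
      have : τ * y = κ^2 * v := by rw [hτ]; field_simp
      rw [this])
    hw0 M hM (k := k) (by omega)
    (by
      rw [hmid]
      exact hmono hx hfar)
  have : τ * w = 2 := by rw [hw]; field_simp
  rw [this] at hres
  linarith

end Pool.Agent.Helper477.RR
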