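import Mathlib
import Pool.Agent.Helper477.RR.Window

set_option autoImplicit false

open Polynomial Finset Filter Topology

namespace Pool.Agent.Helper477.RR

/-- A monotone midpoint-convex function satisfying the asymptotic concavity is affine. -/
theorem affine_of {G : ℝ → ℝ} (hm : Monotone G)
    (hcvx : ∀ s L, 2 * G s ≤ G (s+L) + G (s-L))
    (e : ℕ → ℝ) (he : Tendsto e atTop (𝓝 0))
    (hccv : ∀ s L n, G (s + L + e n) + G (s - L + e n) ≤ 2 * G s) :
    ∃ α, ∀ s, G s = G 0 + α * s := by
  have hhalf : ∀ s (k : ℕ), G (s + 1/2^k) - G s ≤ (G (s+1) - G s)/2^k := by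
    intro s k
    induction k with
    | zero => simp
    | succ k ih =>
      have h1 := hcvx (s + 1/2^(k+1)) (1/2^(k+1))
      have e1 : s + 1/2^(k+1) + 1/2^(k+1) = s + 1/2^k := by
        rw [pow_succ]; field_simp; ring
      have e2 : s + 1/2^(k+1) - 1/2^(k+1) = s := by ring
      rw [e1, e2] at h1
      have e3 : (G (s+1) - G s)/2^(k+1) = ((G (s+1) - G s)/2^k)/2 := by
        rw [pow_succ]; field_simp
      rw [e3]
      linarith
  have hcont : Continuous G := by
    rw [continuous_iff_continuousAt]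
    intro s
    rw [Metric.continuousAt_iff]
    intro ε hε
    obtain ⟨k, hk⟩ := pow_unbounded_of_one_lt ((G (s+1) - G s + 1)/ε) (by norm_num : (1:ℝ) < 2)
    have hpos : (0:ℝ) < 2^k := by positivity
    have hGs : 0 ≤ G (s+1) - G s := by
      have := hm (by linarith : s ≤ s+1)
      linarith
    have hbd : (G (s+1) - G s)/2^k < ε := by
      rw [div_lt_iff₀ hpos]
      rw [div_lt_iff₀ hε] at hk
      linarith
    refine ⟨1/2^k, by positivity, ?_⟩
    intro t ht
    rw [Real.dist_eq, abs_lt] at ht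
    rw [Real.dist_eq, abs_lt]
    have h1 := hhalf s k
    have h2 := hcvx s (1/2^k)
    have h3 : G t ≤ G (s + 1/2^k) := hm (by linarith)
    have h4 : G (s - 1/2^k) ≤ G t := hm (by linarith)
    constructor <;> linarith
  have hjen : ∀ s L, G (s+L) + G (s-L) = 2 * G s := by
    intro s L
    apply le_antisymm _ (hcvx s L)
    have h1 : Tendsto (fun n => G (s + L + e n) + G (s - L + e n)) atTop
        (𝓝 (G (s + L + 0) + G (s - L + 0))) := by
      apply Tendsto.add
      · exact (hcont.tendsto _).comp (tendsto_const_nhds.add he)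
      · exact (hcont.tendsto _).comp (tendsto_const_nhds.add he)
    rw [add_zero, add_zero] at h1
    exact le_of_tendsto h1 (Eventually.of_forall (fun n => hccv s L n))
  have hadd : ∀ a b, G (a+b) + G 0 = G a + G b := by
    intro a b
    have h1 := hjen ((a+b)/2) ((a-b)/2)
    have h2 := hjen ((a+b)/2) ((a+b)/2)
    have e1 : (a+b)/2 + (a-b)/2 = a := by ring
    have e2 : (a+b)/2 - (a-b)/2 = b := by ring
    have e3 : (a+b)/2 + (a+b)/2 = a + b := by ring
    have e4 : (a+b)/2 - (a+b)/2 = 0 := by ring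
    rw [e1, e2] at h1
    rw [e3, e4] at h2
    linarith
  let H : ℝ →+ ℝ :=
    { toFun := fun s => G s - G 0
      map_zero' := by simp
      map_add' := by
        intro a b
        have := hadd a b
        show G (a+b) - G 0 = (G a - G 0) + (G b - G 0)
        linarith }
  have hHc : Continuous H := by
    show Continuous (fun s => G s - G 0)
    exact hcont.sub continuous_const
  refine ⟨G 1 - G 0, ?_⟩
  intro s
  have h := map_real_smul H hHc s 1
  have h2 : H (s • (1:ℝ)) = G s - G 0 := by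
    show G (s • (1:ℝ)) - G 0 = _
    simp
  have h3 : H (1:ℝ) = G 1 - G 0 := rfl
  rw [h2, h3, smul_eq_mul] at h
  linarith

theorem Pres.classify {F : ℝ → ℝ} (hF : Pres F) :
    ∃ c α : ℝ, 0 < c ∧ ∀ x, 0 < x → F x = c * x ^ α := by
  have hmono : ∀ {a b : ℝ}, 0 < a → a ≤ b → F a ≤ F b := by
    intro a b ha hab
    rcases hab.lt_or_eq with h | h
    · exact hF.mono ha h
    · rw [h]
  set G : ℝ → ℝ := fun s => Real.log (F (Real.exp s)) with hG
  have hpos : ∀ s, 0 < F (Real.exp s) := fun s => hF.pos (Real.exp_pos s)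
  have hGm : Monotone G := by
    intro a b hab
    apply Real.log_le_log (hpos a)
    exact hmono (Real.exp_pos a) (Real.exp_le_exp.2 hab)
  have hcvx0 : ∀ s L, 0 < L → 2 * G s ≤ G (s+L) + G (s-L) := by
    intro s L hL
    have h := hF.cvx (Real.exp_pos s) (Real.one_lt_exp_iff.2 hL)
    rw [← Real.exp_add, ← Real.exp_sub] at h
    have h2 := Real.log_le_log (by have := hpos s; positivity) h
    rw [Real.log_pow, Real.log_mul (hpos _).ne' (hpos _).ne'] at h2
    exact_mod_cast h2
  have hcvx : ∀ s L, 2 * G s ≤ G (s+L) + G (s-L) := by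
    intro s L
    rcases lt_trichotomy L 0 with h | h | h
    · have := hcvx0 s (-L) (by linarith)
      rw [sub_neg_eq_add, ← sub_eq_add_neg] at this
      linarith
    · rw [h, add_zero, sub_zero]; linarith
    · exact hcvx0 s L h
  set e : ℕ → ℝ := fun n => Real.log (((n+1:ℕ):ℝ)/((n+1:ℕ)+1)) with he
  have hpe : ∀ n : ℕ, (0:ℝ) < ((n+1:ℕ):ℝ)/((n+1:ℕ)+1) := by
    intro n; positivity
  have het : Tendsto e atTop (𝓝 0) := by
    have h1 : Tendsto (fun n : ℕ => ((n:ℝ)/((n:ℝ)+1))) atTop (𝓝 1) :=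
      tendsto_natCast_div_add_atTop (1:ℝ)
    have h2 : Tendsto (fun n : ℕ => (((n+1:ℕ):ℝ)/((n+1:ℕ)+1))) atTop (𝓝 1) :=
      h1.comp (tendsto_add_atTop_nat 1)
    have h3 := ((Real.continuousAt_log (one_ne_zero)).tendsto).comp h2
    rw [Real.log_one] at h3
    exact h3
  have hccv : ∀ s L n, G (s + L + e n) + G (s - L + e n) ≤ 2 * G s := by
    intro s L n
    have h := hF.ccv (Real.exp_pos s) (Real.exp_pos L) n
    rw [← Real.exp_add, ← Real.exp_sub, ← Real.exp_log (hpe n), ← Real.exp_add,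
      ← Real.exp_add] at h
    have h2 := Real.log_le_log (mul_pos (hpos _) (hpos _)) h
    rw [Real.log_pow, Real.log_mul (hpos _).ne' (hpos _).ne',
      show ((2:ℕ):ℝ) = 2 by norm_num] at h2
    exact h2
  obtain ⟨α, hα⟩ := affine_of hGm hcvx e het hccv
  refine ⟨Real.exp (G 0), α, Real.exp_pos _, ?_⟩
  intro x hx
  have h := hα (Real.log x)
  have h1 : G (Real.log x) = Real.log (F x) := by
    simp only [hG, Real.exp_log hx]
  have h2 : F x = Real.exp (Real.log (F x)) := (Real.exp_log (hF.pos hx)).symm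
  rw [h2, ← h1, h, Real.exp_add, Real.rpow_def_of_pos hx, mul_comm α]

theorem Pres.two {F : ℝ → ℝ} (hF : Pres F) : 2 * F 1 ≤ F 2 := by
  have h1 := hF.pos (x := 1) one_pos
  have h2 := hF.pos (x := 2) (by norm_num)
  by_contra hlt
  push Not at hlt
  obtain ⟨g1, g2⟩ := hF.rr (d := 2) (a := fun j => if j = 1 then 2 else 1)
    (fun j _ => by split_ifs <;> norm_num)
    (by
      intro z hz
      simp [Finset.sum_range_succ] at hz
      have : (1 + z)^2 = 0 := by linear_combination hz
      have h3 : 1 + z = 0 := by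
        by_contra hne
        exact pow_ne_zero _ hne this
      have : z = -1 := by linear_combination h3
      rw [this]; simp)
  set η := F 2/(2 * F 1) with hη
  have hη1 : η < 1 := by rw [hη, div_lt_one (by positivity)]; exact hlt
  have hη0 : 0 < η := by positivity
  have hs : 0 < 1 - η^2 := by nlinarith
  have hsq := Real.sq_sqrt hs.le
  have hsp := Real.sqrt_pos.2 hs
  set r := Real.sqrt (1 - η^2) with hr
  have key := g2 (⟨-η, r⟩ : ℂ) (by
    have e : F 2 = 2 * F 1 * η := by rw [hη]; field_simp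
    have hz : (⟨-η, r⟩ : ℂ) = -(η:ℂ) + r * Complex.I := by
      apply Complex.ext <;> simp
    have hsqC : (r:ℂ)^2 = 1 - (η:ℂ)^2 := by exact_mod_cast hsq
    rw [hz]
    simp [Finset.sum_range_succ]
    rw [e]
    push_cast
    linear_combination (-(F 1 : ℂ)) * hsqC + (F 1 : ℂ) * (r:ℂ)^2 * Complex.I_sq)
  simp at key
  linarith

theorem Pres.classify' {F : ℝ → ℝ} (hF : Pres F) :
    ∃ c α : ℝ, 0 < c ∧ 1 ≤ α ∧ ∀ x, 0 < x → F x = c * x ^ α := by
  obtain ⟨c, α, hc, h⟩ := hF.classify
  refine ⟨c, α, hc, ?_, h⟩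
  have h2 := hF.two
  rw [h 1 one_pos, h 2 (by norm_num), Real.one_rpow] at h2
  have h3 : (2:ℝ)^(1:ℝ) ≤ 2^α := by
    rw [Real.rpow_one]
    nlinarith
  exact (Real.rpow_le_rpow_left_iff (by norm_num : (1:ℝ) < 2)).1 h3

end Pool.Agent.Helper477.RR
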