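import Mathlib
import Pool.Agent.Helper477.RR.Mono

set_option autoImplicit false

open Polynomial Finset

namespace Pool.Agent.Helper477.RR

/-- Iterated Gauss–Lucas. -/
theorem iter_gauss_lucas {K : Set ℂ} (hK : Convex ℝ K) (i : ℕ) :
    ∀ P : ℂ[X], i ≤ P.natDegree → P ≠ 0 → (∀ y, P.eval y = 0 → y ∈ K) →
      (derivative^[i] P) ≠ 0 ∧ ∀ y, (derivative^[i] P).eval y = 0 → y ∈ K := by
  induction i with
  | zero => intro P _ h0 h; exact ⟨h0, h⟩
  | succ i ih =>
    intro P hi h0 h
    rw [Function.iterate_succ_apply]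
    have hN : 0 < P.natDegree := by omega
    obtain ⟨N, hN'⟩ : ∃ N, P.natDegree = N + 1 := ⟨P.natDegree - 1, by omega⟩
    have hc : (derivative P).coeff N ≠ 0 := by
      rw [coeff_derivative, ← hN']
      apply mul_ne_zero
      · exact leadingCoeff_ne_zero.2 h0
      · exact_mod_cast Nat.succ_ne_zero N
    have hd0 : derivative P ≠ 0 := by
      intro h'; rw [h'] at hc; simp at hc
    have hdeg : i ≤ (derivative P).natDegree := by
      have := le_natDegree_of_ne_zero hc
      omega
    apply ih _ hdeg hd0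
    intro y hy
    have hmem : y ∈ (derivative P).rootSet ℂ := by
      rw [mem_rootSet, coe_aeval_eq_eval]
      exact ⟨hd0, hy⟩
    have h1 := rootSet_derivative_subset_convexHull_rootSet
      (natDegree_pos_iff_degree_pos.1 hN) hmem
    refine convexHull_min ?_ hK h1
    intro x hx
    rw [mem_rootSet, coe_aeval_eq_eval] at hx
    exact h x hx.2

/-- the lexicographic half-plane -/
def LH : Set ℂ := {y | y.im < 0 ∨ (y.im = 0 ∧ y.re < 0)}

theorem convex_LH : Convex ℝ LH := by
  intro x hx y hy a b ha hb hab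
  simp only [LH, Set.mem_ofPred_eq] at hx hy ⊢
  simp only [Complex.add_im, Complex.real_smul, Complex.mul_im, Complex.ofReal_re,
    Complex.ofReal_im, zero_mul, add_zero, Complex.add_re, Complex.mul_re, sub_zero]
  rcases ha.lt_or_eq with ha' | ha'
  · rcases hb.lt_or_eq with hb' | hb'
    · rcases hx with hx | ⟨hx1, hx2⟩
      · left
        rcases hy with hy | ⟨hy1, hy2⟩
        · nlinarith [mul_pos ha' (neg_pos.2 hx), mul_pos hb' (neg_pos.2 hy)]
        · rw [hy1]; nlinarith [mul_pos ha' (neg_pos.2 hx)]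
      · rcases hy with hy | ⟨hy1, hy2⟩
        · left
          rw [hx1]; nlinarith [mul_pos hb' (neg_pos.2 hy)]
        · right
          rw [hx1, hy1]
          refine ⟨by ring, ?_⟩
          nlinarith [mul_pos ha' (neg_pos.2 hx2), mul_pos hb' (neg_pos.2 hy2)]
    · have : a = 1 := by linarith
      rw [← hb', this]; simpa using hx
  · have : b = 1 := by linarith
    rw [← ha', this]; simpa using hy

theorem zero_notMem_LH : (0:ℂ) ∉ LH := by simp [LH]

theorem root_neg {n : ℕ} {a : ℕ → ℝ} (ha : ∀ j ≤ n, 0 < a j)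
    (h : ∀ z : ℂ, ∑ j ∈ range (n+1), (a j : ℂ) * z ^ j = 0 → z.im = 0) {z : ℂ}
    (hz : ∑ j ∈ range (n+1), (a j : ℂ) * z ^ j = 0) : ∃ t : ℝ, t < 0 ∧ z = t := by
  have him := h z hz
  have hzt : z = ((z.re : ℝ) : ℂ) := by
    apply Complex.ext
    · simp
    · simp [him]
  refine ⟨z.re, ?_, hzt⟩
  by_contra hneg
  push Not at hneg
  rw [hzt] at hz
  have h3 : (∑ j ∈ range (n+1), a j * z.re ^ j) = 0 := by exact_mod_cast hz
  have h4 : 0 < ∑ j ∈ range (n+1), a j * z.re ^ j := by
    apply Finset.sum_pos'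
    · intro j hj
      have := ha j (by have := Finset.mem_range.1 hj; omega)
      positivity
    · refine ⟨0, by simp, ?_⟩
      simpa using ha 0 (Nat.zero_le _)
  linarith

/-- complex version of `poly` -/
noncomputable def cpoly (d : ℕ) (b : ℕ → ℂ) : ℂ[X] := ∑ j ∈ range (d+1), C (b j) * X ^ j

theorem cpoly_coeff (d : ℕ) (b : ℕ → ℂ) (k : ℕ) :
    (cpoly d b).coeff k = if k ≤ d then b k else 0 := by
  unfold cpoly
  rw [finsetSum_coeff]
  simp only [coeff_C_mul, coeff_X_pow, mul_ite, mul_one, mul_zero]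
  rw [Finset.sum_ite_eq]
  simp

theorem cpoly_eval (d : ℕ) (b : ℕ → ℂ) (x : ℂ) :
    (cpoly d b).eval x = ∑ j ∈ range (d+1), b j * x ^ j := by
  unfold cpoly
  simp [eval_finsetSum]

theorem cpoly_natDegree (d : ℕ) (b : ℕ → ℂ) (hb : b d ≠ 0) : (cpoly d b).natDegree = d := by
  apply le_antisymm
  · rw [natDegree_le_iff_coeff_eq_zero]
    intro k hk
    rw [cpoly_coeff, if_neg (by omega)]
  · apply le_natDegree_of_ne_zero
    rw [cpoly_coeff, if_pos le_rfl]
    exact hb

theorem malo_upper {n : ℕ} {a b : ℕ → ℝ} (ha : ∀ j ≤ n, 0 < a j) (hb : ∀ j ≤ n, 0 < b j)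
    (hra : ∀ z : ℂ, ∑ j ∈ range (n+1), (a j : ℂ) * z ^ j = 0 → z.im = 0)
    (hrb : ∀ z : ℂ, ∑ j ∈ range (n+1), (b j : ℂ) * z ^ j = 0 → z.im = 0)
    {z : ℂ} (hz : 0 < z.im) :
    ∑ j ∈ range (n+1), ((a j * b j : ℝ) : ℂ) * z ^ j ≠ 0 := by
  intro h0
  have hz0 : z ≠ 0 := by rintro rfl; simp at hz
  set u : ℂ[X] := cpoly n (fun j => (a (n-j) : ℂ) * z^(n-j)) with hu
  set g : ℂ[X] := cpoly n (fun j => (b j : ℂ)) with hg
  have hun : u.natDegree = n := by
    apply cpoly_natDegree
    simp
    exact (ha 0 (Nat.zero_le _)).ne'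
  have hgn : g.natDegree = n := by
    apply cpoly_natDegree
    exact_mod_cast (hb n le_rfl).ne'
  have hu0 : u ≠ 0 := by
    intro h
    have h1 := cpoly_coeff n (fun j => (a (n-j) : ℂ) * z^(n-j)) n
    rw [← hu, h] at h1
    simp at h1
    exact (ha 0 (Nat.zero_le _)).ne' (by exact_mod_cast h1.symm)
  have hg0 : g ≠ 0 := by
    intro h
    have h1 := cpoly_coeff n (fun j => (b j : ℂ)) 0
    rw [← hg, h] at h1
    simp at h1
    exact (hb 0 (Nat.zero_le _)).ne' (by exact_mod_cast h1.symm)
  have hP0 : u * g ≠ 0 := mul_ne_zero hu0 hg0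
  have hPn : (u * g).natDegree = n + n := by
    rw [natDegree_mul hu0 hg0, hun, hgn]
  have hueval : ∀ y : ℂ, u.eval y = ∑ j ∈ range (n+1), (a j : ℂ) * z^j * y^(n-j) := by
    intro y
    rw [hu, cpoly_eval, ← Finset.sum_range_reflect]
    apply Finset.sum_congr rfl
    intro j hj
    have := Finset.mem_range.1 hj
    have e1 : n + 1 - 1 - j = n - j := by omega
    have e2 : n - (n - j) = j := by omega
    rw [e1, e2]
  have hroots : ∀ y, (u * g).eval y = 0 → y ∈ LH := by
    intro y hy
    rw [eval_mul] at hy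
    rcases mul_eq_zero.1 hy with h | h
    · left
      have hy0 : y ≠ 0 := by
        rintro rfl
        rw [hueval, Finset.sum_range_succ] at h
        have : ∑ j ∈ range n, (a j : ℂ) * z^j * 0^(n-j) = 0 := by
          apply Finset.sum_eq_zero
          intro j hj
          have := Finset.mem_range.1 hj
          rw [zero_pow (by omega), mul_zero]
        rw [this] at h
        simp at h
        rcases h with h | h
        · exact (ha n le_rfl).ne' h
        · exact hz0 h.1
      have h2 : ∑ j ∈ range (n+1), (a j : ℂ) * (z/y)^j = 0 := by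
        have : u.eval y = y^n * ∑ j ∈ range (n+1), (a j : ℂ) * (z/y)^j := by
          rw [hueval, Finset.mul_sum]
          apply Finset.sum_congr rfl
          intro j hj
          have := Finset.mem_range.1 hj
          have e : y^n = y^j * y^(n-j) := by
            rw [← pow_add]; congr 1; omega
          rw [e, div_pow]
          field_simp
        rw [this] at h
        rcases mul_eq_zero.1 h with h | h
        · exact absurd h (pow_ne_zero _ hy0)
        · exact h
      obtain ⟨t, ht, he⟩ := root_neg ha hra h2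
      have hyt : y = ((1/t : ℝ) : ℂ) * z := by
        have ht' : (t:ℂ) ≠ 0 := by exact_mod_cast ht.ne
        rw [div_eq_iff hy0] at he
        rw [he]
        push_cast
        field_simp
      rw [hyt, Complex.re_ofReal_mul |> fun _ => Complex.im_ofReal_mul]
      have : 1/t < 0 := by
        rw [one_div]; exact inv_lt_zero.2 ht
      exact mul_neg_of_neg_of_pos this hz
    · right
      rw [hg, cpoly_eval] at h
      obtain ⟨t, ht, he⟩ := root_neg hb hrb h
      rw [he]
      simp [ht]
  obtain ⟨-, hGL⟩ := iter_gauss_lucas convex_LH n (u * g) (by omega) hP0 hroots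
  apply zero_notMem_LH
  apply hGL
  rw [← coeff_zero_eq_eval_zero, coeff_iterate_derivative]
  have hcoef : (u * g).coeff (0 + n) = 0 := by
    rw [zero_add, coeff_mul, Finset.Nat.sum_antidiagonal_eq_sum_range_succ
      (fun i j => u.coeff i * g.coeff j)]
    rw [← h0, ← Finset.sum_range_reflect]
    apply Finset.sum_congr rfl
    intro j hj
    have := Finset.mem_range.1 hj
    have e1 : n.succ - 1 - j = n - j := by omega
    have e2 : n - (n - j) = j := by omega
    rw [e1, e2, hu, hg, cpoly_coeff, cpoly_coeff, if_pos (by omega), if_pos (by omega), e2]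
    push_cast
    ring
  rw [hcoef, smul_zero]

/-- Malo's theorem for polynomials with positive coefficients. -/
theorem malo {n : ℕ} {a b : ℕ → ℝ} (ha : ∀ j ≤ n, 0 < a j) (hb : ∀ j ≤ n, 0 < b j)
    (hra : ∀ z : ℂ, ∑ j ∈ range (n+1), (a j : ℂ) * z ^ j = 0 → z.im = 0)
    (hrb : ∀ z : ℂ, ∑ j ∈ range (n+1), (b j : ℂ) * z ^ j = 0 → z.im = 0)
    (z : ℂ) (hz : ∑ j ∈ range (n+1), ((a j * b j : ℝ) : ℂ) * z ^ j = 0) : z.im = 0 := by
  rcases lt_trichotomy z.im 0 with h | h | h
  · exfalso
    have hc : 0 < (starRingEnd ℂ z).im := by rw [Complex.conj_im]; linarith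
    apply malo_upper ha hb hra hrb hc
    have := congrArg (starRingEnd ℂ) hz
    rw [map_sum, map_zero] at this
    rw [← this]
    apply Finset.sum_congr rfl
    intro j _
    rw [map_mul, map_pow, Complex.conj_ofReal]
  · exact h
  · exact absurd hz (malo_upper ha hb hra hrb h)

end Pool.Agent.Helper477.RR
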