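import Mathlib
import Pool.Agent.Helper477.RR.Malo
import Pool.Agent.Helper477.RR.Class

set_option autoImplicit false

open Polynomial Finset

namespace Pool.Agent.Helper477.RR

theorem coeff_pos (s : Multiset ℝ) (hs : ∀ t ∈ s, 0 < t) :
    ∀ k ≤ Multiset.card s, 0 < ((s.map (fun t => X + C t)).prod : ℝ[X]).coeff k := by
  induction s using Multiset.induction with
  | empty => intro k hk; simp at hk; subst hk; simp
  | cons a s ih =>
    intro k hk
    have hs' : ∀ t ∈ s, 0 < t := fun t ht => hs t (Multiset.mem_cons_of_mem ht)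
    have ih' := ih hs'
    have hnn := coeff_nonneg s hs'
    have ha : 0 < a := hs a (Multiset.mem_cons_self a s)
    rw [Multiset.card_cons] at hk
    rw [Multiset.map_cons, Multiset.prod_cons, add_mul]
    rcases k with _ | k
    · simp only [coeff_add, mul_coeff_zero, coeff_X_zero, zero_mul, coeff_C_zero, zero_add]
      exact mul_pos ha (ih' 0 (Nat.zero_le _))
    · simp only [coeff_add, coeff_X_mul, coeff_C_mul]
      have h1 := ih' k (by omega)
      have h2 := hnn (k+1)
      positivity

/-- If the two extreme coefficients are positive, then all of them are. -/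
theorem all_pos {d : ℕ} {b : ℕ → ℝ} (hb : ∀ j ≤ d, 0 ≤ b j) (hb0 : 0 < b 0) (hbd' : 0 < b d)
    (h : ∀ z : ℂ, ∑ j ∈ range (d+1), (b j : ℂ) * z ^ j = 0 → z.im = 0) :
    ∀ j ≤ d, 0 < b j := by
  have hbd : b d ≠ 0 := hbd'.ne'
  set q : ℂ[X] := (poly d b).map (algebraMap ℝ ℂ) with hq
  have hq0 : q ≠ 0 := by
    intro h0
    have : (poly d b) = 0 := (Polynomial.map_eq_zero (algebraMap ℝ ℂ)).1 h0
    have h1 := poly_coeff d b d
    rw [this] at h1
    simp at h1
    exact hbd h1.symm
  have hroot : ∀ r ∈ q.roots, r.im = 0 := by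
    intro r hr
    rw [mem_roots hq0, IsRoot.def, hq, poly_map_eval] at hr
    exact h r hr
  have hre : ∀ r ∈ q.roots, ((r.re : ℝ) : ℂ) = r := by
    intro r hr
    apply Complex.ext
    · simp
    · simp [hroot r hr]
  set s : Multiset ℝ := q.roots.map (fun r => -r.re) with hs
  have hspos : ∀ t ∈ s, 0 < t := by
    intro t ht
    rw [hs, Multiset.mem_map] at ht
    obtain ⟨r, hr, rfl⟩ := ht
    by_contra hneg
    push Not at hneg
    have hr0 : 0 ≤ r.re := by linarith
    have hr2 := hr
    rw [mem_roots hq0, IsRoot.def, hq, poly_map_eval] at hr2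
    rw [← hre r hr] at hr2
    have h3 : (∑ j ∈ range (d+1), b j * r.re ^ j) = 0 := by exact_mod_cast hr2
    have h4 : 0 < ∑ j ∈ range (d+1), b j * r.re ^ j := by
      apply Finset.sum_pos'
      · intro j hj
        have := hb j (by have := Finset.mem_range.1 hj; omega)
        positivity
      · refine ⟨0, by simp, ?_⟩
        simpa using hb0
    linarith
  have hfac : poly d b = C (b d) * (s.map (fun t => X + C t)).prod := by
    apply Polynomial.map_injective (algebraMap ℝ ℂ) (algebraMap ℝ ℂ).injective
    have hs' := (IsAlgClosed.splits q).eq_prod_roots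
    have hlc : q.leadingCoeff = ((b d : ℝ) : ℂ) := by
      rw [hq, leadingCoeff_map, leadingCoeff, poly_natDegree d b hbd, poly_coeff, if_pos le_rfl]
      rfl
    refine hs'.trans ?_
    rw [hlc, Polynomial.map_mul, Polynomial.map_C, Polynomial.map_multiset_prod, hs,
      Multiset.map_map, Multiset.map_map]
    congr 2
    apply Multiset.map_congr rfl
    intro r hr
    simp only [Function.comp, Polynomial.map_add, Polynomial.map_X, Polynomial.map_C]
    have : (algebraMap ℝ ℂ) (-r.re) = -r := by
      rw [map_neg]
      simp [hre r hr]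
    rw [this, C_neg, sub_eq_add_neg]
  have hcard : Multiset.card s = d := by
    have h1 : Multiset.card q.roots = q.natDegree := by
      rw [← splits_iff_card_roots]
      exact IsAlgClosed.splits q
    rw [hs, Multiset.card_map, h1, hq, natDegree_map, poly_natDegree d b hbd]
  intro j hj
  have h1 := poly_coeff d b j
  rw [if_pos hj, hfac, coeff_C_mul] at h1
  rw [← h1]
  exact mul_pos hbd' (coeff_pos s hspos j (by omega))

/-- To be a preserver it is enough to preserve real-rootedness of polynomials with positive
coefficients. -/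
theorem Pres.of_pos {F : ℝ → ℝ} (h0 : F 0 = 0) (hpos : ∀ x, 0 < x → 0 < F x)
    (hF : ∀ (d : ℕ) (a : ℕ → ℝ), (∀ j ≤ d, 0 < a j) →
      (∀ z : ℂ, ∑ j ∈ range (d+1), (a j : ℂ) * z ^ j = 0 → z.im = 0) →
      (∀ z : ℂ, ∑ j ∈ range (d+1), (F (a j) : ℂ) * z ^ j = 0 → z.im = 0)) : Pres F := by
  have hnn : ∀ x, 0 ≤ x → 0 ≤ F x := by
    intro x hx
    rcases hx.lt_or_eq with h | h
    · exact (hpos x h).le
    · rw [← h, h0]
  refine ⟨hnn, ?_⟩
  intro d
  induction d with
  | zero =>
    intro a ha
    refine ⟨fun j hj => hnn _ (ha.1 j hj), ?_⟩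
    have h1 : 0 < a 0 := by
      rcases (ha.1 0 le_rfl).lt_or_eq with h | h
      · exact h
      · exfalso
        have := ha.2 Complex.I (by simp [← h])
        simp at this
    intro z hz
    simp at hz
    exact absurd hz (hpos _ h1).ne'
  | succ d ih =>
    intro a ha
    refine ⟨fun j hj => hnn _ (ha.1 j hj), ?_⟩
    rcases (ha.1 (d+1) le_rfl).lt_or_eq with h1 | h1
    · rcases (ha.1 0 (Nat.zero_le _)).lt_or_eq with h2 | h2
      · exact hF (d+1) a (all_pos ha.1 h2 h1 ha.2) ha.2
      · -- a 0 = 0
        have h3 : InP d (fun j => a (j+1)) := by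
          refine ⟨fun j hj => ha.1 (j+1) (by omega), ?_⟩
          intro z hz
          apply ha.2
          rw [Finset.sum_range_succ', ← h2]
          have : ∑ k ∈ range (d+1), (a (k+1) : ℂ) * z ^ (k+1)
              = z * ∑ k ∈ range (d+1), (a (k+1) : ℂ) * z ^ k := by
            rw [Finset.mul_sum]
            apply Finset.sum_congr rfl
            intro k _
            ring
          rw [this, hz]
          simp
        have h4 := (ih _ h3).2
        intro z hz
        rw [Finset.sum_range_succ'] at hz
        beta_reduce at hz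
        rw [← h2, h0] at hz
        have : ∑ k ∈ range (d+1), (F (a (k+1)) : ℂ) * z ^ (k+1)
            = z * ∑ k ∈ range (d+1), (F (a (k+1)) : ℂ) * z ^ k := by
          rw [Finset.mul_sum]
          apply Finset.sum_congr rfl
          intro k _
          ring
        rw [this] at hz
        simp only [Complex.ofReal_zero, zero_mul, add_zero] at hz
        rcases mul_eq_zero.1 hz with h | h
        · rw [h]; simp
        · exact h4 z h
    · have h3 : InP d a := by
        refine ⟨fun j hj => ha.1 j (by omega), ?_⟩
        intro z hz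
        apply ha.2
        rw [Finset.sum_range_succ, ← h1, hz]
        simp
      have h4 := (ih _ h3).2
      intro z hz
      rw [Finset.sum_range_succ] at hz
      beta_reduce at hz
      rw [← h1, h0] at hz
      apply h4 z
      simpa using hz

theorem pres_pow {c : ℝ} (hc : 0 < c) {n : ℕ} (hn : 1 ≤ n) : Pres (fun x => c * x ^ n) := by
  apply Pres.of_pos
  · simp; right; omega
  · intro x hx; positivity
  · intro d a ha hra
    have key : ∀ m : ℕ, ∀ z : ℂ, ∑ j ∈ range (d+1), ((a j ^ (m+1) : ℝ) : ℂ) * z ^ j = 0
        → z.im = 0 := by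
      intro m
      induction m with
      | zero => intro z hz; simp only [zero_add, pow_one] at hz; exact hra z hz
      | succ m ih =>
        intro z hz
        apply malo (a := fun j => a j ^ (m+1)) (b := a)
          (fun j hj => pow_pos (ha j hj) _) ha ih hra z
        rw [← hz]
        apply Finset.sum_congr rfl
        intro j _
        rw [pow_succ (a j) (m+1)]
    obtain ⟨m, rfl⟩ : ∃ m, n = m + 1 := ⟨n - 1, by omega⟩
    intro z hz
    apply key m z
    have : ∑ j ∈ range (d+1), ((c * a j ^ (m+1) : ℝ) : ℂ) * z ^ j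
        = (c:ℂ) * ∑ j ∈ range (d+1), ((a j ^ (m+1) : ℝ) : ℂ) * z ^ j := by
      rw [Finset.mul_sum]
      apply Finset.sum_congr rfl
      intro j _
      push_cast
      ring
    rw [this] at hz
    rcases mul_eq_zero.1 hz with h | h
    · exact absurd (by exact_mod_cast h) hc.ne'
    · exact h

end Pool.Agent.Helper477.RR
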