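import Mathlib
set_option autoImplicit false

namespace Pool.Agent.Helper477.RR

noncomputable def uu (y : ℝ) : ℝ := y / (1+y)^2

theorem uu_aux_sd (g g1 g2 : ℝ → ℝ) (hg : ∀ v, HasDerivAt g (g1 v) v)
    (hg1 : ∀ v, HasDerivAt g1 (g2 v) v) (v h G ε : ℝ) (hh : 0 < h)
    (hb : ∀ s, |s| ≤ h → |g2 (v + s) - G| ≤ ε) :
    |g (v + h) + g (v - h) - 2 * g v - h ^ 2 * G| ≤ 2 * ε * h ^ 2 := by
  have hε : 0 ≤ ε := (abs_nonneg _).trans (hb 0 (by simpa using hh.le))
  have step1 : ∀ t ∈ Set.Icc (0 : ℝ) h, |g1 (v + t) - g1 (v - t) - 2 * G * t| ≤ 2 * ε * h := by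
    intro t ht
    have hd : ∀ s ∈ Set.Icc (-t) t, HasDerivWithinAt (fun s => g1 (v + s) - G * s)
        (g2 (v + s) - G) (Set.Icc (-t) t) s := by
      intro s _
      have h1 : HasDerivAt (fun s => g1 (v + s)) (g2 (v + s)) s :=
        HasDerivAt.comp_const_add v s (hg1 (v + s))
      have h2 : HasDerivAt (fun s => G * s) G s :=
        ((hasDerivAt_id s).const_mul G).congr_deriv (mul_one G)
      exact (h1.sub h2).hasDerivWithinAt
    have hm := (convex_Icc (-t) t).norm_image_sub_le_of_norm_hasDerivWithin_le hd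
      (C := ε) (fun s hs => by
        rw [Real.norm_eq_abs]
        exact hb s (abs_le.2 ⟨by linarith [hs.1, ht.2], by linarith [hs.2, ht.2]⟩))
      (x := -t) (y := t) ⟨le_refl _, by linarith [ht.1]⟩ ⟨by linarith [ht.1], le_refl _⟩
    rw [Real.norm_eq_abs, Real.norm_eq_abs] at hm
    have e1 : g1 (v + t) - G * t - (g1 (v + -t) - G * (-t)) = g1 (v + t) - g1 (v - t) - 2 * G * t := by
      rw [← sub_eq_add_neg v t]; ring
    rw [e1] at hm
    have e2 : |t - -t| = 2 * t := by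
      rw [abs_of_nonneg (by linarith [ht.1])]; ring
    rw [e2] at hm
    calc |g1 (v + t) - g1 (v - t) - 2 * G * t| ≤ ε * (2 * t) := hm
      _ ≤ ε * (2 * h) := by gcongr; exact ht.2
      _ = 2 * ε * h := by ring
  have hd : ∀ t ∈ Set.Icc (0 : ℝ) h, HasDerivWithinAt (fun t => g (v + t) + g (v - t) - G * t ^ 2)
      (g1 (v + t) - g1 (v - t) - 2 * G * t) (Set.Icc (0 : ℝ) h) t := by
    intro t _
    have h1 : HasDerivAt (fun s => g (v + s)) (g1 (v + t)) t :=
      HasDerivAt.comp_const_add v t (hg (v + t))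
    have h2 : HasDerivAt (fun s => g (v - s)) (-g1 (v - t)) t :=
      HasDerivAt.comp_const_sub v t (hg (v - t))
    have h4 : HasDerivAt (fun s : ℝ => G * s ^ 2) (2 * G * t) t :=
      ((hasDerivAt_pow 2 t).const_mul G).congr_deriv (by norm_num; ring)
    have h6 := (((h1.add h2).sub h4).congr_deriv
      (show g1 (v + t) + -g1 (v - t) - 2 * G * t = g1 (v + t) - g1 (v - t) - 2 * G * t by ring))
    exact h6.hasDerivWithinAt
  have hm := (convex_Icc (0 : ℝ) h).norm_image_sub_le_of_norm_hasDerivWithin_le hd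
    (C := 2 * ε * h) (fun s hs => by rw [Real.norm_eq_abs]; exact step1 s hs)
    (x := 0) (y := h) ⟨le_refl _, hh.le⟩ ⟨hh.le, le_refl _⟩
  rw [Real.norm_eq_abs, Real.norm_eq_abs] at hm
  have e1 : g (v + h) + g (v - h) - G * h ^ 2 - (g (v + 0) + g (v - 0) - G * 0 ^ 2)
      = g (v + h) + g (v - h) - 2 * g v - h ^ 2 * G := by
    rw [add_zero, sub_zero]; ring
  rw [e1, sub_zero, abs_of_pos hh] at hm
  calc _ ≤ 2 * ε * h * h := hm
    _ = 2 * ε * h ^ 2 := by ring

theorem uu_aux_pos (y : ℝ) (hy : 0 < y) : 0 < uu y ∧ uu y ≤ 1 := by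
  unfold uu
  refine ⟨by positivity, ?_⟩
  rw [div_le_one (by positivity)]
  nlinarith

theorem uu_aux_lip (y s : ℝ) (hy : 0 < y) (hs : |s| ≤ 1) :
    |uu (y * Real.exp s) - uu y| ≤ 6 * |s| * uu y := by
  set c := Real.exp s with hc
  have hc0 : 0 < c := Real.exp_pos s
  have hc3 : 1 ≤ 3 * c := by
    have h1 : Real.exp (-1) ≤ c := Real.exp_le_exp.2 (by linarith [(abs_le.1 hs).1])
    have h2 : 1 ≤ 3 * Real.exp (-1) := by
      rw [Real.exp_neg]
      have h3 := Real.exp_one_lt_three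
      have h4 := Real.exp_pos 1
      rw [← div_eq_mul_inv, le_div_iff₀ h4]
      linarith
    linarith
  have h1 : uu (y * c) - uu y = uu y * (c - 1) * ((1 - c * y ^ 2) / (1 + y * c) ^ 2) := by
    unfold uu
    have e1 : (1 + y * c) ≠ 0 := by positivity
    have e2 : (1 + y) ≠ 0 := by positivity
    field_simp
    ring
  have h2 : |(1 - c * y ^ 2) / (1 + y * c) ^ 2| ≤ 3 := by
    rw [abs_div, abs_of_pos (show 0 < (1 + y * c) ^ 2 by positivity), div_le_iff₀ (by positivity),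
      abs_le]
    have hyc : 0 < y * c := by positivity
    constructor
    · have : c * y ^ 2 ≤ 3 * (y * c) ^ 2 := by
        have : c * y ^ 2 * 1 ≤ c * y ^ 2 * (3 * c) := by gcongr
        nlinarith
      nlinarith
    · nlinarith [mul_pos hc0 (pow_pos hy 2)]
  have h3 : |c - 1| ≤ 2 * |s| := Real.abs_exp_sub_one_le hs
  rw [h1, abs_mul, abs_mul, abs_of_pos (uu_aux_pos y hy).1]
  have hu := (uu_aux_pos y hy).1
  calc uu y * |c - 1| * |(1 - c * y ^ 2) / (1 + y * c) ^ 2| ≤ uu y * (2 * |s|) * 3 := by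
        gcongr
    _ = 6 * |s| * uu y := by ring

theorem uu_aux_pow (k : ℕ) (a b : ℝ) (ha : 0 ≤ a) (ha1 : a ≤ 1) (hb : 0 ≤ b) (hb1 : b ≤ 1) :
    |a ^ k - b ^ k| ≤ k * |a - b| := by
  induction k with
  | zero => simp
  | succ k ih =>
    have e : a ^ (k + 1) - b ^ (k + 1) = a * (a ^ k - b ^ k) + b ^ k * (a - b) := by ring
    rw [e]
    calc |a * (a ^ k - b ^ k) + b ^ k * (a - b)|
        ≤ |a * (a ^ k - b ^ k)| + |b ^ k * (a - b)| := abs_add_le _ _
      _ = a * |a ^ k - b ^ k| + b ^ k * |a - b| := by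
          rw [abs_mul, abs_mul, abs_of_nonneg ha, abs_of_nonneg (pow_nonneg hb k)]
      _ ≤ 1 * (k * |a - b|) + 1 * |a - b| := by
          have := pow_le_one₀ (n := k) hb hb1
          gcongr
      _ = ((k + 1 : ℕ) : ℝ) * |a - b| := by push_cast; ring

theorem uu_aux_deriv (v : ℝ) : HasDerivAt (fun v => uu (Real.exp v))
    (uu (Real.exp v) * ((1 - Real.exp v) / (1 + Real.exp v))) v := by
  have h1 : HasDerivAt Real.exp (Real.exp v) v := Real.hasDerivAt_exp v
  have h2 : HasDerivAt (fun v => (1 + Real.exp v) ^ 2) (2 * (1 + Real.exp v) * Real.exp v) v := by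
    exact ((h1.const_add 1).pow 2).congr_deriv (by norm_num)
  have h0 : (1 + Real.exp v) ≠ 0 := by positivity
  refine (h1.div h2 (by positivity)).congr_deriv ?_
  unfold uu
  field_simp
  ring

theorem uu_aux_deriv_r (v : ℝ) : HasDerivAt (fun v => (1 - Real.exp v) / (1 + Real.exp v))
    (-2 * uu (Real.exp v)) v := by
  have h1 : HasDerivAt Real.exp (Real.exp v) v := Real.hasDerivAt_exp v
  have h0 : (1 + Real.exp v) ≠ 0 := by positivity
  refine ((h1.const_sub 1).div (h1.const_add 1) h0).congr_deriv ?_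
  unfold uu
  field_simp
  ring

theorem second_diff_u (m : ℕ) (hm : 1 ≤ m) : ∃ C : ℝ, 0 ≤ C ∧ ∀ y : ℝ, 0 < y →
    ∀ h : ℝ, 0 < h → h ≤ 1 →
    |((uu (y * Real.exp h))^m + (uu (y * Real.exp (-h)))^m - 2 * (uu y)^m) / h^2
      - ((m:ℝ)^2 * (uu y)^m - 2*m*(2*m+1) * (uu y)^(m+1))| ≤ C * h * uu y := by
  refine ⟨2 * ((m:ℝ)^2 * (m * 6) + 2*m*(2*m+1) * ((m + 1) * 6)), by positivity, ?_⟩
  intro y hy h hh hh1
  have hgd : ∀ v, HasDerivAt (fun v => (uu (Real.exp v)) ^ m)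
      (m * (uu (Real.exp v)) ^ m * ((1 - Real.exp v) / (1 + Real.exp v))) v := by
    intro v
    refine ((uu_aux_deriv v).pow m).congr_deriv ?_
    obtain ⟨k, rfl⟩ : ∃ k, m = k + 1 := ⟨m - 1, by omega⟩
    rw [Nat.add_sub_cancel, pow_succ]
    ring
  have hgd1 : ∀ v, HasDerivAt (fun v => m * (uu (Real.exp v)) ^ m * ((1 - Real.exp v) / (1 + Real.exp v)))
      ((m:ℝ)^2 * (uu (Real.exp v))^m - 2*m*(2*m+1) * (uu (Real.exp v))^(m+1)) v := by
    intro v
    have h1 := ((((uu_aux_deriv v).pow m).congr_deriv (show _ =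
      (m * (uu (Real.exp v)) ^ m * ((1 - Real.exp v) / (1 + Real.exp v))) by
        obtain ⟨k, rfl⟩ : ∃ k, m = k + 1 := ⟨m - 1, by omega⟩
        rw [Nat.add_sub_cancel, pow_succ]
        ring)).const_mul (m : ℝ)).mul (uu_aux_deriv_r v)
    refine h1.congr_deriv ?_
    have e1 : ((1 - Real.exp v) / (1 + Real.exp v)) ^ 2 = 1 - 4 * uu (Real.exp v) := by
      unfold uu
      have h0 : (1 + Real.exp v) ≠ 0 := by positivity
      field_simp
      ring
    have e2 : (m : ℝ) * (m * (uu (Real.exp v)) ^ m * ((1 - Real.exp v) / (1 + Real.exp v))) *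
        ((1 - Real.exp v) / (1 + Real.exp v)) = (m : ℝ) ^ 2 * (uu (Real.exp v)) ^ m *
        ((1 - Real.exp v) / (1 + Real.exp v)) ^ 2 := by ring
    rw [e2, e1, Pi.pow_apply]
    ring
  set v := Real.log y with hv
  have hvy : Real.exp v = y := Real.exp_log hy
  have hbound : ∀ s, |s| ≤ h →
      |((m:ℝ)^2 * (uu (Real.exp (v + s)))^m - 2*m*(2*m+1) * (uu (Real.exp (v + s)))^(m+1)) -
        ((m:ℝ)^2 * (uu y)^m - 2*m*(2*m+1) * (uu y)^(m+1))| ≤
      ((m:ℝ)^2 * (m * 6) + 2*m*(2*m+1) * ((m + 1) * 6)) * h * uu y := by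
    intro s hs
    have hs1 : |s| ≤ 1 := hs.trans hh1
    rw [Real.exp_add, hvy]
    have hl := uu_aux_lip y s hy hs1
    have hu := uu_aux_pos y hy
    have hu' := uu_aux_pos (y * Real.exp s) (by positivity)
    have hl2 : |uu (y * Real.exp s) - uu y| ≤ 6 * h * uu y :=
      hl.trans (by gcongr; exact hu.1.le)
    have p1 := uu_aux_pow m _ _ hu'.1.le hu'.2 hu.1.le hu.2
    have p2 := uu_aux_pow (m + 1) _ _ hu'.1.le hu'.2 hu.1.le hu.2
    have e : ((m:ℝ)^2 * (uu (y * Real.exp s))^m - 2*m*(2*m+1) * (uu (y * Real.exp s))^(m+1)) -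
        ((m:ℝ)^2 * (uu y)^m - 2*m*(2*m+1) * (uu y)^(m+1)) =
        (m:ℝ)^2 * ((uu (y * Real.exp s))^m - (uu y)^m) +
          -(2*m*(2*m+1) * ((uu (y * Real.exp s))^(m+1) - (uu y)^(m+1))) := by ring
    rw [e]
    calc _ ≤ |(m:ℝ)^2 * ((uu (y * Real.exp s))^m - (uu y)^m)| +
          |-(2*m*(2*m+1) * ((uu (y * Real.exp s))^(m+1) - (uu y)^(m+1)))| := abs_add_le _ _
      _ = (m:ℝ)^2 * |(uu (y * Real.exp s))^m - (uu y)^m| +
          2*m*(2*m+1) * |(uu (y * Real.exp s))^(m+1) - (uu y)^(m+1)| := by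
          rw [abs_neg, abs_mul, abs_mul, abs_of_nonneg (show (0:ℝ) ≤ (m:ℝ)^2 by positivity),
            abs_of_nonneg (show (0:ℝ) ≤ 2*m*(2*m+1) by positivity)]
      _ ≤ (m:ℝ)^2 * (m * (6 * h * uu y)) + 2*m*(2*m+1) * (((m + 1 : ℕ) : ℝ) * (6 * h * uu y)) := by
          gcongr
          · exact p1.trans (by gcongr)
          · exact p2.trans (by gcongr)
      _ = _ := by push_cast; ring
  have hsd := uu_aux_sd _ _ _ hgd hgd1 v h _ _ hh hbound
  have e1 : Real.exp (v + h) = y * Real.exp h := by rw [Real.exp_add, hvy]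
  have e2 : Real.exp (v - h) = y * Real.exp (-h) := by rw [sub_eq_add_neg, Real.exp_add, hvy]
  simp only [e1, e2, hvy] at hsd
  have hh2 : 0 < h ^ 2 := by positivity
  have e3 : ((uu (y * Real.exp h))^m + (uu (y * Real.exp (-h)))^m - 2 * (uu y)^m) / h^2
      - ((m:ℝ)^2 * (uu y)^m - 2*m*(2*m+1) * (uu y)^(m+1)) =
      ((uu (y * Real.exp h))^m + (uu (y * Real.exp (-h)))^m - 2 * (uu y)^m -
        h ^ 2 * ((m:ℝ)^2 * (uu y)^m - 2*m*(2*m+1) * (uu y)^(m+1))) / h ^ 2 := by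
    field_simp
  rw [e3, abs_div, abs_of_pos hh2, div_le_iff₀ hh2]
  calc _ ≤ _ := hsd
    _ = _ := by ring

theorem second_diff_log : ∃ C : ℝ, 0 ≤ C ∧ ∀ y : ℝ, 0 < y → ∀ h : ℝ, 0 < h → h ≤ 1 →
    |(Real.log (1 + y * Real.exp h) + Real.log (1 + y * Real.exp (-h)) - 2 * Real.log (1+y)) / h^2
      - uu y| ≤ C * h * uu y := by
  refine ⟨12, by norm_num, ?_⟩
  intro y hy h hh hh1
  have hgd : ∀ v, HasDerivAt (fun v => Real.log (1 + Real.exp v))
      (Real.exp v / (1 + Real.exp v)) v := by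
    intro v
    exact ((Real.hasDerivAt_exp v).const_add 1).log (by positivity)
  have hgd1 : ∀ v, HasDerivAt (fun v => Real.exp v / (1 + Real.exp v)) (uu (Real.exp v)) v := by
    intro v
    have h1 : HasDerivAt Real.exp (Real.exp v) v := Real.hasDerivAt_exp v
    have h0 : (1 + Real.exp v) ≠ 0 := by positivity
    refine (h1.div (h1.const_add 1) h0).congr_deriv ?_
    unfold uu
    field_simp
    ring
  set v := Real.log y with hv
  have hvy : Real.exp v = y := Real.exp_log hy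
  have hbound : ∀ s, |s| ≤ h → |uu (Real.exp (v + s)) - uu y| ≤ 6 * h * uu y := by
    intro s hs
    rw [Real.exp_add, hvy]
    exact (uu_aux_lip y s hy (hs.trans hh1)).trans (by gcongr; exact (uu_aux_pos y hy).1.le)
  have hsd := uu_aux_sd _ _ _ hgd hgd1 v h _ _ hh hbound
  have e1 : Real.exp (v + h) = y * Real.exp h := by rw [Real.exp_add, hvy]
  have e2 : Real.exp (v - h) = y * Real.exp (-h) := by rw [sub_eq_add_neg, Real.exp_add, hvy]
  simp only [e1, e2, hvy] at hsd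
  have hh2 : 0 < h ^ 2 := by positivity
  have e3 : (Real.log (1 + y * Real.exp h) + Real.log (1 + y * Real.exp (-h)) - 2 * Real.log (1+y)) / h^2
      - uu y = (Real.log (1 + y * Real.exp h) + Real.log (1 + y * Real.exp (-h))
        - 2 * Real.log (1+y) - h ^ 2 * uu y) / h ^ 2 := by
    field_simp
  rw [e3, abs_div, abs_of_pos hh2, div_le_iff₀ hh2]
  calc _ ≤ _ := hsd
    _ = _ := by ring


end Pool.Agent.Helper477.RR
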