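import Mathlib
set_option autoImplicit false
open Filter Topology
open scoped Nat

namespace Pool.Agent.Helper477.RR

theorem lr_hasSum (u : ℝ) : HasSum (fun k : ℕ => u ^ k / (k ! : ℝ)) (Real.exp u) := by
  have h := NormedSpace.expSeries_div_hasSum_exp (u : ℝ)
  rw [← Real.exp_eq_exp_ℝ] at h
  exact h

theorem lr_tail (u : ℝ) (hu : 1 ≤ u) :
    Real.exp u / 2 ≤ ∑ k ∈ Finset.range (⌈2 * u⌉₊ + 2), u ^ k / (k ! : ℝ) := by
  obtain ⟨N, hN⟩ : ∃ N, N = ⌈2 * u⌉₊ + 2 := ⟨_, rfl⟩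
  rw [← hN]
  have hu0 : 0 < u := by linarith
  have h1 := lr_hasSum u
  have h2 := lr_hasSum (2 * u)
  have e1 := h1.summable.sum_add_tsum_nat_add N
  rw [h1.tsum_eq] at e1
  have e2 := h2.summable.sum_add_tsum_nat_add N
  rw [h2.tsum_eq] at e2
  have s1 : Summable (fun k : ℕ => u ^ (k + N) / ((k + N)! : ℝ)) :=
    (summable_nat_add_iff N).2 h1.summable
  have s2 : Summable (fun k : ℕ => (2 * u) ^ (k + N) / ((k + N)! : ℝ)) :=
    (summable_nat_add_iff N).2 h2.summable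
  have hN0 : (0 : ℝ) < 2 ^ N := by positivity
  have h3 : ∑' k : ℕ, u ^ (k + N) / ((k + N)! : ℝ) ≤
      (2 ^ N)⁻¹ * ∑' k : ℕ, (2 * u) ^ (k + N) / ((k + N)! : ℝ) := by
    rw [← tsum_mul_left]
    refine s1.tsum_le_tsum (fun k => ?_) (s2.mul_left _)
    rw [mul_pow, pow_add 2 k N]
    have hf : (0 : ℝ) < ((k + N)! : ℝ) := by exact_mod_cast Nat.factorial_pos _
    have h2k : (1 : ℝ) ≤ 2 ^ k := one_le_pow₀ (by norm_num)
    have e3 : (2 ^ N : ℝ)⁻¹ * (2 ^ k * 2 ^ N * u ^ (k + N) / ((k + N)! : ℝ)) =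
        2 ^ k * (u ^ (k + N) / ((k + N)! : ℝ)) := by
      field_simp
    rw [e3]
    have : 0 ≤ u ^ (k + N) / ((k + N)! : ℝ) := by positivity
    nlinarith
  have h4 : ∑' k : ℕ, (2 * u) ^ (k + N) / ((k + N)! : ℝ) ≤ Real.exp (2 * u) := by
    have : 0 ≤ ∑ k ∈ Finset.range N, (2 * u) ^ k / (k ! : ℝ) :=
      Finset.sum_nonneg (fun k _ => by positivity)
    linarith
  have h5 : 2 * Real.exp u ≤ 2 ^ N := by
    have h6 : Real.exp u ≤ 2 ^ (2 * u) := by
      rw [Real.rpow_def_of_pos (by norm_num : (0 : ℝ) < 2)]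
      apply Real.exp_le_exp.2
      have := Real.log_two_gt_d9
      nlinarith
    have h7 : (2 : ℝ) ^ (2 * u) ≤ 2 ^ (⌈2 * u⌉₊ : ℝ) :=
      Real.rpow_le_rpow_of_exponent_le (by norm_num) (Nat.le_ceil _)
    rw [Real.rpow_natCast] at h7
    rw [hN, pow_add]
    have h8 : (0 : ℝ) < 2 ^ ⌈2 * u⌉₊ := by positivity
    nlinarith
  have h6 : (2 ^ N : ℝ)⁻¹ * Real.exp (2 * u) ≤ Real.exp u / 2 := by
    rw [inv_mul_le_iff₀ hN0]
    have h7 : Real.exp (2 * u) = Real.exp u * Real.exp u := by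
      rw [← Real.exp_add]
      congr 1
      ring
    rw [h7]
    have := Real.exp_pos u
    nlinarith
  have h7 : (2 ^ N : ℝ)⁻¹ * ∑' k : ℕ, (2 * u) ^ (k + N) / ((k + N)! : ℝ) ≤
      (2 ^ N : ℝ)⁻¹ * Real.exp (2 * u) := mul_le_mul_of_nonneg_left h4 (by positivity)
  linarith

/-- Growth of the Le Roy function `∑ x^k / (k!)^α`. -/
theorem leroy_growth {α : ℝ} (h1 : 1 ≤ α) :
    ∃ B : ℝ, 0 ≤ B ∧ ∀ x : ℝ, 1 ≤ x →
      Real.exp (α * x ^ (1/α) - B * (1 + Real.log x)) ≤ ∑' k : ℕ, x ^ k / ((k ! : ℝ) ^ α) ∧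
      (∑' k : ℕ, x ^ k / ((k ! : ℝ) ^ α)) ≤ Real.exp (α * x ^ (1/α)) := by
  have hα : 0 < α := by linarith
  refine ⟨5 * α, by positivity, fun x hx => ?_⟩
  have hx0 : 0 < x := by linarith
  obtain ⟨u, hu⟩ : ∃ u, u = x ^ (1 / α) := ⟨_, rfl⟩
  rw [← hu]
  have hu1 : 1 ≤ u := by
    rw [hu]
    exact Real.one_le_rpow hx (by positivity)
  have hu0 : 0 < u := by linarith
  have hux : u ≤ x := by
    rw [hu]
    calc x ^ (1 / α) ≤ x ^ (1 : ℝ) := by
          apply Real.rpow_le_rpow_of_exponent_le hx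
          rw [div_le_one hα]
          exact h1
      _ = x := Real.rpow_one x
  have huα : u ^ α = x := by
    rw [hu, ← Real.rpow_mul hx0.le]
    rw [one_div, inv_mul_cancel₀ hα.ne', Real.rpow_one]
  obtain ⟨a, ha⟩ : ∃ a : ℕ → ℝ, ∀ k, a k = u ^ k / (k ! : ℝ) := ⟨_, fun k => rfl⟩
  have ha0 : ∀ k, 0 < a k := by
    intro k
    rw [ha]
    have : (0 : ℝ) < (k ! : ℝ) := by exact_mod_cast Nat.factorial_pos k
    positivity
  have hterm : ∀ k : ℕ, x ^ k / ((k ! : ℝ) ^ α) = a k ^ α := by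
    intro k
    rw [ha, Real.div_rpow (by positivity) (by positivity), ← huα, ← Real.rpow_natCast (u ^ α) k,
      ← Real.rpow_mul hu0.le, ← Real.rpow_natCast u k, ← Real.rpow_mul hu0.le, mul_comm]
  simp only [hterm]
  have hsum : HasSum a (Real.exp u) := by
    have : a = fun k : ℕ => u ^ k / (k ! : ℝ) := funext ha
    rw [this]
    exact lr_hasSum u
  have hS := Real.exp_pos u
  have hle : ∀ k, a k ≤ Real.exp u := fun k => le_hasSum hsum k (fun j _ => (ha0 j).le)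
  have hup : ∀ k, a k ^ α ≤ Real.exp u ^ (α - 1) * a k := by
    intro k
    have e : a k ^ α = a k ^ (α - 1) * a k := by
      rw [← Real.rpow_add_one (ha0 k).ne']
      congr 1
      ring
    rw [e]
    exact mul_le_mul_of_nonneg_right
      (Real.rpow_le_rpow (ha0 k).le (hle k) (by linarith)) (ha0 k).le
  have hsumm : Summable (fun k => a k ^ α) :=
    Summable.of_nonneg_of_le (fun k => Real.rpow_nonneg (ha0 k).le _) hup
      (hsum.summable.mul_left _)
  constructor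
  · have h2 := lr_tail u hu1
    obtain ⟨N, hN⟩ : ∃ N, N = ⌈2 * u⌉₊ + 2 := ⟨_, rfl⟩
    rw [← hN] at h2
    simp only [← ha] at h2
    have h3 := Real.rpow_sum_le_const_mul_sum_rpow_of_nonneg (s := Finset.range N) (f := a) h1
      (fun k _ => (ha0 k).le)
    rw [Finset.card_range] at h3
    have h4 : ∑ k ∈ Finset.range N, a k ^ α ≤ ∑' k, a k ^ α :=
      hsumm.sum_le_tsum _ (fun k _ => Real.rpow_nonneg (ha0 k).le _)
    have hN2 : (2 : ℝ) ≤ N := by
      have : 2 ≤ N := by omega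
      exact_mod_cast this
    have hN0 : (0 : ℝ) < N := by linarith
    have hN5 : (N : ℝ) ≤ 5 * x := by
      have h5 := (Nat.ceil_lt_add_one (by positivity : 0 ≤ 2 * u)).le
      rw [hN]
      push_cast
      linarith
    have h5 : (Real.exp u / 2) ^ α ≤ (∑ k ∈ Finset.range N, a k) ^ α :=
      Real.rpow_le_rpow (by positivity) h2 hα.le
    have h6 : (Real.exp u / 2) ^ α ≤ (N : ℝ) ^ (α - 1) * ∑' k, a k ^ α := by
      have h7 : 0 ≤ (N : ℝ) ^ (α - 1) := by positivity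
      exact h5.trans (h3.trans (mul_le_mul_of_nonneg_left h4 h7))
    have hlogN : Real.log N ≤ 4 + Real.log x := by
      have h7 := Real.log_le_log hN0 hN5
      rw [Real.log_mul (by norm_num) hx0.ne'] at h7
      have h8 := Real.log_le_sub_one_of_pos (by norm_num : (0 : ℝ) < 5)
      linarith
    have hlogx : 0 ≤ Real.log x := Real.log_nonneg hx
    have h7 : Real.exp (α * u - 5 * α * (1 + Real.log x)) * (N : ℝ) ^ (α - 1) ≤
        (Real.exp u / 2) ^ α := by
      have e1 : Real.exp u / 2 = Real.exp (u - Real.log 2) := by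
        rw [Real.exp_sub, Real.exp_log (by norm_num)]
      rw [e1, ← Real.exp_mul, Real.rpow_def_of_pos hN0, ← Real.exp_add]
      apply Real.exp_le_exp.2
      have h8 := Real.log_two_lt_d9
      have h9 : Real.log N * (α - 1) ≤ (4 + Real.log x) * (α - 1) :=
        mul_le_mul_of_nonneg_right hlogN (by linarith)
      have h10 : Real.log 2 * α ≤ 1 * α := mul_le_mul_of_nonneg_right (by linarith) hα.le
      nlinarith [mul_nonneg hα.le hlogx]
    have hNp : 0 < (N : ℝ) ^ (α - 1) := Real.rpow_pos_of_pos hN0 _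
    have h8 : Real.exp (α * u - 5 * α * (1 + Real.log x)) * (N : ℝ) ^ (α - 1) ≤
        (∑' k, a k ^ α) * (N : ℝ) ^ (α - 1) := by
      rw [mul_comm (∑' k, a k ^ α)]
      exact h7.trans h6
    exact le_of_mul_le_mul_right h8 hNp
  · calc ∑' k, a k ^ α ≤ ∑' k, Real.exp u ^ (α - 1) * a k :=
          hsumm.tsum_le_tsum hup (hsum.summable.mul_left _)
      _ = Real.exp u ^ (α - 1) * Real.exp u := by rw [tsum_mul_left, hsum.tsum_eq]
      _ = Real.exp (α * u) := by
          rw [← Real.exp_mul, ← Real.exp_add]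
          congr 1
          ring


end Pool.Agent.Helper477.RR
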