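import Mathlib
set_option autoImplicit false
open Filter Topology
open scoped Nat

namespace Pool.Agent.Helper477.RR

theorem leroy_aux1 {α : ℝ} (h1 : 1 ≤ α) (k : ℕ) : ((1 : ℝ) / (k ! : ℝ)) ^ α ≤ 1 / (k ! : ℝ) := by
  have hk : (1 : ℝ) ≤ (k ! : ℝ) := by exact_mod_cast Nat.succ_le_of_lt (Nat.factorial_pos k)
  have h := Real.rpow_le_rpow_of_exponent_ge (x := (1 : ℝ) / (k ! : ℝ)) (by positivity)
    ((div_le_one (by positivity)).2 hk) h1
  rwa [Real.rpow_one] at h

theorem leroy_summable {α : ℝ} (h1 : 1 ≤ α) (x : ℝ) :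
    Summable (fun k : ℕ => x ^ k / ((k ! : ℝ) ^ α)) := by
  refine Summable.of_norm_bounded (Real.summable_pow_div_factorial |x|) ?_
  intro k
  have h2 := leroy_aux1 h1 k
  rw [Real.div_rpow zero_le_one (by positivity), Real.one_rpow] at h2
  rw [norm_div, norm_pow, Real.norm_eq_abs, Real.norm_eq_abs,
    abs_of_pos (Real.rpow_pos_of_pos (by positivity) α), div_eq_mul_one_div,
    div_eq_mul_one_div (|x| ^ k) ((k ! : ℕ) : ℝ)]
  exact mul_le_mul_of_nonneg_left h2 (by positivity)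

theorem leroy_lim (k : ℕ) : Tendsto (fun N : ℕ => ((N.choose k : ℕ) : ℝ) / (N:ℝ)^k) atTop
    (𝓝 (1 / (k ! : ℝ))) := by
  have h : Tendsto (fun N : ℕ => ((N.descFactorial k : ℕ) : ℝ) / (N:ℝ)^k) atTop (𝓝 1) := by
    induction k with
    | zero => simp
    | succ k ih =>
      have h2 : Tendsto (fun N : ℕ => ((N - k : ℕ) : ℝ) / (N:ℝ)) atTop (𝓝 1) := by
        have h3 : Tendsto (fun N : ℕ => 1 - (k : ℝ) / (N:ℝ)) atTop (𝓝 (1 - 0)) :=
          tendsto_const_nhds.sub (tendsto_const_div_atTop_nhds_zero_nat _)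
        rw [sub_zero] at h3
        refine h3.congr' ?_
        filter_upwards [eventually_ge_atTop (k + 1)] with N hN
        have hN0 : (N : ℝ) ≠ 0 := by
          have : 0 < N := by omega
          exact_mod_cast this.ne'
        rw [Nat.cast_sub (by omega)]
        field_simp
      have h4 := h2.mul ih
      rw [mul_one] at h4
      refine h4.congr ?_
      intro N
      rw [Nat.descFactorial_succ, Nat.cast_mul, pow_succ']
      rw [div_mul_div_comm]
  have h5 := h.mul_const (1 / (k ! : ℝ))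
  rw [one_mul] at h5
  refine h5.congr ?_
  intro N
  have hk : (k ! : ℝ) ≠ 0 := by exact_mod_cast (Nat.factorial_pos k).ne'
  rw [Nat.descFactorial_eq_factorial_mul_choose, Nat.cast_mul]
  field_simp

theorem tendsto_leroy {α : ℝ} (h1 : 1 ≤ α) (x : ℝ) :
    Tendsto (fun N : ℕ => ∑ k ∈ Finset.range (N+1),
      (((N.choose k : ℕ) : ℝ) / (N:ℝ)^k) ^ α * x ^ k) atTop
      (𝓝 (∑' k : ℕ, x ^ k / ((k ! : ℝ) ^ α))) := by
  have hα : 0 < α := by linarith
  have hfin : ∀ N : ℕ, ∑' k : ℕ, (((N.choose k : ℕ) : ℝ) / (N:ℝ)^k) ^ α * x ^ k =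
      ∑ k ∈ Finset.range (N+1), (((N.choose k : ℕ) : ℝ) / (N:ℝ)^k) ^ α * x ^ k := by
    intro N
    refine tsum_eq_sum ?_
    intro k hk
    have hk' : N < k := by
      rw [Finset.mem_range] at hk; omega
    rw [Nat.choose_eq_zero_of_lt hk', Nat.cast_zero, zero_div, Real.zero_rpow hα.ne', zero_mul]
  have hmain := tendsto_tsum_of_dominated_convergence (𝓕 := atTop)
    (f := fun (N : ℕ) (k : ℕ) => (((N.choose k : ℕ) : ℝ) / (N:ℝ)^k) ^ α * x ^ k)
    (g := fun k : ℕ => x ^ k / ((k ! : ℝ) ^ α))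
    (bound := fun k : ℕ => |x| ^ k / (k ! : ℝ)) (Real.summable_pow_div_factorial |x|) ?_ ?_
  · simpa only [hfin] using hmain
  · intro k
    have h2 := ((leroy_lim k).rpow_const (p := α) (Or.inr hα.le)).mul_const (x ^ k)
    rw [Real.div_rpow zero_le_one (by positivity), Real.one_rpow, one_div_mul_eq_div] at h2
    exact h2
  · refine Eventually.of_forall fun N k => ?_
    have h0 : (0 : ℝ) ≤ ((N.choose k : ℕ) : ℝ) / (N:ℝ)^k := by positivity
    have h2 : ((N.choose k : ℕ) : ℝ) / (N:ℝ)^k ≤ 1 / (k ! : ℝ) := by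
      refine div_le_of_le_mul₀ (by positivity) (by positivity) ?_
      rw [one_div_mul_eq_div]
      exact Nat.choose_le_pow_div k N
    have h3 : (((N.choose k : ℕ) : ℝ) / (N:ℝ)^k) ^ α ≤ 1 / (k ! : ℝ) :=
      (Real.rpow_le_rpow h0 h2 hα.le).trans (leroy_aux1 h1 k)
    rw [norm_mul, norm_pow, Real.norm_eq_abs, Real.norm_eq_abs,
      abs_of_nonneg (Real.rpow_nonneg h0 α), div_eq_mul_one_div (|x| ^ k), mul_comm]
    exact mul_le_mul_of_nonneg_left h3 (by positivity)


end Pool.Agent.Helper477.RR
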