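import Mathlib

set_option autoImplicit false

open Finset

namespace Pool.Agent.Helper477.RR

/-- For `ρ > 1/2` the partial sums of the expansion of `1 - cos (π ρ)` eventually exceed `1`. -/
theorem partial_sums_gt_one {ρ : ℝ} (h1 : 1/2 < ρ) (h2 : ρ < 1) (Q : ℕ → ℝ) (hQ1 : Q 1 = ρ^2)
    (hQ : ∀ m : ℕ, 1 ≤ m → Q (m+1) = ((m:ℝ)^2 - ρ^2) * Q m / (2*m*(2*m+1))) :
    ∃ M : ℕ, 1 ≤ M ∧ 1 < ∑ m ∈ Finset.Icc 1 M, (4:ℝ)^m / (2*m) * Q m := by
  have hρ0 : 0 < ρ := by linarith
  set c : ℕ → ℝ := fun m => (4:ℝ)^m / (2*m) * Q m with hc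
  have hc1 : c 1 = 2 * ρ^2 := by simp only [hc, hQ1]; norm_num
  have hrec : ∀ m : ℕ, 1 ≤ m →
      c (m+1) = c m * (4 * ((m:ℝ)^2 - ρ^2) / ((2*m+1) * (2*m+2))) := by
    intro m hm
    have hm' : (1:ℝ) ≤ m := by exact_mod_cast hm
    simp only [hc]
    rw [hQ m hm]
    push_cast
    field_simp
    ring
  have hpos : ∀ m : ℕ, 1 ≤ m → 0 < c m := by
    intro m hm
    induction m, hm using Nat.le_induction with
    | base => rw [hc1]; positivity
    | succ m hm ih =>
      rw [hrec m hm]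
      have hm' : (1:ℝ) ≤ m := by exact_mod_cast hm
      have : 0 < (m:ℝ)^2 - ρ^2 := by nlinarith
      positivity
  set K := 6*ρ^2/(1+2*ρ^2) with hK
  have hK1 : 1 < K := by
    rw [hK, lt_div_iff₀ (by positivity)]
    nlinarith
  -- E m = c (m+1) (m+1) / (2 ρ^2)
  set E : ℕ → ℝ := fun m => c (m+1) * (m+1) / (2*ρ^2) with hE
  have hE0 : E 0 = 1 := by
    simp only [hE, zero_add, hc1]
    have : ρ^2 ≠ 0 := by positivity
    push_cast
    field_simp
    norm_num
  have hstep : ∀ m : ℕ, K * (E m - E (m+1)) ≤ c (m+1) := by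
    intro m
    have hcm := hpos (m+1) (by omega)
    have hr := hrec (m+1) (by omega)
    have hEE : E m - E (m+1)
        = c (m+1) * (((m:ℝ)+1) + 2*ρ^2) / (2*ρ^2*(2*((m:ℝ)+1)+1)) := by
      simp only [hE]
      rw [hr]
      push_cast
      have : ρ^2 ≠ 0 := by positivity
      field_simp
      ring
    rw [hEE, hK]
    have hm0 : (0:ℝ) ≤ m := by positivity
    rw [div_mul_div_comm, div_le_iff₀ (by positivity)]
    have hkey : 6*ρ^2 * (((m:ℝ)+1) + 2*ρ^2) ≤ (1+2*ρ^2) * (2*ρ^2*(2*((m:ℝ)+1)+1)) := by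
      have : (1+2*ρ^2) * (2*ρ^2*(2*((m:ℝ)+1)+1)) - 6*ρ^2 * (((m:ℝ)+1) + 2*ρ^2)
          = 2*ρ^2 * (m * (4*ρ^2 - 1)) := by ring
      have h3 : 0 ≤ 2*ρ^2 * (m * (4*ρ^2 - 1)) := by
        have : 0 ≤ 4*ρ^2 - 1 := by nlinarith
        positivity
      linarith
    have := mul_le_mul_of_nonneg_left hkey hcm.le
    linarith
  have hsum : ∀ M : ℕ, K * (1 - E M) ≤ ∑ m ∈ Finset.Icc 1 M, c m := by
    intro M
    induction M with
    | zero => simp [hE0]
    | succ M ih =>
      rw [Finset.sum_Icc_succ_top (by omega)]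
      have := hstep M
      linarith
  -- decay of E
  have hdec : ∀ m : ℕ, 1 ≤ m → (c m * m)^2 * m ≤ (2*ρ^2)^2 := by
    intro m hm
    induction m, hm using Nat.le_induction with
    | base => rw [hc1]; norm_num
    | succ m hm ih =>
      refine le_trans ?_ ih
      have hm' : (1:ℝ) ≤ m := by exact_mod_cast hm
      have hcm := hpos m hm
      rw [hrec m hm]
      push_cast
      have e : c m * (4 * ((m:ℝ)^2 - ρ^2) / ((2*m+1) * (2*m+2))) * (m+1)
          = (c m * m) * (2 * ((m:ℝ)^2 - ρ^2) / ((2*m+1) * m)) := by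
        field_simp
        ring
      rw [e, mul_pow, mul_assoc]
      apply mul_le_mul_of_nonneg_left _ (by positivity)
      have hb : 2 * ((m:ℝ)^2 - ρ^2) / ((2*m+1) * m) ≤ 2*m/(2*m+1) := by
        rw [div_le_div_iff₀ (by positivity) (by positivity)]
        have : 0 ≤ ρ^2 := by positivity
        nlinarith [mul_nonneg this (by positivity : (0:ℝ) ≤ 2*(2*m+1))]
      have hb0 : 0 ≤ 2 * ((m:ℝ)^2 - ρ^2) / ((2*m+1) * m) := by
        apply div_nonneg _ (by positivity)
        nlinarith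
      calc (2 * ((m:ℝ)^2 - ρ^2) / ((2*m+1) * m))^2 * (m+1)
          ≤ (2*m/(2*m+1))^2 * (m+1) :=
            mul_le_mul_of_nonneg_right (pow_le_pow_left₀ hb0 hb 2) (by positivity)
        _ ≤ m := by
            rw [div_pow, div_mul_eq_mul_div, div_le_iff₀ (by positivity)]
            nlinarith
  -- choose M
  obtain ⟨M, hM⟩ := exists_nat_gt ((K/(K-1))^2)
  have hKp : 0 < K - 1 := by linarith
  have hM1 : 1 ≤ M := by
    by_contra h
    have : M = 0 := by omega
    rw [this] at hM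
    have : 0 ≤ (K/(K-1))^2 := by positivity
    simp at hM
    linarith
  refine ⟨M, hM1, lt_of_lt_of_le ?_ (hsum M)⟩
  have hM' : (1:ℝ) ≤ M := by exact_mod_cast hM1
  have hEM : (E M)^2 * (M+1) ≤ 1 := by
    have h3 := hdec (M+1) (by omega)
    push_cast at h3
    simp only [hE]
    have : (c (M+1) * (M+1) / (2*ρ^2))^2 * (M+1) = ((c (M+1) * (M+1))^2 * (M+1)) / (2*ρ^2)^2 := by
      rw [div_pow]; ring
    rw [this, div_le_one (by positivity)]
    exact h3
  have hE0' : 0 ≤ E M := by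
    simp only [hE]
    have := hpos (M+1) (by omega)
    positivity
  have hlt : E M < (K-1)/K := by
    by_contra hge
    push Not at hge
    have h4 : ((K-1)/K)^2 ≤ (E M)^2 := pow_le_pow_left₀ (by positivity) hge 2
    have h5 : ((K-1)/K)^2 * (K/(K-1))^2 = 1 := by
      have : K ≠ 0 := by positivity
      have : K - 1 ≠ 0 := hKp.ne'
      field_simp
    have h6 : 0 < ((K-1)/K)^2 := by positivity
    have h7 : ((K-1)/K)^2 * (K/(K-1))^2 < ((K-1)/K)^2 * M := mul_lt_mul_of_pos_left hM h6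
    have h8 : ((K-1)/K)^2 * M ≤ (E M)^2 * (M+1) := by
      apply mul_le_mul h4 (by linarith) (by positivity) (by positivity)
    linarith
  have hKpos : 0 < K := by linarith
  rw [lt_div_iff₀ hKpos] at hlt
  nlinarith

end Pool.Agent.Helper477.RR
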