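import Mathlib
import Pool.Agent.Helper477.RR.Mono
import Pool.Agent.Helper477.RR.Growth
import Pool.Agent.Helper477.RR.Fac
import Pool.Agent.Helper477.RR.Asym
import Pool.Agent.Helper477.RR.Tannery
import Pool.Agent.Helper477.RR.Tele

set_option autoImplicit false

open Polynomial Finset Filter Topology
open scoped Nat

namespace Pool.Agent.Helper477.RR

theorem uu_pos {y : ℝ} (hy : 0 < y) : 0 < uu y := by unfold uu; positivity

theorem uu_le {y : ℝ} (hy : 0 < y) : uu y ≤ 1/4 := by
  unfold uu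
  rw [div_le_div_iff₀ (by positivity) (by norm_num)]
  nlinarith [sq_nonneg (1-y)]

theorem uu_le_log {y : ℝ} (hy : 0 < y) : uu y ≤ Real.log (1+y) := by
  have h1 : Real.log (1+y) ≥ y/(1+y) := by
    have := Real.one_sub_inv_le_log_of_pos (by linarith : 0 < 1 + y)
    have e : 1 - (1+y)⁻¹ = y/(1+y) := by field_simp; ring
    rw [e] at this
    exact this
  refine le_trans ?_ h1
  unfold uu
  rw [div_le_div_iff₀ (by positivity) (by positivity)]
  nlinarith [mul_pos hy hy, mul_pos (mul_pos hy hy) hy]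

/-- the factor inequality at the negative point -/
theorem factor_neg {y : ℝ} (hy : 0 < y) (M : ℕ) :
    |1 - y| ≤ Real.exp (Real.log (1+y) - 1/2 * ∑ m ∈ Finset.Icc 1 M, (4:ℝ)^m / m * (uu y)^m) := by
  rcases eq_or_ne y 1 with rfl | hne
  · simp; positivity
  have habs : 0 < |1 - y| := abs_pos.2 (sub_ne_zero.2 (Ne.symm hne))
  rw [← Real.exp_log habs, Real.exp_le_exp]
  have h1y : 0 < 1 + y := by linarith
  set t := 4 * uu y with ht
  have ht0 : 0 < t := by have := uu_pos hy; positivity
  have ht1 : t < 1 := by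
    rw [ht]; unfold uu
    rw [← mul_div_assoc, div_lt_one (by positivity)]
    have : 0 < (1-y)^2 := by
      have : 1 - y ≠ 0 := sub_ne_zero.2 (Ne.symm hne)
      positivity
    nlinarith
  have h1t : 1 - t = (|1-y| / (1+y))^2 := by
    rw [div_pow, sq_abs, ht]; unfold uu
    field_simp
    ring
  have hlog : Real.log (1 - t) = 2 * (Real.log |1-y| - Real.log (1+y)) := by
    rw [h1t, Real.log_pow, Real.log_div habs.ne' h1y.ne']
    norm_num
  have hser := Real.hasSum_pow_div_log_of_abs_lt_one (x := t) (by rw [abs_of_pos ht0]; exact ht1)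
  have hpart : ∑ i ∈ Finset.range M, t^(i+1)/((i:ℝ)+1) ≤ - Real.log (1 - t) := by
    apply sum_le_hasSum _ _ hser
    intro i _
    positivity
  have hre : ∑ m ∈ Finset.Icc 1 M, (4:ℝ)^m / m * (uu y)^m
      = ∑ i ∈ Finset.range M, t^(i+1)/((i:ℝ)+1) := by
    clear hpart
    induction M with
    | zero => simp
    | succ M ih =>
      rw [Finset.sum_Icc_succ_top (by omega), Finset.sum_range_succ, ih, ht, mul_pow]
      push_cast
      ring
  rw [hre]
  linarith

theorem abs_sum_le (s : Multiset ℝ) (p q : ℝ → ℝ) (h : ∀ t ∈ s, |p t| ≤ q t) :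
    |(s.map p).sum| ≤ (s.map q).sum := by
  induction s using Multiset.induction with
  | empty => simp
  | cons a s ih =>
    rw [Multiset.map_cons, Multiset.sum_cons, Multiset.map_cons, Multiset.sum_cons]
    refine le_trans (abs_add_le _ _) ?_
    exact add_le_add (h a (Multiset.mem_cons_self a s))
      (ih (fun t ht => h t (Multiset.mem_cons_of_mem ht)))

theorem sum_le_sum' (s : Multiset ℝ) (p q : ℝ → ℝ) (h : ∀ t ∈ s, p t ≤ q t) :
    (s.map p).sum ≤ (s.map q).sum := by
  induction s using Multiset.induction with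
  | empty => simp
  | cons a s ih =>
    rw [Multiset.map_cons, Multiset.sum_cons, Multiset.map_cons, Multiset.sum_cons]
    exact add_le_add (h a (Multiset.mem_cons_self a s))
      (ih (fun t ht => h t (Multiset.mem_cons_of_mem ht)))

noncomputable def LL (s : Multiset ℝ) (x : ℝ) : ℝ := (s.map (fun t => Real.log (1 + x/t))).sum
noncomputable def UU (s : Multiset ℝ) (m : ℕ) (x : ℝ) : ℝ := (s.map (fun t => (uu (x/t))^m)).sum

theorem UU_nonneg (s : Multiset ℝ) (hs : ∀ t ∈ s, 0 < t) (m : ℕ) {x : ℝ} (hx : 0 < x) :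
    0 ≤ UU s m x := by
  have := sum_le_sum' s (fun _ => 0) (fun t => (uu (x/t))^m) (fun t ht => by
    have := uu_pos (div_pos hx (hs t ht)); positivity)
  simpa [UU] using this

theorem UU_le_one (s : Multiset ℝ) (hs : ∀ t ∈ s, 0 < t) {m : ℕ} (hm : 1 ≤ m) {x : ℝ}
    (hx : 0 < x) : UU s m x ≤ UU s 1 x := by
  apply sum_le_sum'
  intro t ht
  have h0 := uu_pos (div_pos hx (hs t ht))
  have h1 := uu_le (div_pos hx (hs t ht))
  exact pow_le_pow_of_le_one h0.le (by linarith) hm

theorem UU_le_LL (s : Multiset ℝ) (hs : ∀ t ∈ s, 0 < t) {x : ℝ}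
    (hx : 0 < x) : UU s 1 x ≤ LL s x := by
  apply sum_le_sum'
  intro t ht
  rw [pow_one]
  exact uu_le_log (div_pos hx (hs t ht))

theorem LL_sd (s : Multiset ℝ) (hs : ∀ t ∈ s, 0 < t) (C : ℝ)
    (hC : ∀ y : ℝ, 0 < y → ∀ h : ℝ, 0 < h → h ≤ 1 →
      |(Real.log (1 + y * Real.exp h) + Real.log (1 + y * Real.exp (-h)) - 2 * Real.log (1+y))
        / h^2 - uu y| ≤ C * h * uu y) {x : ℝ} (hx : 0 < x) {h : ℝ} (h0 : 0 < h) (h1 : h ≤ 1) :
    |(LL s (x * Real.exp h) + LL s (x * Real.exp (-h)) - 2 * LL s x) / h^2 - UU s 1 x|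
      ≤ C * h * UU s 1 x := by
  have e1 : (LL s (x * Real.exp h) + LL s (x * Real.exp (-h)) - 2 * LL s x) / h^2 - UU s 1 x
      = (s.map (fun t => (Real.log (1 + x/t * Real.exp h) + Real.log (1 + x/t * Real.exp (-h))
        - 2 * Real.log (1+x/t)) / h^2 - uu (x/t))).sum := by
    unfold LL UU
    induction s using Multiset.induction with
    | empty => simp
    | cons a s ih =>
      have ih' := ih (fun t ht => hs t (Multiset.mem_cons_of_mem ht))
      simp only [Multiset.map_cons, Multiset.sum_cons]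
      rw [← ih']
      rw [show x * Real.exp h / a = x/a * Real.exp h by ring,
        show x * Real.exp (-h) / a = x/a * Real.exp (-h) by ring]
      ring
  have e2 : C * h * UU s 1 x = (s.map (fun t => C * h * uu (x/t))).sum := by
    unfold UU
    rw [Multiset.sum_map_mul_left]
    simp
  rw [e1, e2]
  apply abs_sum_le
  intro t ht
  exact hC (x/t) (div_pos hx (hs t ht)) h h0 h1

theorem UU_sd (s : Multiset ℝ) (hs : ∀ t ∈ s, 0 < t) (m : ℕ) (C : ℝ)
    (hC : ∀ y : ℝ, 0 < y → ∀ h : ℝ, 0 < h → h ≤ 1 →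
    |((uu (y * Real.exp h))^m + (uu (y * Real.exp (-h)))^m - 2 * (uu y)^m) / h^2
      - ((m:ℝ)^2 * (uu y)^m - 2*m*(2*m+1) * (uu y)^(m+1))| ≤ C * h * uu y)
    {x : ℝ} (hx : 0 < x) {h : ℝ} (h0 : 0 < h) (h1 : h ≤ 1) :
    |(UU s m (x * Real.exp h) + UU s m (x * Real.exp (-h)) - 2 * UU s m x) / h^2
      - ((m:ℝ)^2 * UU s m x - 2*m*(2*m+1) * UU s (m+1) x)| ≤ C * h * UU s 1 x := by
  have e1 : (UU s m (x * Real.exp h) + UU s m (x * Real.exp (-h)) - 2 * UU s m x) / h^2
      - ((m:ℝ)^2 * UU s m x - 2*m*(2*m+1) * UU s (m+1) x)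
      = (s.map (fun t => ((uu (x/t * Real.exp h))^m + (uu (x/t * Real.exp (-h)))^m
          - 2 * (uu (x/t))^m) / h^2
        - ((m:ℝ)^2 * (uu (x/t))^m - 2*m*(2*m+1) * (uu (x/t))^(m+1)))).sum := by
    unfold UU
    induction s using Multiset.induction with
    | empty => simp
    | cons a s ih =>
      have ih' := ih (fun t ht => hs t (Multiset.mem_cons_of_mem ht))
      simp only [Multiset.map_cons, Multiset.sum_cons]
      rw [← ih']
      rw [show x * Real.exp h / a = x/a * Real.exp h by ring,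
        show x * Real.exp (-h) / a = x/a * Real.exp (-h) by ring]
      ring
  have e2 : C * h * UU s 1 x = (s.map (fun t => C * h * uu (x/t))).sum := by
    unfold UU
    rw [Multiset.sum_map_mul_left]
    simp
  rw [e1, e2]
  apply abs_sum_le
  intro t ht
  exact hC (x/t) (div_pos hx (hs t ht)) h h0 h1

theorem exp_LL (s : Multiset ℝ) (hs : ∀ t ∈ s, 0 < t) {x : ℝ} (hx : 0 < x) :
    (s.map (fun t => 1 + x/t)).prod = Real.exp (LL s x) := by
  unfold LL
  induction s using Multiset.induction with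
  | empty => simp
  | cons a s ih =>
    have ih' := ih (fun t ht => hs t (Multiset.mem_cons_of_mem ht))
    simp only [Multiset.map_cons, Multiset.prod_cons, Multiset.sum_cons]
    rw [ih', Real.exp_add, Real.exp_log]
    have := div_pos hx (hs a (Multiset.mem_cons_self a s))
    linarith

theorem neg_prod_le (s : Multiset ℝ) (hs : ∀ t ∈ s, 0 < t) {x : ℝ} (hx : 0 < x) (M : ℕ) :
    |(s.map (fun t => 1 - x/t)).prod|
      ≤ Real.exp (LL s x - 1/2 * ∑ m ∈ Finset.Icc 1 M, (4:ℝ)^m / m * UU s m x) := by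
  unfold LL UU
  induction s using Multiset.induction with
  | empty => simp
  | cons a s ih =>
    have ih' := ih (fun t ht => hs t (Multiset.mem_cons_of_mem ht))
    simp only [Multiset.map_cons, Multiset.prod_cons, Multiset.sum_cons]
    rw [abs_mul]
    have hf := factor_neg (div_pos hx (hs a (Multiset.mem_cons_self a s))) M
    have := mul_le_mul hf ih' (abs_nonneg _) (Real.exp_pos _).le
    rw [← Real.exp_add] at this
    refine le_trans this (le_of_eq ?_)
    congr 1
    simp only [mul_add, Finset.sum_add_distrib]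
    ring

end Pool.Agent.Helper477.RR
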