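import Mathlib
import Pool.Agent.Helper477.RR.Small

set_option autoImplicit false

open Polynomial Finset Filter Topology
open scoped Nat

namespace Pool.Agent.Helper477.RR

/-- the approximating polynomials of the Le Roy function -/
noncomputable def PN (α : ℝ) (N : ℕ) (x : ℝ) : ℝ :=
  ∑ k ∈ Finset.range (N+1), (((N.choose k : ℕ) : ℝ) / (N:ℝ)^k) ^ α * x ^ k

/-- the Le Roy function -/
noncomputable def lr (α x : ℝ) : ℝ := ∑' k : ℕ, x ^ k / ((k ! : ℝ) ^ α)

theorem exists_factor {α : ℝ} (hA : Pres (fun x => x ^ α)) (N : ℕ) (hN : 1 ≤ N) :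
    ∃ s : Multiset ℝ, (∀ t ∈ s, 0 < t) ∧ ∀ x, PN α N x = (s.map (fun t => 1 + x/t)).prod := by
  have hN' : (0:ℝ) < N := by exact_mod_cast hN
  obtain ⟨g1, g2⟩ := hA.rr (d := N) (a := fun k => ((N.choose k : ℕ) : ℝ) / (N:ℝ)^k)
    (fun j hj => by
      have : (0:ℝ) < ((N.choose j : ℕ) : ℝ) := by exact_mod_cast Nat.choose_pos hj
      positivity)
    (by
      intro z hz
      have hs : ∑ j ∈ range (N+1), ((((N.choose j : ℕ) : ℝ) / (N:ℝ)^j : ℝ) : ℂ) * z ^ j
          = (z / N + 1)^N := by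
        rw [add_pow]
        apply Finset.sum_congr rfl
        intro j _
        push_cast
        rw [div_pow, one_pow]
        ring
      rw [hs] at hz
      have h3 : z / N + 1 = 0 := by
        by_contra hne
        exact pow_ne_zero _ hne hz
      have hNC : (N:ℂ) ≠ 0 := by exact_mod_cast hN'.ne'
      have : z = -(N:ℂ) := by
        field_simp at h3
        linear_combination h3
      rw [this]; simp)
  obtain ⟨s, hs, he⟩ := exists_roots g1 g2
  refine ⟨s, hs, ?_⟩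
  have hval : ∀ x, PN α N x = (((N.choose N : ℕ) : ℝ) / (N:ℝ)^N) ^ α
      * (s.map (fun t => x + t)).prod := by
    intro x
    have := poly_eval N (fun k => (((N.choose k : ℕ) : ℝ) / (N:ℝ)^k) ^ α) x
    rw [he, eval_prod] at this
    rw [this]
    rfl
  have h0 : PN α N 0 = 1 := by
    unfold PN
    rw [Finset.sum_range_succ']
    simp
  have h0' := hval 0
  rw [h0] at h0'
  intro x
  rw [hval x]
  have hm : (s.map (fun t => x + t)).prod
      = (s.map (fun t => 0 + t)).prod * (s.map (fun t => 1 + x/t)).prod := by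
    rw [← Multiset.prod_map_mul]
    congr 1
    apply Multiset.map_congr rfl
    intro t ht
    have := hs t ht
    field_simp
    ring
  rw [hm, ← mul_assoc, ← h0', one_mul]

theorem lr_pos {α : ℝ} (h1 : 1 ≤ α) {x : ℝ} (hx : 0 < x) : 0 < lr α x := by
  unfold lr
  apply (leroy_summable h1 x).tsum_pos (fun k => by positivity) 0
  simp

/-- limits along the ultrafilter -/
theorem exists_limits {α : ℝ} (h1 : 1 ≤ α) (hA : Pres (fun x => x ^ α)) :
    ∃ U : ℕ → ℝ → ℝ,
      (∀ m, 1 ≤ m → ∀ x, 0 < x → 0 ≤ U m x) ∧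
      (∀ m, 1 ≤ m → ∀ x, 0 < x → U m x ≤ U 1 x) ∧
      (∃ C : ℕ → ℝ,
        (∀ x, 0 < x → ∀ h : ℝ, 0 < h → h ≤ 1 →
          |(Real.log (lr α (x * Real.exp h)) + Real.log (lr α (x * Real.exp (-h)))
            - 2 * Real.log (lr α x)) / h^2 - U 1 x| ≤ C 0 * h * U 1 x) ∧
        (∀ m : ℕ, 1 ≤ m → ∀ x, 0 < x → ∀ h : ℝ, 0 < h → h ≤ 1 →
          |(U m (x * Real.exp h) + U m (x * Real.exp (-h)) - 2 * U m x) / h^2
            - ((m:ℝ)^2 * U m x - 2*m*(2*m+1) * U (m+1) x)| ≤ C m * h * U 1 x)) ∧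
      (∀ x, 0 < x → ∀ M : ℕ, |lr α (-x)| ≤
        Real.exp (Real.log (lr α x) - 1/2 * ∑ m ∈ Finset.Icc 1 M, (4:ℝ)^m / m * U m x)) := by
  classical
  have hex : ∀ N : ℕ, ∃ s : Multiset ℝ, (∀ t ∈ s, 0 < t) ∧
      (1 ≤ N → ∀ x, PN α N x = (s.map (fun t => 1 + x/t)).prod) := by
    intro N
    rcases Nat.lt_or_ge N 1 with h | h
    · exact ⟨0, by simp, fun h' => absurd h' (by omega)⟩
    · obtain ⟨s, hs, he⟩ := exists_factor hA N h
      exact ⟨s, hs, fun _ => he⟩
  choose s hs he using hex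
  set W : Ultrafilter ℕ := Filter.hyperfilter ℕ with hW
  have hWle : (W : Filter ℕ) ≤ atTop := Nat.hyperfilter_le_atTop
  have hev : ∀ᶠ N in (W : Filter ℕ), 1 ≤ N := hWle (eventually_ge_atTop 1)
  have hP : ∀ x, Tendsto (fun N => PN α N x) (W : Filter ℕ) (𝓝 (lr α x)) :=
    fun x => (tendsto_leroy h1 x).mono_left hWle
  have hLL : ∀ x, 0 < x → Tendsto (fun N => LL (s N) x) (W : Filter ℕ)
      (𝓝 (Real.log (lr α x))) := by
    intro x hx
    have h2 := ((Real.continuousAt_log (lr_pos h1 hx).ne').tendsto).comp (hP x)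
    refine h2.congr' ?_
    filter_upwards [hev] with N hN
    simp only [Function.comp]
    rw [he N hN, exp_LL (s N) (hs N) hx, Real.log_exp]
  have hbdd : ∀ x, 0 < x → ∃ B, ∀ᶠ N in (W : Filter ℕ), LL (s N) x ≤ B := by
    intro x hx
    exact ⟨Real.log (lr α x) + 1, ((hLL x hx).eventually_lt_const (by linarith)).mono
      (fun N h => h.le)⟩
  have hlim : ∀ (m : ℕ) (x : ℝ), ∃ L : ℝ, 1 ≤ m → 0 < x →
      Tendsto (fun N => UU (s N) m x) (W : Filter ℕ) (𝓝 L) := by
    intro m x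
    by_cases hm : 1 ≤ m
    · by_cases hx : 0 < x
      · obtain ⟨B, hB⟩ := hbdd x hx
        have hmem : ∀ᶠ N in (W : Filter ℕ), UU (s N) m x ∈ Set.Icc 0 B := by
          filter_upwards [hB] with N hN
          exact ⟨UU_nonneg (s N) (hs N) m hx,
            le_trans (UU_le_one (s N) (hs N) hm hx) (le_trans (UU_le_LL (s N) (hs N) hx) hN)⟩
        have hle : ((W.map (fun N => UU (s N) m x) : Ultrafilter ℝ) : Filter ℝ)
            ≤ 𝓟 (Set.Icc 0 B) := by
          rw [le_principal_iff]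
          exact hmem
        obtain ⟨L, -, hL⟩ := isCompact_Icc.ultrafilter_le_nhds _ hle
        exact ⟨L, fun _ _ => hL⟩
      · exact ⟨0, fun _ h => absurd h hx⟩
    · exact ⟨0, fun h => absurd h hm⟩
  choose U hU using hlim
  obtain ⟨C0, hC0, hC0'⟩ := second_diff_log
  have hCm : ∀ m : ℕ, ∃ C : ℝ, 1 ≤ m → ∀ y : ℝ, 0 < y →
    ∀ h : ℝ, 0 < h → h ≤ 1 →
    |((uu (y * Real.exp h))^m + (uu (y * Real.exp (-h)))^m - 2 * (uu y)^m) / h^2
      - ((m:ℝ)^2 * (uu y)^m - 2*m*(2*m+1) * (uu y)^(m+1))| ≤ C * h * uu y := by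
    intro m
    by_cases hm : 1 ≤ m
    · obtain ⟨C, -, hC⟩ := second_diff_u m hm
      exact ⟨C, fun _ => hC⟩
    · exact ⟨0, fun h => absurd h hm⟩
  choose Cm hCm' using hCm
  refine ⟨U, ?_, ?_, ⟨fun m => if m = 0 then C0 else Cm m, ?_, ?_⟩, ?_⟩
  · intro m hm x hx
    exact ge_of_tendsto' (hU m x hm hx) (fun N => UU_nonneg (s N) (hs N) m hx)
  · intro m hm x hx
    exact le_of_tendsto_of_tendsto' (hU m x hm hx) (hU 1 x le_rfl hx)
      (fun N => UU_le_one (s N) (hs N) hm hx)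
  · intro x hx h hh0 hh1
    have x1 : 0 < x * Real.exp h := by positivity
    have x2 : 0 < x * Real.exp (-h) := by positivity
    have t1 := ((((hLL _ x1).add (hLL _ x2)).sub ((hLL x hx).const_mul 2)).div_const (h^2)).sub
      (hU 1 x le_rfl hx)
    have t2 := (hU 1 x le_rfl hx).const_mul (C0 * h)
    simp only [if_true]
    refine le_of_tendsto_of_tendsto' t1.abs t2 (fun N => ?_)
    exact LL_sd (s N) (hs N) C0 hC0' hx hh0 hh1
  · intro m hm x hx h hh0 hh1
    have x1 : 0 < x * Real.exp h := by positivity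
    have x2 : 0 < x * Real.exp (-h) := by positivity
    have t1 := ((((hU m _ hm x1).add (hU m _ hm x2)).sub ((hU m x hm hx).const_mul 2)).div_const
      (h^2)).sub (((hU m x hm hx).const_mul ((m:ℝ)^2)).sub
        ((hU (m+1) x (by omega) hx).const_mul (2*(m:ℝ)*(2*m+1))))
    have t2 := (hU 1 x le_rfl hx).const_mul (Cm m * h)
    beta_reduce
    rw [if_neg (by omega)]
    refine le_of_tendsto_of_tendsto' t1.abs t2 (fun N => ?_)
    exact UU_sd (s N) (hs N) m (Cm m) (hCm' m hm) hx hh0 hh1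
  · intro x hx M
    have t1 := (hP (-x)).abs
    have t3 : Tendsto (fun N => ∑ m ∈ Finset.Icc 1 M, (4:ℝ)^m / m * UU (s N) m x)
        (W : Filter ℕ) (𝓝 (∑ m ∈ Finset.Icc 1 M, (4:ℝ)^m / m * U m x)) := by
      apply tendsto_finsetSum
      intro m hm
      exact (hU m x (Finset.mem_Icc.1 hm).1 hx).const_mul _
    have t2 := (Real.continuous_exp.tendsto _).comp ((hLL x hx).sub (t3.const_mul (1/2)))
    refine le_of_tendsto_of_tendsto t1 t2 ?_
    filter_upwards [hev] with N hN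
    simp only [Function.comp]
    rw [he N hN]
    have := neg_prod_le (s N) (hs N) hx M
    have e : (s N).map (fun t => 1 + -x/t) = (s N).map (fun t => 1 - x/t) := by
      apply Multiset.map_congr rfl
      intro t _
      ring
    rw [e]
    exact this

/-- the coefficients `Q` -/
noncomputable def Qs (ρ : ℝ) : ℕ → ℝ
  | 0 => 0
  | 1 => ρ^2
  | (m+2) => (((m+1 : ℕ):ℝ)^2 - ρ^2) * Qs ρ (m+1) / (2*((m+1 : ℕ):ℝ)*(2*((m+1 : ℕ):ℝ)+1))

theorem Qs_one (ρ : ℝ) : Qs ρ 1 = ρ^2 := rfl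

theorem Qs_succ (ρ : ℝ) (m : ℕ) (hm : 1 ≤ m) :
    Qs ρ (m+1) = ((m:ℝ)^2 - ρ^2) * Qs ρ m / (2*m*(2*m+1)) := by
  obtain ⟨k, rfl⟩ : ∃ k, m = k + 1 := ⟨m-1, by omega⟩
  rfl

theorem log_lr_tendsto {α : ℝ} (h1 : 1 < α) :
    Tendsto (fun x : ℝ => Real.log (lr α x) / x ^ (1/α)) atTop (𝓝 α) := by
  obtain ⟨B, hB0, hB⟩ := leroy_growth h1.le
  have hρ : 0 < 1/α := by positivity
  have hlow : Tendsto (fun x : ℝ => α - B * ((1 + Real.log x) / x ^ (1/α))) atTop
      (𝓝 (α - B * 0)) := by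
    apply Tendsto.sub tendsto_const_nhds
    apply Tendsto.const_mul
    have ha : Tendsto (fun x : ℝ => 1 / x ^ (1/α)) atTop (𝓝 0) := by
      have := (tendsto_rpow_atTop hρ).inv_tendsto_atTop
      refine this.congr (fun x => ?_)
      simp
    have hb : Tendsto (fun x : ℝ => Real.log x / x ^ (1/α)) atTop (𝓝 0) :=
      (isLittleO_log_rpow_atTop hρ).tendsto_div_nhds_zero
    have := ha.add hb
    rw [add_zero] at this
    refine this.congr (fun x => ?_)
    ring
  rw [mul_zero, sub_zero] at hlow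
  refine tendsto_of_tendsto_of_tendsto_of_le_of_le' hlow tendsto_const_nhds ?_ ?_
  · filter_upwards [eventually_ge_atTop (1:ℝ)] with x hx
    have hx0 : 0 < x := by linarith
    have hxp : 0 < x ^ (1/α) := Real.rpow_pos_of_pos hx0 _
    have h2 := (hB x hx).1
    have h3 : α * x^(1/α) - B * (1 + Real.log x) ≤ Real.log (lr α x) := by
      rw [Real.le_log_iff_exp_le (lr_pos h1.le hx0)]
      exact h2
    rw [le_div_iff₀ hxp]
    have e : (α - B * ((1 + Real.log x) / x ^ (1/α))) * x^(1/α)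
        = α * x^(1/α) - B * (1 + Real.log x) := by
      field_simp
    rw [e]
    exact h3
  · filter_upwards [eventually_ge_atTop (1:ℝ)] with x hx
    have hx0 : 0 < x := by linarith
    have hxp : 0 < x ^ (1/α) := Real.rpow_pos_of_pos hx0 _
    have h2 := (hB x hx).2
    rw [div_le_iff₀ hxp, Real.log_le_iff_le_exp (lr_pos h1.le hx0)]
    exact h2

theorem small {α : ℝ} (h1 : 1 < α) (h2 : α < 2) (hA : Pres (fun x => x ^ α)) :
    ∃ K : ℝ, ∀ x : ℝ, 1 ≤ x → |lr α (-x)| ≤ K / x^2 := by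
  obtain ⟨U, hU0, hU1, ⟨C, hC0, hCs⟩, hneg⟩ := exists_limits h1.le hA
  set ρ := 1/α with hρ
  have hρ1 : 1/2 < ρ := by rw [hρ, div_lt_div_iff₀ (by norm_num) (by linarith)]; linarith
  have hρ2 : ρ < 1 := by rw [hρ, div_lt_one (by linarith)]; exact h1
  have hρ0 : 0 < ρ := by linarith
  have hAI := asymptotic_induction hρ0 (by linarith : (0:ℝ) ≤ α)
    (fun x => Real.log (lr α x)) U hU0 hU1 (log_lr_tendsto h1) C hC0 hCs (Qs ρ) (Qs_one ρ)
    (fun m hm => Qs_succ ρ m hm)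
  obtain ⟨M, hM1, hM⟩ := partial_sums_gt_one hρ1 hρ2 (Qs ρ) (Qs_one ρ)
    (fun m hm => Qs_succ ρ m hm)
  set S := ∑ m ∈ Finset.Icc 1 M, (4:ℝ)^m / (2*m) * Qs ρ m with hS
  have hlim : Tendsto (fun x : ℝ => (Real.log (lr α x)
      - 1/2 * ∑ m ∈ Finset.Icc 1 M, (4:ℝ)^m / m * U m x) / x^ρ) atTop (𝓝 (α * (1 - S))) := by
    have t1 : Tendsto (fun x : ℝ => ∑ m ∈ Finset.Icc 1 M, (4:ℝ)^m / m * (U m x / x^ρ)) atTop
        (𝓝 (∑ m ∈ Finset.Icc 1 M, (4:ℝ)^m / m * (α * Qs ρ m))) := by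
      apply tendsto_finsetSum
      intro m hm
      exact (hAI m (Finset.mem_Icc.1 hm).1).const_mul _
    have t2 := (log_lr_tendsto h1).sub (t1.const_mul (1/2))
    have e : α - 1/2 * ∑ m ∈ Finset.Icc 1 M, (4:ℝ)^m / m * (α * Qs ρ m) = α * (1 - S) := by
      rw [hS, mul_sub, mul_one, Finset.mul_sum, Finset.mul_sum]
      congr 1
      apply Finset.sum_congr rfl
      intro m hm
      have : (m:ℝ) ≠ 0 := by
        have := (Finset.mem_Icc.1 hm).1
        positivity
      field_simp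
    rw [e] at t2
    refine t2.congr (fun x => ?_)
    rw [sub_div, mul_div_assoc, Finset.sum_div]
    congr 2
    apply Finset.sum_congr rfl
    intro m _
    ring
  set c := α * (S - 1)/2 with hc
  have hc0 : 0 < c := by
    have : 0 < S - 1 := by linarith
    positivity
  have hev1 : ∀ᶠ x : ℝ in atTop, (Real.log (lr α x)
      - 1/2 * ∑ m ∈ Finset.Icc 1 M, (4:ℝ)^m / m * U m x) / x^ρ < -c := by
    apply hlim.eventually_lt_const
    rw [hc]
    have : 0 < S - 1 := by linarith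
    nlinarith [mul_pos (by linarith : 0 < α) this]
  have hev2 : ∀ᶠ x : ℝ in atTop, x^2 * Real.exp (-c * x^ρ) < 1 := by
    have h3 := (tendsto_rpow_mul_exp_neg_mul_atTop_nhds_zero (2/ρ) c hc0).comp
      (tendsto_rpow_atTop hρ0)
    have h4 := h3.eventually_lt_const (by norm_num : (0:ℝ) < 1)
    filter_upwards [h4, eventually_gt_atTop (0:ℝ)] with x hx hx0
    simp only [Function.comp] at hx
    rw [← Real.rpow_mul hx0.le, mul_div_cancel₀ _ hρ0.ne'] at hx
    rw [Real.rpow_two] at hx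
    exact hx
  obtain ⟨X, hX⟩ := eventually_atTop.1 (hev1.and (hev2.and (eventually_ge_atTop (1:ℝ))))
  set X0 := max X 1 with hX0
  have hX01 : 1 ≤ X0 := le_max_right _ _
  obtain ⟨B, hB0, hB⟩ := leroy_growth h1.le
  refine ⟨max 1 (Real.exp (α * X0^ρ) * X0^2), ?_⟩
  intro x hx
  have hx0 : 0 < x := by linarith
  rcases le_total X0 x with hle | hle
  · obtain ⟨a1, a2, -⟩ := hX x (le_trans (le_max_left _ _) hle)
    have hxp : 0 < x^ρ := Real.rpow_pos_of_pos hx0 _
    have b1 := hneg x hx0 M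
    rw [div_lt_iff₀ hxp] at a1
    have b2 : |lr α (-x)| ≤ Real.exp (-c * x^ρ) := le_trans b1 (Real.exp_le_exp.2 a1.le)
    rw [le_div_iff₀ (by positivity)]
    calc |lr α (-x)| * x^2 ≤ Real.exp (-c * x^ρ) * x^2 :=
          mul_le_mul_of_nonneg_right b2 (by positivity)
      _ ≤ 1 := by rw [mul_comm]; exact a2.le
      _ ≤ _ := le_max_left _ _
  · have b1 := hneg x hx0 0
    simp only [Finset.Icc_eq_empty_of_lt (by norm_num : (0:ℕ) < 1), Finset.sum_empty, mul_zero,
      sub_zero] at b1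
    rw [Real.exp_log (lr_pos h1.le hx0)] at b1
    have b2 := (hB x hx).2
    have b3 : Real.exp (α * x^(1/α)) ≤ Real.exp (α * X0^ρ) := by
      rw [Real.exp_le_exp]
      apply mul_le_mul_of_nonneg_left _ (by linarith)
      exact Real.rpow_le_rpow hx0.le hle hρ0.le
    have b4 : x^2 ≤ X0^2 := pow_le_pow_left₀ hx0.le hle 2
    rw [le_div_iff₀ (by positivity)]
    refine le_trans ?_ (le_max_right _ _)
    apply mul_le_mul (le_trans b1 (le_trans b2 b3)) b4 (by positivity) (Real.exp_pos _).le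

end Pool.Agent.Helper477.RR
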