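import Mathlib
set_option autoImplicit false
open Filter Topology MeasureTheory
open scoped Nat

namespace Pool.Agent.Helper477.RR

lemma leroy_aux_term (b : ℕ → ℝ) (hb : ∀ k, |b k| ≤ 1 / (k ! : ℝ)) (x : ℝ) (k : ℕ) :
    ‖b k * x ^ (k + 1)‖ ≤ |x| * (|x| ^ k / (k ! : ℝ)) := by
  rw [Real.norm_eq_abs, abs_mul, abs_pow, pow_succ]
  calc |b k| * (|x| ^ k * |x|) ≤ (1 / (k ! : ℝ)) * (|x| ^ k * |x|) := by
        gcongr; exact hb k
    _ = _ := by ring

lemma leroy_aux_summable (b : ℕ → ℝ) (hb : ∀ k, |b k| ≤ 1 / (k ! : ℝ)) (x : ℝ) :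
    Summable (fun k => b k * x ^ (k + 1)) :=
  Summable.of_norm_bounded ((Real.summable_pow_div_factorial |x|).mul_left _)
    (leroy_aux_term b hb x)

lemma leroy_aux_bound (b : ℕ → ℝ) (hb : ∀ k, |b k| ≤ 1 / (k ! : ℝ)) (x : ℝ) :
    |∑' k, b k * x ^ (k + 1)| ≤ |x| * Real.exp |x| := by
  have h1 : HasSum (fun k : ℕ => |x| * (|x| ^ k / (k ! : ℝ))) (|x| * Real.exp |x|) := by
    apply HasSum.mul_left
    rw [Real.exp_eq_exp_ℝ]
    exact NormedSpace.expSeries_div_hasSum_exp |x|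
  rw [← Real.norm_eq_abs]
  exact tsum_of_norm_bounded h1 (leroy_aux_term b hb x)

lemma leroy_aux_meas (b : ℕ → ℝ) (hb : ∀ k, |b k| ≤ 1 / (k ! : ℝ)) :
    Measurable (fun x : ℝ => ∑' k, b k * x ^ (k + 1)) := by
  refine measurable_of_tendsto_metrizable
    (f := fun n (x : ℝ) => ∑ k ∈ Finset.range n, b k * x ^ (k + 1)) (fun n => by fun_prop) ?_
  rw [tendsto_pi_nhds]
  intro x
  exact (leroy_aux_summable b hb x).hasSum.tendsto_sum_nat

lemma leroy_aux_swap (b : ℕ → ℝ) (hb : ∀ k, |b k| ≤ 1 / (k ! : ℝ)) {p : ℝ} (hp : 0 < p)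
    {y : ℝ} (hy : 0 < y) :
    ∫ t in Set.Ioi (0:ℝ), (∑' k, b k * (y * Real.exp (-t)) ^ (k + 1)) * t ^ (p - 1) =
      Real.Gamma p * ∑' k : ℕ, b k * y ^ (k + 1) * (1 / ((k : ℝ) + 1)) ^ p := by
  set F : ℕ → ℝ → ℝ := fun k t =>
    b k * y ^ (k+1) * (t ^ (p - 1) * Real.exp (-(((k:ℝ)+1) * t))) with hFdef
  have hF : ∀ k t, b k * (y * Real.exp (-t)) ^ (k + 1) * t ^ (p-1) = F k t := by
    intro k t
    simp only [hFdef]
    rw [mul_pow, ← Real.exp_nat_mul]
    push_cast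
    have : ((k:ℝ)+1) * -t = -(((k:ℝ)+1) * t) := by ring
    rw [this]; ring
  have hint : ∀ k : ℕ, IntegrableOn (fun t : ℝ => t ^ (p - 1) * Real.exp (-(((k:ℝ)+1) * t)))
      (Set.Ioi 0) := by
    intro k
    have := integrableOn_rpow_mul_exp_neg_mul_rpow (p := 1) (s := p - 1) (b := (k:ℝ)+1)
      (by linarith) one_pos (by positivity)
    refine this.congr_fun (fun t ht => ?_) measurableSet_Ioi
    simp only [Real.rpow_one, neg_mul]
  have hval : ∀ k : ℕ, ∫ t in Set.Ioi (0:ℝ), t ^ (p - 1) * Real.exp (-(((k:ℝ)+1) * t)) =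
      (1 / ((k:ℝ)+1)) ^ p * Real.Gamma p := fun k =>
    Real.integral_rpow_mul_exp_neg_mul_Ioi hp (by positivity)
  have hG : 0 < Real.Gamma p := Real.Gamma_pos_of_pos hp
  have hFint : ∀ k, Integrable (F k) (volume.restrict (Set.Ioi 0)) := fun k =>
    (hint k).const_mul _
  have hnorm : ∀ k, ∫ t in Set.Ioi (0:ℝ), ‖F k t‖ =
      |b k| * y ^ (k + 1) * ((1 / ((k:ℝ)+1)) ^ p * Real.Gamma p) := by
    intro k
    rw [← hval k, ← integral_const_mul]
    refine setIntegral_congr_fun measurableSet_Ioi (fun t ht => ?_)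
    have ht0 : (0:ℝ) < t := ht
    simp only [hFdef]
    rw [Real.norm_eq_abs, abs_mul, abs_mul, abs_pow, abs_of_pos hy,
      abs_of_pos (mul_pos (Real.rpow_pos_of_pos ht0 _) (Real.exp_pos _))]
  have hsumm : Summable fun k => ∫ t in Set.Ioi (0:ℝ), ‖F k t‖ := by
    refine Summable.of_nonneg_of_le (fun k => integral_nonneg (fun t => norm_nonneg _))
      (fun k => ?_) ((Real.summable_pow_div_factorial y).mul_left (Real.Gamma p * y))
    rw [hnorm k]
    have h1 : (1 / ((k:ℝ)+1)) ^ p ≤ 1 := by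
      apply Real.rpow_le_one (by positivity) _ hp.le
      rw [div_le_one (by positivity)]
      linarith [(Nat.cast_nonneg k : (0:ℝ) ≤ k)]
    have h0 : 0 ≤ (1 / ((k:ℝ)+1)) ^ p := by positivity
    calc |b k| * y ^ (k + 1) * ((1 / ((k:ℝ)+1)) ^ p * Real.Gamma p)
        ≤ (1 / (k ! : ℝ)) * y ^ (k + 1) * (1 * Real.Gamma p) := by
          gcongr
          exact hb k
      _ = Real.Gamma p * y * (y ^ k / (k ! : ℝ)) := by rw [pow_succ]; ring
  have h := hasSum_integral_of_summable_integral_norm hFint hsumm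
  have h2 : ∀ t : ℝ, (∑' k, b k * (y * Real.exp (-t)) ^ (k + 1)) * t ^ (p - 1) = ∑' k, F k t := by
    intro t
    rw [← tsum_mul_right]
    exact tsum_congr fun k => hF k t
  simp_rw [h2]
  rw [← h.tsum_eq, ← tsum_mul_left]
  refine tsum_congr fun k => ?_
  simp only [hFdef]
  rw [integral_const_mul, hval k]
  ring
lemma leroy_aux_w1 (r : ℝ) : Real.exp (-|r|) ≤ 3 * (1 + r ^ 2)⁻¹ := by
  have h1 : |r| ^ 2 / (2 ! : ℝ) ≤ Real.exp |r| := Real.pow_div_factorial_le_exp |r| (abs_nonneg r) 2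
  have h2 : 1 ≤ Real.exp |r| := Real.one_le_exp (abs_nonneg r)
  have h3 : (2 ! : ℝ) = 2 := by norm_num [Nat.factorial]
  rw [h3, sq_abs] at h1
  rw [Real.exp_neg, ← div_eq_mul_inv, inv_eq_one_div, div_le_div_iff₀ (Real.exp_pos _) (by positivity)]
  linarith

lemma leroy_aux_w2 (r : ℝ) : |r| * Real.exp (-|r|) ≤ 7 * (1 + r ^ 2)⁻¹ := by
  have h1 : |r| ^ 3 / (3 ! : ℝ) ≤ Real.exp |r| := Real.pow_div_factorial_le_exp |r| (abs_nonneg r) 3
  have h2 : |r| + 1 ≤ Real.exp |r| := Real.add_one_le_exp _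
  have h3 : (3 ! : ℝ) = 6 := by norm_num [Nat.factorial]
  rw [h3] at h1
  rw [Real.exp_neg, ← div_eq_mul_inv, ← div_eq_mul_inv, div_le_div_iff₀ (Real.exp_pos _) (by positivity)]
  have h4 : r ^ 2 = |r| ^ 2 := (sq_abs r).symm
  rw [h4]
  nlinarith

lemma leroy_aux_J {c : ℝ} (hc : 0 < c) {τ : ℝ} (hτ : 0 ≤ τ) :
    IntegrableOn ((Set.Iic τ).indicator (fun t : ℝ => t ^ (c - 1))) (Set.Ioi 0) ∧
    ∫ t in Set.Ioi (0:ℝ), (Set.Iic τ).indicator (fun t : ℝ => t ^ (c - 1)) t = τ ^ c / c := by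
  have h1 : IntervalIntegrable (fun t : ℝ => t ^ (c - 1)) volume 0 τ :=
    intervalIntegral.intervalIntegrable_rpow' (by linarith)
  have h2 : IntegrableOn (fun t : ℝ => t ^ (c - 1)) (Set.Ioc 0 τ) :=
    (intervalIntegrable_iff_integrableOn_Ioc_of_le hτ).mp h1
  constructor
  · rw [IntegrableOn, integrable_indicator_iff measurableSet_Iic, IntegrableOn,
      Measure.restrict_restrict measurableSet_Iic, Set.Iic_inter_Ioi]
    exact h2
  · rw [setIntegral_indicator measurableSet_Iic, Set.Ioi_inter_Iic,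
      ← intervalIntegral.integral_of_le hτ, integral_rpow (Or.inl (by linarith))]
    rw [sub_add_cancel, Real.zero_rpow hc.ne', sub_zero]

lemma leroy_aux_shift_int (τ : ℝ) : Integrable (fun t : ℝ => (1 + (τ - t) ^ 2)⁻¹) :=
  integrable_inv_one_add_sq.comp_sub_left τ

lemma leroy_aux_lhs (P : ℝ → ℝ) (hP : Measurable P) {c C : ℝ} (hc : 0 < c) (hc1 : c < 1)
    (hC : 0 ≤ C)
    (hb : ∀ s : ℝ, |P (Real.exp s) + (if 0 ≤ s then 1 else 0)| ≤ C * Real.exp (-|s|)) :
    ∃ C1 : ℝ, ∀ τ : ℝ, 0 ≤ τ →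
      |(∫ t in Set.Ioi (0:ℝ), P (Real.exp τ * Real.exp (-t)) * t ^ (c - 1)) + τ ^ c / c| ≤ C1 := by
  refine ⟨C * (1 ^ c / c + 3 * ∫ x : ℝ, (1 + x ^ 2)⁻¹), fun τ hτ => ?_⟩
  obtain ⟨hJi, hJv⟩ := leroy_aux_J hc hτ
  obtain ⟨hJi1, hJv1⟩ := leroy_aux_J hc (zero_le_one (α := ℝ))
  set f1 : ℝ → ℝ := fun t => (P (Real.exp τ * Real.exp (-t)) + (if 0 ≤ τ - t then 1 else 0)) *
    t ^ (c - 1) with hf1
  set f2 : ℝ → ℝ := (Set.Iic τ).indicator (fun t : ℝ => t ^ (c - 1)) with hf2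
  set Bd : ℝ → ℝ := fun t => C * ((Set.Iic (1:ℝ)).indicator (fun t : ℝ => t ^ (c - 1)) t +
    3 * (1 + (τ - t) ^ 2)⁻¹) with hBd
  have hsum : ∀ t, P (Real.exp τ * Real.exp (-t)) * t ^ (c - 1) = f1 t - f2 t := by
    intro t
    simp only [hf1, hf2, Set.indicator_apply, Set.mem_Iic]
    by_cases h : t ≤ τ
    · rw [if_pos h, if_pos (by linarith)]; ring
    · rw [if_neg h, if_neg (by intro h'; apply h; linarith)]; ring
  have hBdi : IntegrableOn Bd (Set.Ioi 0) :=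
    (hJi1.add ((leroy_aux_shift_int τ).integrableOn.const_mul 3)).const_mul C
  have hle : ∀ t ∈ Set.Ioi (0:ℝ), ‖f1 t‖ ≤ Bd t := by
    intro t ht
    have ht0 : (0:ℝ) < t := ht
    have h1 := hb (τ - t)
    have h2 : Real.exp (τ - t) = Real.exp τ * Real.exp (-t) := by
      rw [← Real.exp_add]; ring_nf
    rw [h2] at h1
    simp only [hf1, hBd]
    have htp : 0 < t ^ (c - 1) := Real.rpow_pos_of_pos ht0 _
    rw [Real.norm_eq_abs, abs_mul, abs_of_pos htp]
    have h3 := leroy_aux_w1 (τ - t)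
    have h4 : Real.exp (-|τ - t|) ≤ 1 := by
      rw [Real.exp_le_one_iff]; linarith [abs_nonneg (τ - t)]
    have hinv : 0 < (1 + (τ - t) ^ 2)⁻¹ := by positivity
    calc |P (Real.exp τ * Real.exp (-t)) + (if 0 ≤ τ - t then 1 else 0)| * t ^ (c - 1)
        ≤ C * Real.exp (-|τ - t|) * t ^ (c - 1) := by gcongr
      _ = C * (Real.exp (-|τ - t|) * t ^ (c - 1)) := by ring
      _ ≤ _ := by
        apply mul_le_mul_of_nonneg_left _ hC
        rw [Set.indicator_apply]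
        by_cases h5 : t ∈ Set.Iic (1:ℝ)
        · rw [if_pos h5]
          have : Real.exp (-|τ - t|) * t ^ (c - 1) ≤ 1 * t ^ (c - 1) := by gcongr
          linarith
        · rw [if_neg h5, zero_add]
          have h6 : (1:ℝ) ≤ t := by
            simp only [Set.mem_Iic, not_le] at h5; exact h5.le
          have h7 : t ^ (c - 1) ≤ 1 := Real.rpow_le_one_of_one_le_of_nonpos h6 (by linarith)
          calc Real.exp (-|τ - t|) * t ^ (c - 1) ≤ Real.exp (-|τ - t|) * 1 := by gcongr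
            _ ≤ _ := by rw [mul_one]; exact h3
  have hf1m : Measurable f1 := by
    simp only [hf1]
    refine Measurable.mul (Measurable.add (hP.comp (by fun_prop)) ?_) (by fun_prop)
    exact Measurable.ite (measurableSet_le measurable_const (by fun_prop)) measurable_const
      measurable_const
  have hle' : ∀ᵐ t ∂(volume.restrict (Set.Ioi (0:ℝ))), ‖f1 t‖ ≤ Bd t :=
    (ae_restrict_iff' measurableSet_Ioi).mpr (Eventually.of_forall hle)
  have hf1i : IntegrableOn f1 (Set.Ioi 0) := Integrable.mono' hBdi hf1m.aestronglyMeasurable hle'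
  have heq : (∫ t in Set.Ioi (0:ℝ), P (Real.exp τ * Real.exp (-t)) * t ^ (c - 1)) + τ ^ c / c
      = ∫ t in Set.Ioi (0:ℝ), f1 t := by
    simp_rw [hsum]
    rw [integral_sub hf1i hJi, hJv]
    ring
  rw [heq, ← Real.norm_eq_abs]
  refine (norm_integral_le_of_norm_le hBdi hle').trans ?_
  simp only [hBd]
  rw [integral_const_mul, integral_add hJi1 ((leroy_aux_shift_int τ).integrableOn.const_mul 3),
    hJv1, integral_const_mul]
  have h8 : ∫ t in Set.Ioi (0:ℝ), (1 + (τ - t) ^ 2)⁻¹ ≤ ∫ x : ℝ, (1 + x ^ 2)⁻¹ := by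
    calc ∫ t in Set.Ioi (0:ℝ), (1 + (τ - t) ^ 2)⁻¹ ≤ ∫ t : ℝ, (1 + (τ - t) ^ 2)⁻¹ :=
          setIntegral_le_integral (leroy_aux_shift_int τ)
            (Eventually.of_forall fun t => by positivity)
      _ = _ := integral_sub_left_eq_self (fun x : ℝ => (1 + x ^ 2)⁻¹) volume τ
  gcongr

lemma leroy_aux_rhs (Q : ℝ → ℝ) (hQ : Measurable Q) {C : ℝ} (hC : 0 ≤ C)
    (hb : ∀ s : ℝ, |Q (Real.exp s)| ≤ C * Real.exp (-|s|)) :
    ∃ B C2 : ℝ, ∀ τ : ℝ, 0 ≤ τ →
      |(∫ t in Set.Ioi (0:ℝ), Q (Real.exp τ * Real.exp (-t)) * t ^ ((2:ℝ) - 1)) - τ * B| ≤ C2 := by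
  refine ⟨∫ s : ℝ, Q (Real.exp s), 7 * C * ∫ x : ℝ, (1 + x ^ 2)⁻¹, fun τ hτ => ?_⟩
  set q : ℝ → ℝ := fun s => Q (Real.exp s) with hq
  have hqm : Measurable q := hQ.comp (by fun_prop)
  have hq1 : ∀ s, ‖q s‖ ≤ 3 * C * (1 + s ^ 2)⁻¹ := by
    intro s
    rw [Real.norm_eq_abs]
    have h1 := mul_le_mul_of_nonneg_left (leroy_aux_w1 s) hC
    linarith [hb s]
  have hq2 : ∀ s, |s| * |q s| ≤ 7 * C * (1 + s ^ 2)⁻¹ := by
    intro s
    have h1 := mul_le_mul_of_nonneg_left (leroy_aux_w2 s) hC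
    have h2 := mul_le_mul_of_nonneg_left (hb s) (abs_nonneg s)
    linarith
  have hqi : Integrable q :=
    Integrable.mono' (integrable_inv_one_add_sq.const_mul (3 * C)) hqm.aestronglyMeasurable
      (Eventually.of_forall hq1)
  set h : ℝ → ℝ := fun s => (Set.Ioi (0:ℝ)).indicator (fun t => q s * t) (τ - s) with hh
  have hhm : Measurable h := by
    have : h = fun s => if 0 < τ - s then q s * (τ - s) else 0 := by
      funext s
      simp only [hh, Set.indicator_apply, Set.mem_Ioi]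
    rw [this]
    exact Measurable.ite (measurableSet_lt measurable_const (by fun_prop))
      (hqm.mul (by fun_prop)) measurable_const
  have hdiff : ∀ s, ‖h s - τ * q s‖ ≤ 7 * C * (1 + s ^ 2)⁻¹ := by
    intro s
    refine le_trans ?_ (hq2 s)
    rw [Real.norm_eq_abs]
    simp only [hh, Set.indicator_apply, Set.mem_Ioi]
    split_ifs with h0
    · have : q s * (τ - s) - τ * q s = -(s * q s) := by ring
      rw [this, abs_neg, abs_mul]
    · have : |0 - τ * q s| = τ * |q s| := by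
        rw [zero_sub, abs_neg, abs_mul, abs_of_nonneg hτ]
      rw [this]
      apply mul_le_mul_of_nonneg_right _ (abs_nonneg _)
      have : τ ≤ s := by linarith
      exact this.trans (le_abs_self s)
  have hdi : Integrable (fun s => h s - τ * q s) :=
    Integrable.mono' (integrable_inv_one_add_sq.const_mul (7 * C))
      (hhm.sub (hqm.const_mul τ)).aestronglyMeasurable (Eventually.of_forall hdiff)
  have hhi : Integrable h := by
    have := hdi.add (hqi.const_mul τ)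
    refine this.congr (Eventually.of_forall fun s => ?_)
    simp
  have heq : (∫ t in Set.Ioi (0:ℝ), Q (Real.exp τ * Real.exp (-t)) * t ^ ((2:ℝ) - 1))
      = ∫ s, h s := by
    rw [← integral_sub_left_eq_self h volume τ, ← integral_indicator measurableSet_Ioi]
    congr 1
    funext t
    simp only [hh, hq, Set.indicator_apply, sub_sub_cancel]
    split_ifs with h0
    · have h2 : Real.exp (τ - t) = Real.exp τ * Real.exp (-t) := by
        rw [← Real.exp_add]; ring_nf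
      have h3 : (2:ℝ) - 1 = 1 := by norm_num
      rw [h2, h3, Real.rpow_one]
    · rfl
  have h9 : (∫ s, h s) - τ * ∫ s, q s = ∫ s, (h s - τ * q s) := by
    rw [integral_sub hhi (hqi.const_mul τ), integral_const_mul]
  rw [heq, h9, ← Real.norm_eq_abs, ← integral_const_mul]
  exact norm_integral_le_of_norm_le (integrable_inv_one_add_sq.const_mul (7 * C))
    (Eventually.of_forall hdiff)
/-- For `1 < α < 2` the function `g(x) = ∑ (-x)^k / (k!)^α` does not decay like `x^(-2)`. -/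
theorem leroy_no_decay {α : ℝ} (h1 : 1 < α) (h2 : α < 2) (K : ℝ)
    (hK : ∀ x : ℝ, 1 ≤ x → |∑' k : ℕ, (-x) ^ k / ((k ! : ℝ) ^ α)| ≤ K / x ^ 2) : False := by
  set c : ℝ := 2 - α with hc
  have hc0 : 0 < c := by linarith
  have hc1 : c < 1 := by linarith
  set b1 : ℕ → ℝ := fun k => (-1) ^ (k + 1) / (((k + 1) ! : ℝ) ^ α) with hb1def
  set b2 : ℕ → ℝ := fun k => (-1) ^ (k + 1) / ((k ! : ℝ) ^ α) with hb2def
  have hfac1 : ∀ k : ℕ, (1:ℝ) ≤ (k ! : ℝ) := fun k => by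
    exact_mod_cast Nat.one_le_iff_ne_zero.mpr (Nat.factorial_ne_zero k)
  have hfacle : ∀ k : ℕ, (k ! : ℝ) ≤ (k ! : ℝ) ^ α := fun k =>
    Real.self_le_rpow_of_one_le (hfac1 k) h1.le
  have hb1 : ∀ k, |b1 k| ≤ 1 / (k ! : ℝ) := by
    intro k
    simp only [hb1def]
    have hpos : (0:ℝ) < ((k + 1) ! : ℝ) ^ α := by
      have := hfac1 (k + 1); positivity
    rw [abs_div, abs_pow, abs_neg, abs_one, one_pow, abs_of_pos hpos]
    apply one_div_le_one_div_of_le (by linarith [hfac1 k])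
    refine le_trans ?_ (hfacle (k + 1))
    exact_mod_cast Nat.factorial_le (Nat.le_succ k)
  have hb2 : ∀ k, |b2 k| ≤ 1 / (k ! : ℝ) := by
    intro k
    simp only [hb2def]
    have hpos : (0:ℝ) < (k ! : ℝ) ^ α := by
      have := hfac1 k; positivity
    rw [abs_div, abs_pow, abs_neg, abs_one, one_pow, abs_of_pos hpos]
    exact one_div_le_one_div_of_le (by linarith [hfac1 k]) (hfacle k)
  set P : ℝ → ℝ := fun x => ∑' k, b1 k * x ^ (k + 1) with hPdef
  set Q : ℝ → ℝ := fun x => ∑' k, b2 k * x ^ (k + 1) with hQdef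
  have hPm : Measurable P := leroy_aux_meas b1 hb1
  have hQm : Measurable Q := leroy_aux_meas b2 hb2
  have hPb : ∀ x, |P x| ≤ |x| * Real.exp |x| := leroy_aux_bound b1 hb1
  have hQb : ∀ x, |Q x| ≤ |x| * Real.exp |x| := leroy_aux_bound b2 hb2
  -- relation with `g`
  have hg : ∀ x : ℝ, ∑' k : ℕ, (-x) ^ k / ((k ! : ℝ) ^ α) = 1 + P x := by
    intro x
    have hterm : ∀ k : ℕ, (-x) ^ (k + 1) / (((k + 1) ! : ℝ) ^ α) = b1 k * x ^ (k + 1) := by
      intro k
      simp only [hb1def]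
      rw [neg_pow]; ring
    have hs : Summable (fun k : ℕ => (-x) ^ k / ((k ! : ℝ) ^ α)) := by
      rw [← summable_nat_add_iff 1]
      refine (leroy_aux_summable b1 hb1 x).congr fun k => ?_
      rw [hterm k]
    rw [hs.tsum_eq_zero_add]
    congr 1
    · simp
    · exact tsum_congr hterm
  have hQg : ∀ x : ℝ, Q x = -x * ∑' k : ℕ, (-x) ^ k / ((k ! : ℝ) ^ α) := by
    intro x
    simp only [hQdef]
    rw [← tsum_mul_left]
    refine tsum_congr fun k => ?_
    simp only [hb2def]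
    rw [neg_pow x k]; ring
  set C : ℝ := max K 3 with hCdef
  have hC3 : (3:ℝ) ≤ C := le_max_right _ _
  have hC0 : 0 ≤ C := by linarith
  have hCK : K ≤ C := le_max_left _ _
  have he3 : Real.exp 1 ≤ 3 := by
    have := Real.exp_one_lt_d9; linarith
  have hsmall : ∀ (R : ℝ → ℝ), (∀ x, |R x| ≤ |x| * Real.exp |x|) → ∀ s : ℝ, s < 0 →
      |R (Real.exp s)| ≤ C * Real.exp (-|s|) := by
    intro R hR s hs
    have h3 := hR (Real.exp s)
    rw [abs_of_pos (Real.exp_pos s)] at h3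
    have h4 : Real.exp (Real.exp s) ≤ 3 := by
      refine le_trans (Real.exp_le_exp.mpr ?_) he3
      exact (Real.exp_le_one_iff.mpr hs.le)
    rw [abs_of_neg hs, neg_neg]
    have h5 := Real.exp_pos s
    nlinarith
  have hφ : ∀ s : ℝ, |P (Real.exp s) + (if 0 ≤ s then 1 else 0)| ≤ C * Real.exp (-|s|) := by
    intro s
    by_cases hs : 0 ≤ s
    · rw [if_pos hs, add_comm, ← hg]
      have hx1 : 1 ≤ Real.exp s := Real.one_le_exp hs
      refine (hK _ hx1).trans ?_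
      rw [abs_of_nonneg hs, Real.exp_neg, ← div_eq_mul_inv]
      have hxp := Real.exp_pos s
      calc K / Real.exp s ^ 2 ≤ C / Real.exp s ^ 2 := by gcongr
        _ ≤ C / Real.exp s := by
          apply div_le_div_of_nonneg_left hC0 hxp
          nlinarith
    · rw [if_neg hs, add_zero]
      exact hsmall P hPb s (not_le.mp hs)
  have hψ : ∀ s : ℝ, |Q (Real.exp s)| ≤ C * Real.exp (-|s|) := by
    intro s
    by_cases hs : 0 ≤ s
    · rw [hQg, abs_mul, abs_neg]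
      have hx1 : 1 ≤ Real.exp s := Real.one_le_exp hs
      have hxp := Real.exp_pos s
      rw [abs_of_pos hxp, abs_of_nonneg hs, Real.exp_neg, ← div_eq_mul_inv]
      calc Real.exp s * |∑' k : ℕ, (-Real.exp s) ^ k / ((k ! : ℝ) ^ α)|
          ≤ Real.exp s * (K / Real.exp s ^ 2) := by gcongr; exact hK _ hx1
        _ = K / Real.exp s := by field_simp
        _ ≤ C / Real.exp s := by gcongr
    · exact hsmall Q hQb s (not_le.mp hs)
  obtain ⟨C1, hC1⟩ := leroy_aux_lhs P hPm hc0 hc1 hC0 hφ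
  obtain ⟨B, C2, hC2⟩ := leroy_aux_rhs Q hQm hC0 hψ
  -- the identity of the two sides
  have hid : ∀ τ : ℝ, ∫ t in Set.Ioi (0:ℝ), P (Real.exp τ * Real.exp (-t)) * t ^ (c - 1) =
      Real.Gamma c * ∫ t in Set.Ioi (0:ℝ), Q (Real.exp τ * Real.exp (-t)) * t ^ ((2:ℝ) - 1) := by
    intro τ
    have e1 := leroy_aux_swap b1 hb1 hc0 (Real.exp_pos τ)
    have e2 := leroy_aux_swap b2 hb2 (two_pos (α := ℝ)) (Real.exp_pos τ)
    have e3 : Real.Gamma 2 = 1 := Real.Gamma_two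
    simp only [hPdef, hQdef]
    rw [e1, e2, e3, one_mul]
    congr 1
    refine tsum_congr fun k => ?_
    simp only [hb1def, hb2def]
    have hk : (0:ℝ) < (k:ℝ) + 1 := by positivity
    have hfk : (0:ℝ) < (k ! : ℝ) := by linarith [hfac1 k]
    have e4 : (((k + 1) ! : ℕ) : ℝ) ^ α = ((k:ℝ) + 1) ^ α * (k ! : ℝ) ^ α := by
      rw [Nat.factorial_succ]
      push_cast
      rw [Real.mul_rpow hk.le hfk.le]
    have e5 : (1 / ((k:ℝ) + 1)) ^ (2:ℝ) = (1 / ((k:ℝ) + 1)) ^ α * (1 / ((k:ℝ) + 1)) ^ c := by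
      rw [← Real.rpow_add (by positivity)]
      congr 1
      rw [hc]; ring
    have e6 : (1 / ((k:ℝ) + 1)) ^ α = 1 / ((k:ℝ) + 1) ^ α := by
      rw [Real.div_rpow zero_le_one hk.le, Real.one_rpow]
    rw [e4, e5, e6]
    have e7 : (0:ℝ) < ((k:ℝ) + 1) ^ α := Real.rpow_pos_of_pos hk _
    have e8 : (0:ℝ) < (k ! : ℝ) ^ α := Real.rpow_pos_of_pos hfk _
    field_simp
  have hG : 0 < Real.Gamma c := Real.Gamma_pos_of_pos hc0
  set C3 : ℝ := C1 + Real.Gamma c * C2 with hC3def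
  set B' : ℝ := Real.Gamma c * B with hB'
  have hu : ∀ τ : ℝ, 0 ≤ τ → |τ ^ c / c + τ * B'| ≤ C3 := by
    intro τ hτ
    have a1 := hC1 τ hτ
    have a2 := hC2 τ hτ
    rw [hid τ] at a1
    generalize (∫ t in Set.Ioi (0:ℝ), Q (Real.exp τ * Real.exp (-t)) * t ^ ((2:ℝ) - 1)) = I at a1 a2
    rw [abs_le] at a1 a2 ⊢
    have a3 := mul_le_mul_of_nonneg_left a2.1 hG.le
    have a4 := mul_le_mul_of_nonneg_left a2.2 hG.le
    have a5 : τ ^ c / c + τ * B' = (Real.Gamma c * I + τ ^ c / c) -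
        Real.Gamma c * (I - τ * B) := by rw [hB']; ring
    rw [a5, hC3def]
    have a6 : Real.Gamma c * -C2 = -(Real.Gamma c * C2) := by ring
    rw [a6] at a3
    constructor
    · linarith only [a1.1, a4]
    · linarith only [a1.2, a3]
  -- contradiction
  have h2c : (2:ℝ) ^ c < 2 := by
    calc (2:ℝ) ^ c < 2 ^ (1:ℝ) := Real.rpow_lt_rpow_of_exponent_lt (by norm_num) hc1
      _ = 2 := Real.rpow_one 2
  set M : ℝ := max 1 ((3 * C3 + 1) * c / (2 - 2 ^ c)) with hM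
  have hM1 : 1 ≤ M := le_max_left _ _
  have hM2 : (3 * C3 + 1) * c / (2 - 2 ^ c) ≤ M := le_max_right _ _
  set τ : ℝ := M ^ (1 / c) with hτdef
  have hτ0 : 0 ≤ τ := by positivity
  have hτc : τ ^ c = M := by
    rw [hτdef, ← Real.rpow_mul (by linarith), one_div_mul_cancel hc0.ne', Real.rpow_one]
  have u1 := hu τ hτ0
  have u2 := hu (2 * τ) (by positivity)
  rw [Real.mul_rpow (by norm_num) hτ0, hτc] at u2
  rw [hτc] at u1
  rw [abs_le] at u1 u2
  have hpos : 0 < 2 - (2:ℝ) ^ c := by linarith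
  rw [div_le_iff₀ hpos] at hM2
  have h9 : (3 * C3 + 1) ≤ M * (2 - 2 ^ c) / c := by
    rw [le_div_iff₀ hc0]; exact hM2
  have h10 : M * (2 - 2 ^ c) / c = 2 * (M / c + τ * B') - (2 ^ c * M / c + 2 * τ * B') := by
    field_simp
    ring
  linarith [u1.1, u1.2, u2.1, u2.2]


end Pool.Agent.Helper477.RR
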