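import Mathlib
import Pool.Agent.Helper477.RR.Conv
import Pool.Agent.Helper477.RR.Excl
import Pool.Agent.Helper477.RR.NoDecay

set_option autoImplicit false

open Polynomial Finset Filter Topology

namespace Pool.Agent.Helper477.RR

theorem no_exponent {α : ℝ} (h1 : 1 < α) (h2 : α < 2) (hA : Pres (fun x => x ^ α)) : False := by
  obtain ⟨K, hK⟩ := small h1 h2 hA
  exact leroy_no_decay h1 h2 K hK

theorem Pres.congr {F G : ℝ → ℝ} (hF : Pres F) (h : ∀ x, 0 ≤ x → F x = G x) : Pres G := by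
  refine ⟨fun x hx => by rw [← h x hx]; exact hF.nonneg x hx, ?_⟩
  intro d a ha
  have h1 := hF.pres d a ha
  refine ⟨fun j hj => by beta_reduce; rw [← h _ (ha.1 j hj)]; exact h1.1 j hj, ?_⟩
  intro z hz
  apply h1.2 z
  rw [← hz]
  apply Finset.sum_congr rfl
  intro j hj
  beta_reduce
  rw [h _ (ha.1 j (by have := Finset.mem_range.1 hj; omega))]

theorem Pres.smul {F : ℝ → ℝ} (hF : Pres F) {c : ℝ} (hc : 0 < c) : Pres (fun x => c * F x) := by
  refine ⟨fun x hx => mul_nonneg hc.le (hF.nonneg x hx), ?_⟩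
  intro d a ha
  have h1 := hF.pres d a ha
  refine ⟨fun j hj => mul_nonneg hc.le (h1.1 j hj), ?_⟩
  intro z hz
  apply h1.2 z
  have : ∑ j ∈ range (d+1), ((c * F (a j) : ℝ) : ℂ) * z ^ j
      = (c:ℂ) * ∑ j ∈ range (d+1), ((F (a j) : ℝ) : ℂ) * z ^ j := by
    rw [Finset.mul_sum]
    apply Finset.sum_congr rfl
    intro j _
    push_cast
    ring
  rw [this] at hz
  rcases mul_eq_zero.1 hz with h | h
  · exact absurd (by exact_mod_cast h) hc.ne'
  · exact h

theorem Pres.classify2 {F : ℝ → ℝ} (hF : Pres F) (h0 : F 0 = 0) :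
    ∃ c α : ℝ, 0 < c ∧ (α = 1 ∨ 2 ≤ α) ∧ ∀ x, 0 < x → F x = c * x ^ α := by
  obtain ⟨c, α, hc, hα, h⟩ := hF.classify'
  refine ⟨c, α, hc, ?_, h⟩
  rcases hα.lt_or_eq with h1 | h1
  · right
    by_contra h2
    push Not at h2
    have hG : Pres (fun x => x ^ α) := by
      have h3 := hF.smul (c := c⁻¹) (by positivity)
      apply h3.congr
      intro x hx
      rcases hx.lt_or_eq with hx | hx
      · rw [h x hx]; field_simp
      · rw [← hx, h0, Real.zero_rpow (by linarith), mul_zero]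
    exact no_exponent h1 h2 hG
  · left; exact h1.symm

end Pool.Agent.Helper477.RR
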